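import Pool.Agent.Work.MP_440970_an.BH.Stmts

/-!
# Item Box: the divergence theorem on the box `[0, L] × [-L, L]²`
-/

open MeasureTheory Set Filter Topology
open scoped ContDiff

namespace Pool.Agent.Work.MP_440970_an.BH

namespace BoxX

/-- lower corner -/
def lo (L : ℝ) : E3 := ![0, -L, -L]

/-- upper corner -/
def hi (L : ℝ) : E3 := fun _ => L

theorem lo_le {L : ℝ} (hL : 0 < L) (i : Fin 3) : -L ≤ lo L i := by
  fin_cases i <;> simp [lo]
  exact hL.le

theorem le_hi {L : ℝ} (hL : 0 < L) (i : Fin 3) : lo L i ≤ L := by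
  fin_cases i <;> simp [lo] <;> linarith

theorem s21 : Fin.succAbove (2 : Fin 3) (1 : Fin 2) = 1 := by decide

theorem norm_eq {L : ℝ} (hL : 0 < L) {x : E3} (hx : x ∈ Icc (lo L) (hi L)) {i : Fin 3}
    (hi' : |x i| = L) : ‖x‖ = L := by
  apply le_antisymm
  · rw [pi_norm_le_iff_of_nonneg hL.le]
    intro j
    rw [Real.norm_eq_abs, abs_le]
    exact ⟨(lo_le hL j).trans (hx.1 j), hx.2 j⟩
  · rw [← hi', ← Real.norm_eq_abs]
    exact norm_le_pi_norm x i

/-- the integral over a face -/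
theorem face {Z : Fin 3 → E3 → ℝ} {L ε : ℝ} (hL : 0 < L)
    (hZ : ∀ x : E3, 0 ≤ x 0 → ‖x‖ = L → ∀ i, |Z i x| ≤ ε) (i : Fin 3) (c V : ℝ)
    (hc : c ∈ Icc (lo L i) (hi L i)) (hc' : |c| = L)
    (hV : ∏ j, ((hi L ∘ i.succAbove) j - (lo L ∘ i.succAbove) j) = V) :
    |∫ z in Icc (lo L ∘ i.succAbove) (hi L ∘ i.succAbove), Z i (i.insertNth c z)| ≤ V * ε := by
  have hle : lo L ∘ i.succAbove ≤ hi L ∘ i.succAbove := by
    intro j
    exact le_hi hL (i.succAbove j)
  have h1 : ∀ z ∈ Icc (lo L ∘ i.succAbove) (hi L ∘ i.succAbove),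
      ‖Z i (i.insertNth c z)‖ ≤ ε := by
    intro z hz
    have hx : (i.insertNth c z : E3) ∈ Icc (lo L) (hi L) := Fin.insertNth_mem_Icc.2 ⟨hc, hz⟩
    rw [Real.norm_eq_abs]
    refine hZ _ (hx.1 0) (norm_eq hL hx (i := i) ?_) i
    rw [Fin.insertNth_apply_same]
    exact hc'
  have h2 := norm_setIntegral_le_of_norm_le_const (μ := volume)
    (s := Icc (lo L ∘ i.succAbove) (hi L ∘ i.succAbove)) isCompact_Icc.measure_lt_top h1
  rw [Real.norm_eq_abs, measureReal_def, Real.volume_Icc_pi_toReal hle, hV] at h2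
  linarith

end BoxX

open BoxX in
theorem pr_Box : S_Box := by
  intro Z U L ε hU hZ hsub hdiv hL hfar
  have hsub' : Icc (lo L) (hi L) ⊆ U := fun x hx => hsub x (hx.1 0)
  have hle : lo L ≤ hi L := by
    intro j
    exact le_hi hL j
  have hmain := integral_divergence_of_hasFDerivAt_off_countable' (lo L) (hi L) hle Z
    (fun i x => fderiv ℝ (Z i) x) ∅ countable_empty
    (fun i => (hZ i).continuousOn.mono hsub')
    (fun x hx i => by
      have hxU : x ∈ U := hsub' ⟨fun j => (hx.1 j (mem_univ j)).1.le,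
        fun j => (hx.1 j (mem_univ j)).2.le⟩
      exact (((hZ i).differentiableOn (by norm_num)).differentiableAt
        (hU.mem_nhds hxU)).hasFDerivAt)
    (by
      apply ContinuousOn.integrableOn_compact isCompact_Icc
      apply continuousOn_finsetSum
      intro i _
      apply ContinuousOn.clm_apply
      · exact ((hZ i).continuousOn_fderiv_of_isOpen hU le_rfl).mono hsub'
      · exact continuousOn_const)
  have hpos : 0 ≤ ∫ x in Icc (lo L) (hi L), ∑ i, fderiv ℝ (Z i) x (Pi.single i 1) := by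
    apply setIntegral_nonneg measurableSet_Icc
    intro x hx
    exact hdiv x (hsub' hx) (hx.1 0)
  rw [hmain, Fin.sum_univ_three] at hpos
  have f0 := face hL hfar 0 (hi L 0) (4 * L ^ 2) ⟨hle 0, le_rfl⟩ (abs_of_pos hL) (by
    rw [Fin.prod_univ_two]
    simp [lo, hi]
    ring)
  have f1 := face hL hfar 1 (hi L 1) (2 * L ^ 2) ⟨hle 1, le_rfl⟩ (abs_of_pos hL) (by
    rw [Fin.prod_univ_two]
    simp [lo, hi]
    ring)
  have f2 := face hL hfar 2 (hi L 2) (2 * L ^ 2) ⟨hle 2, le_rfl⟩ (abs_of_pos hL) (by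
    rw [Fin.prod_univ_two]
    simp [lo, hi, s21]
    ring)
  have g1 := face hL hfar 1 (lo L 1) (2 * L ^ 2) ⟨le_rfl, hle 1⟩
    (by show |(-L)| = L; rw [abs_neg, abs_of_pos hL]) (by
    rw [Fin.prod_univ_two]
    simp [lo, hi]
    ring)
  have g2 := face hL hfar 2 (lo L 2) (2 * L ^ 2) ⟨le_rfl, hle 2⟩
    (by show |(-L)| = L; rw [abs_neg, abs_of_pos hL]) (by
    rw [Fin.prod_univ_two]
    simp [lo, hi, s21]
    ring)
  have g0 : ∫ x in Icc (lo L ∘ (0 : Fin 3).succAbove) (hi L ∘ (0 : Fin 3).succAbove),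
      Z 0 ((0 : Fin 3).insertNth (lo L 0) x) =
      ∫ z in Icc (fun _ : Fin 2 => -L) (fun _ => L), Z 0 (Fin.cons 0 z) := by
    have h1 : lo L ∘ (0 : Fin 3).succAbove = fun _ : Fin 2 => -L := by
      funext j
      fin_cases j <;> simp [lo]
    have h2 : hi L ∘ (0 : Fin 3).succAbove = fun _ : Fin 2 => L := rfl
    rw [h1, h2]
    congr 1
    funext z
    rw [Fin.insertNth_zero']
    rfl
  rw [g0] at hpos
  have a0 := (abs_le.1 f0).2
  have a1 := (abs_le.1 f1).2
  have a2 := (abs_le.1 f2).2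
  have b1 := (abs_le.1 g1).1
  have b2 := (abs_le.1 g2).1
  linarith

end Pool.Agent.Work.MP_440970_an.BH
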