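import Pool.Agent.Work.MP_440970_an.BH.Stmts

/-!
# [CertEx] certificates exist for all `p < 1/2` close to `1/2`
-/

open MeasureTheory Set Filter Topology
open scoped ContDiff ENNReal

namespace Pool.Agent.Work.MP_440970_an.BH

namespace CertExX

/-! ### functions constant on open sets -/

lemma deriv_zero_open {f : ℝ → ℝ} {S : Set ℝ} {k : ℝ} (hS : IsOpen S) (h : ∀ u ∈ S, f u = k) :
    ∀ u ∈ S, deriv f u = 0 := by
  intro u hu
  have h1 : f =ᶠ[𝓝 u] fun _ => k := by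
    filter_upwards [hS.mem_nhds hu] with v hv
    exact h v hv
  rw [h1.deriv_eq]
  simp

lemma const_closure {f : ℝ → ℝ} {S : Set ℝ} {k : ℝ} (hf : ContDiff ℝ 2 f) (hS : IsOpen S)
    (h : ∀ u ∈ S, f u = k) : ∀ u ∈ closure S, deriv f u = 0 ∧ deriv (deriv f) u = 0 := by
  have h1 := deriv_zero_open hS h
  have h2 := deriv_zero_open hS h1
  have hf1 : ContDiff ℝ 1 (deriv f) := hf.deriv'
  have c1 : Continuous (deriv f) := hf1.continuous
  have c2 : Continuous (deriv (deriv f)) := hf1.continuous_deriv le_rfl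
  intro u hu
  exact ⟨Set.EqOn.closure (f := deriv f) (g := fun _ => 0) h1 c1 continuous_const hu,
    Set.EqOn.closure (f := deriv (deriv f)) (g := fun _ => 0) h2 c2 continuous_const hu⟩

lemma const_left {f : ℝ → ℝ} {a k : ℝ} (hf : ContDiff ℝ 2 f) (h : ∀ u ≤ a, f u = k) :
    ∀ u ≤ a, deriv f u = 0 ∧ deriv (deriv f) u = 0 := by
  intro u hu
  have h1 := const_closure hf isOpen_Iio (fun v (hv : v ∈ Iio a) => h v hv.le) u
  rw [closure_Iio] at h1
  exact h1 hu

lemma const_right {f : ℝ → ℝ} {a k : ℝ} (hf : ContDiff ℝ 2 f) (h : ∀ u, a ≤ u → f u = k) :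
    ∀ u, a ≤ u → deriv f u = 0 ∧ deriv (deriv f) u = 0 := by
  intro u hu
  have h1 := const_closure hf isOpen_Ioi (fun v (hv : v ∈ Ioi a) => h v (le_of_lt hv)) u
  rw [closure_Ioi] at h1
  exact h1 hu

/-! ### derivatives of the functions of the certificate -/

lemma der1 {γ : ℝ → ℝ} (hc : ContDiff ℝ 2 γ) (b u : ℝ) :
    HasDerivAt (fun v => γ (b * v)) (b * deriv γ (b * u)) u := by
  have h1 : HasDerivAt γ (deriv γ (b * u)) (b * u) :=
    (hc.differentiable (by norm_num) _).hasDerivAt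
  have h2 : HasDerivAt (fun v : ℝ => b * v) b u := by
    simpa using (hasDerivAt_id u).const_mul b
  have h3 := h1.comp u h2
  rw [mul_comm]
  exact h3

lemma der2 {γ : ℝ → ℝ} (hc : ContDiff ℝ 2 γ) (b u : ℝ) :
    HasDerivAt (fun v => b * deriv γ (b * v)) (b ^ 2 * deriv (deriv γ) (b * u)) u := by
  have hc1 : ContDiff ℝ 1 (deriv γ) := hc.deriv'
  have h1 : HasDerivAt (deriv γ) (deriv (deriv γ) (b * u)) (b * u) :=
    (hc1.differentiable (by norm_num) _).hasDerivAt
  have h2 : HasDerivAt (fun v : ℝ => b * v) b u := by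
    simpa using (hasDerivAt_id u).const_mul b
  have h3 := (h1.comp u h2).const_mul b
  have e : b ^ 2 * deriv (deriv γ) (b * u) = b * (deriv (deriv γ) (b * u) * b) := by ring
  rw [e]
  exact h3

lemma derc {γ : ℝ → ℝ} (hc : ContDiff ℝ 2 γ) (b k : ℝ) :
    deriv (fun v => k * γ (b * v)) = (fun u => k * (b * deriv γ (b * u))) ∧
    deriv (deriv (fun v => k * γ (b * v))) = fun u => k * (b ^ 2 * deriv (deriv γ) (b * u)) := by
  have h1 : deriv (fun v => k * γ (b * v)) = (fun u => k * (b * deriv γ (b * u))) := by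
    funext u
    exact ((der1 hc b u).const_mul k).deriv
  refine ⟨h1, ?_⟩
  rw [h1]
  funext u
  exact ((der2 hc b u).const_mul k).deriv

lemma derp {γ : ℝ → ℝ} (hc : ContDiff ℝ 2 γ) (h1 : ∀ u, 1 ≤ γ u) (b r : ℝ) :
    deriv (fun v => γ (b * v) ^ r) =
      (fun u => r * γ (b * u) ^ (r - 1) * (b * deriv γ (b * u))) ∧
    deriv (deriv (fun v => γ (b * v) ^ r)) = fun u =>
      r * γ (b * u) ^ (r - 1) * (b ^ 2 * deriv (deriv γ) (b * u)) +
      r * (r - 1) * γ (b * u) ^ (r - 2) * (b * deriv γ (b * u)) ^ 2 := by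
  have hne : ∀ u, γ (b * u) ≠ 0 := fun u => by
    have := h1 (b * u)
    linarith
  have e1 : deriv (fun v => γ (b * v) ^ r) =
      (fun u => r * γ (b * u) ^ (r - 1) * (b * deriv γ (b * u))) := by
    funext u
    have h := (der1 hc b u).rpow_const (p := r) (Or.inl (hne u))
    rw [h.deriv]
    ring
  refine ⟨e1, ?_⟩
  rw [e1]
  funext u
  have h := (der1 hc b u).rpow_const (p := r - 1) (Or.inl (hne u))
  have h2 := (h.const_mul r).mul (der2 hc b u)
  have h3 : deriv (fun u => r * γ (b * u) ^ (r - 1) * (b * deriv γ (b * u))) u = _ := h2.deriv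
  rw [h3]
  have e : r - 1 - 1 = r - 2 := by ring
  rw [e]
  ring

/-! ### linearity -/

lemma EQ_smul (s : SJ) (p k g g1 g2 : ℝ) :
    s.EQ p (k * g) (k * g1) (k * g2) = k * s.EQ p g g1 g2 := by
  unfold SJ.EQ
  ring

lemma EV_smul (s : SJ) (p k h h1 : ℝ) : s.EV p (k * h) (k * h1) = k * s.EV p h h1 := by
  unfold SJ.EV
  ring

lemma N_nonneg (s : SJ) : 0 ≤ s.N := Finset.sum_nonneg fun _ _ => sq_nonneg _

lemma Bs_nonneg (s : SJ) : 0 ≤ s.Bs :=
  Finset.sum_nonneg fun _ _ => Finset.sum_nonneg fun _ _ => sq_nonneg _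

/-! ### the factor `p/2 G^(p/2-1)` -/

lemma afac {p G : ℝ} (hp : 499 / 1000 ≤ p) (hp2 : p ≤ 1 / 2) (hG : 1 ≤ G) :
    p / 2 * G ^ (p / 2 - 1) ≤ 1 / 4 ∧ 499 / 2000 / G ≤ p / 2 * G ^ (p / 2 - 1) := by
  have h1 : G ^ (p / 2 - 1) ≤ 1 := Real.rpow_le_one_of_one_le_of_nonpos hG (by linarith)
  have h2 : G⁻¹ ≤ G ^ (p / 2 - 1) := by
    rw [← Real.rpow_neg_one]
    exact Real.rpow_le_rpow_of_exponent_le hG (by linarith)
  have h0 : 0 ≤ G⁻¹ := inv_nonneg.2 (by linarith)
  constructor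
  · nlinarith
  · calc 499 / 2000 / G = 499 / 2000 * G⁻¹ := by rw [div_eq_mul_inv]
      _ ≤ p / 2 * G⁻¹ := mul_le_mul_of_nonneg_right (by linarith) h0
      _ ≤ p / 2 * G ^ (p / 2 - 1) := mul_le_mul_of_nonneg_left h2 (by linarith)

/-! ### the three cases -/

/-- the abstract inequality of the near case -/
lemma near_ineq {q N Bs δ a br EP EQ EV sg K C1 C2 : ℝ} (hq : 0 ≤ q) (hN : 0 ≤ N) (hBs : 0 ≤ Bs)
    (hδ : 0 ≤ δ) (ha1 : a ≤ 1 / 4) (ha2 : 19 / 100 ≤ a) (hbr : q - 3 * δ * N ≤ br)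
    (hEP : a * br ≤ EP) (hEQ : 1 / 400 * Bs - C1 * q ≤ EQ)
    (hEV : 1 / 50 * N - C2 * δ * N - C2 * Bs ≤ EV) (hsg : 0 ≤ sg) (hK : 0 ≤ K)
    (hKC : 400 * C2 ≤ K) (h1 : sg * K * C1 ≤ 19 / 100)
    (h2 : δ * (1 + sg * C2) ≤ sg / 50) : 0 ≤ EP + sg * K * EQ + sg * EV := by
  have e1 : a * (q - 3 * δ * N) ≤ a * br := mul_le_mul_of_nonneg_left hbr (by linarith)
  have e2 : 19 / 100 * q ≤ a * q := mul_le_mul_of_nonneg_right ha2 hq
  have hδN : 0 ≤ δ * N := mul_nonneg hδ hN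
  have e3 : a * (3 * (δ * N)) ≤ 1 / 4 * (3 * (δ * N)) :=
    mul_le_mul_of_nonneg_right ha1 (by linarith)
  have e4 : sg * K * (1 / 400 * Bs - C1 * q) ≤ sg * K * EQ :=
    mul_le_mul_of_nonneg_left hEQ (mul_nonneg hsg hK)
  have e5 : sg * (1 / 50 * N - C2 * δ * N - C2 * Bs) ≤ sg * EV :=
    mul_le_mul_of_nonneg_left hEV hsg
  have e6 : sg * K * C1 * q ≤ 19 / 100 * q := mul_le_mul_of_nonneg_right h1 hq
  have e7 : δ * (1 + sg * C2) * N ≤ sg / 50 * N := mul_le_mul_of_nonneg_right h2 hN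
  have e8 : sg * Bs * (400 * C2) ≤ sg * Bs * K :=
    mul_le_mul_of_nonneg_left hKC (mul_nonneg hsg hBs)
  nlinarith

/-- the abstract inequality of the middle case -/
lemma mid_ineq {ξ D a br EP EQ EV sg K C3 C4 : ℝ} (hξ : 2000 ≤ ξ) (hD : 0 ≤ D)
    (ha2 : 15 / 100 ≤ a) (hbr : 1 / 1000000 * (ξ + D) ≤ br)
    (hEP : a * br ≤ EP) (hEQ : |EQ| ≤ C3 * (1 + D)) (hEV : |EV| ≤ C4 * (1 + D))
    (hsg : 0 ≤ sg) (hK : 0 ≤ K) (h1 : sg * (K * C3 + C4) ≤ 1 / 10000000) :
    0 ≤ EP + sg * K * EQ + sg * EV := by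
  have hbr0 : 0 ≤ br := le_trans (by linarith) hbr
  have e1 : 15 / 100 * br ≤ a * br := mul_le_mul_of_nonneg_right ha2 hbr0
  have e2 : sg * K * (-(C3 * (1 + D))) ≤ sg * K * EQ :=
    mul_le_mul_of_nonneg_left (by linarith [neg_abs_le EQ]) (mul_nonneg hsg hK)
  have e3 : sg * (-(C4 * (1 + D))) ≤ sg * EV :=
    mul_le_mul_of_nonneg_left (by linarith [neg_abs_le EV]) hsg
  have e4 : sg * (K * C3 + C4) * (1 + D) ≤ 1 / 10000000 * (1 + D) :=
    mul_le_mul_of_nonneg_right h1 (by linarith)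
  nlinarith

end CertExX

open CertExX in
/-- [CertEx] -/
theorem pr_CertEx (h1 : S_Gam) (h2 : S_Cut) (h3 : S_EPid) (h4 : S_BrNear) (h5 : S_BrFar)
    (h6 : S_EQnear) (h7 : S_EQcrude) (h8 : S_EVnear) (h9 : S_EVcrude) : S_CertEx := by
  obtain ⟨γ, hγ⟩ := h1
  obtain ⟨c, K0, hc, hc2, hc3, hcK⟩ := h2
  obtain ⟨C1', hC1'⟩ := h6
  obtain ⟨C3, hC3⟩ := h7 K0
  obtain ⟨C2', hC2'⟩ := h8
  obtain ⟨C4, hC4⟩ := h9 K0
  have hK0 : 0 ≤ K0 := (abs_nonneg _).trans (hcK 0).1
  set C1 := max C1' 1 with hC1d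
  set C2 := max C2' 1 with hC2d
  have hC1 : 1 ≤ C1 := le_max_right _ _
  have hC2 : 1 ≤ C2 := le_max_right _ _
  set K := 400 * C2 with hKd
  have hK : 0 < K := by linarith
  set T := K * |C3| + |C4| + 1 with hTd
  have hT : 0 < T := by positivity
  set sg := min (19 / 100 / (K * C1)) (1 / 10000000 / T) with hsgd
  have hKC1 : 0 < K * C1 := by positivity
  have hsg : 0 < sg := lt_min (by positivity) (by positivity)
  have hsg1 : sg * K * C1 ≤ 19 / 100 := by
    have : sg ≤ 19 / 100 / (K * C1) := min_le_left _ _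
    rw [le_div_iff₀ hKC1] at this
    linarith
  have hsg2 : sg * (K * C3 + C4) ≤ 1 / 10000000 := by
    have : sg ≤ 1 / 10000000 / T := min_le_right _ _
    rw [le_div_iff₀ hT] at this
    have h : K * C3 + C4 ≤ T := by
      have := mul_le_mul_of_nonneg_left (le_abs_self C3) hK.le
      linarith [le_abs_self C4]
    linarith [mul_le_mul_of_nonneg_left h hsg.le]
  set δ0 := min (1 / 1000) (sg / 50 / (1 + sg * C2)) with hδ0
  have hden : 0 < 1 + sg * C2 := by positivity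
  have hδ0p : 0 < δ0 := lt_min (by norm_num) (by positivity)
  have hδ01 : δ0 ≤ 1 / 1000 := min_le_left _ _
  have hδ02 : δ0 * (1 + sg * C2) ≤ sg / 50 := by
    have : δ0 ≤ sg / 50 / (1 + sg * C2) := min_le_right _ _
    rwa [le_div_iff₀ hden] at this
  refine ⟨1 / 2 - δ0, by linarith, by linarith, ?_⟩
  intro p hp1 hp2
  have hp : 499 / 1000 ≤ p := by linarith
  have hp' : p ≤ 1 / 2 := hp2.le
  set b : ℝ := 1 / 1000 with hb
  refine ⟨fun v => γ (b * v) ^ (p / 2), fun v => sg * K * c (b * v), fun v => sg * c (b * v), ?_⟩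
  have hlin : ContDiff ℝ 2 (fun v : ℝ => b * v) := contDiff_const.mul contDiff_id
  obtain ⟨dφ1, dφ2⟩ := derp hγ.c hγ.ge b (p / 2)
  obtain ⟨dψ1, dψ2⟩ := derc hc b (sg * K)
  obtain ⟨dχ1, -⟩ := derc hc b sg
  refine ⟨?_, ?_, ?_, ?_, ?_, ?_, ?_⟩
  · exact (hγ.c.comp hlin).rpow_const_of_ne fun u => by
      have := hγ.ge (b * u)
      show γ (b * u) ≠ 0
      linarith
  · exact contDiff_const.mul (hc.comp hlin)
  · exact contDiff_const.mul (hc.comp hlin)
  · intro u hu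
    show γ (b * u) ^ (p / 2) = 1
    rw [hγ.one (b * u) (by rw [hb]; linarith), Real.one_rpow]
  · refine ⟨sg * K, fun u hu => ?_⟩
    show sg * K * c (b * u) = sg * K
    rw [hc2 (b * u) (by rw [hb]; linarith), mul_one]
  · refine ⟨sg, fun u hu => ?_⟩
    show sg * c (b * u) = sg
    rw [hc2 (b * u) (by rw [hb]; linarith), mul_one]
  · intro s hs
    rw [dφ2, dφ1, dψ2, dψ1, dχ1]
    simp only []
    have hN := N_nonneg s
    have hq := hs.q0
    have hBs := Bs_nonneg s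
    have hξ0 : 0 ≤ s.ξ := by
      have : s.q = s.ξ - 3 / 2 * s.N := rfl
      linarith
    set u := b * s.ξ with hu
    have hu0 : 0 ≤ u := mul_nonneg (by rw [hb]; norm_num) hξ0
    have hG1 := hγ.ge u
    have hd0 := hγ.d0 u
    have hd1 := hγ.d1 u
    have hdd := hγ.dd u
    have hh0 := hγ.h0 u hu0
    have hh1 := hγ.h1 u hu0
    have hGpos : 0 < γ u := by linarith
    rw [h3 s p b (γ u) (deriv γ u) (deriv (deriv γ) u) hGpos, EQ_smul, EV_smul]
    obtain ⟨ha1, ha2⟩ := afac hp hp' hG1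
    set a := p / 2 * γ u ^ (p / 2 - 1) with had
    have ha0 : 0 ≤ a := le_trans (by positivity) ha2
    have hx1 : 0 ≤ ∑ k, s.x1 k ^ 2 := Finset.sum_nonneg fun _ _ => sq_nonneg _
    have hEP : a * s.br p b (γ u) (deriv γ u) ≤
        a * (s.br p b (γ u) (deriv γ u) + b ^ 2 * deriv (deriv γ) u * ∑ k, s.x1 k ^ 2) := by
      apply mul_le_mul_of_nonneg_left _ ha0
      have : 0 ≤ b ^ 2 * deriv (deriv γ) u * ∑ k, s.x1 k ^ 2 :=
        mul_nonneg (mul_nonneg (sq_nonneg _) hdd) hx1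
      linarith
    have hub : u * deriv γ u ≤ u * (1 / 8) := mul_le_mul_of_nonneg_left hd1 hu0
    rcases le_total s.ξ 2000 with hcase | hcase
    · -- near case
      have hu2 : u ≤ 2 := by rw [hu, hb]; linarith
      have hG54 : γ u ≤ 5 / 4 := by linarith
      have ha3 : 19 / 100 ≤ a := by
        refine le_trans ?_ ha2
        rw [le_div_iff₀ hGpos]
        linarith
      rw [hc2 u hu2, (const_left hc hc2 u hu2).1, (const_left hc hc2 u hu2).2, mul_zero, mul_zero]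
      have hbr := h4 s hs p (γ u) (deriv γ u) hp hp' hcase hG1 hd0 hd1 (by rw [← hb, ← hu]; exact hh0)
        (by rw [← hb, ← hu]; exact hh1) (fun hξ => by
          have hu1 : u ≤ 1 := by rw [hu, hb]; linarith
          exact (const_left hγ.c hγ.one u hu1).1)
      have e1 := hC1' p s (by linarith) hp' hs (by linarith)
      have e2 := hC2' p s (by linarith) hp' hs hcase
      have hδ : 0 ≤ 1 / 2 - p := by linarith
      refine near_ineq (C1 := C1) (C2 := C2) hq hN hBs hδ ha1 ha3 hbr hEP ?_ ?_ hsg.le hK.le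
        le_rfl hsg1 ?_
      · have : C1' * s.q ≤ C1 * s.q := mul_le_mul_of_nonneg_right (le_max_left _ _) hq
        linarith
      · have f1 : C2' * s.Bs ≤ C2 * s.Bs := mul_le_mul_of_nonneg_right (le_max_left _ _) hBs
        have f2 : C2' * ((1 / 2 - p) * s.N) ≤ C2 * ((1 / 2 - p) * s.N) :=
          mul_le_mul_of_nonneg_right (le_max_left _ _) (mul_nonneg hδ hN)
        linarith
      · have : 1 / 2 - p ≤ δ0 := by linarith
        exact (mul_le_mul_of_nonneg_right this hden.le).trans hδ02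
    · have hbr := h5 s hs p (γ u) (deriv γ u) hp hp' hcase hG1
        (hγ.far u (by rw [hu, hb]; linarith)) hd1 (by rw [← hb, ← hu]; exact hh0)
        (by rw [← hb, ← hu]; exact hh1)
      rcases le_total s.ξ 3000 with hcase2 | hcase2
      · -- middle case
        have hu3 : u ≤ 3 := by rw [hu, hb]; linarith
        have hG54 : γ u ≤ 11 / 8 := by linarith
        have ha3 : 15 / 100 ≤ a := by
          refine le_trans ?_ ha2
          rw [le_div_iff₀ hGpos]
          linarith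
        have hb1 : |b| ≤ 1 := by rw [hb]; norm_num [abs_of_pos]
        have hb2 : |b ^ 2| ≤ 1 := by rw [hb]; norm_num [abs_of_pos]
        have g1 : |b * deriv c u| ≤ K0 := by
          rw [abs_mul]
          calc |b| * |deriv c u| ≤ 1 * K0 :=
                mul_le_mul hb1 (hcK u).2.1 (abs_nonneg _) zero_le_one
            _ = K0 := one_mul _
        have g2 : |b ^ 2 * deriv (deriv c) u| ≤ K0 := by
          rw [abs_mul]
          calc |b ^ 2| * |deriv (deriv c) u| ≤ 1 * K0 :=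
                mul_le_mul hb2 (hcK u).2.2 (abs_nonneg _) zero_le_one
            _ = K0 := one_mul _
        exact mid_ineq hcase hs.D0 ha3 hbr hEP
          (hC3 p _ _ _ s (by linarith) hp' (hcK u).1 g1 g2 hs hcase2)
          (hC4 p _ _ s (by linarith) hp' (hcK u).1 g1 hs hcase2) hsg.le hK.le hsg2
      · -- far case
        have hu3 : 3 ≤ u := by rw [hu, hb]; linarith
        rw [hc3 u hu3, (const_right hc hc3 u hu3).1, (const_right hc hc3 u hu3).2]
        have hz1 : s.EQ p 0 (b * 0) (b ^ 2 * 0) = 0 := by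
          unfold SJ.EQ
          ring
        have hz2 : s.EV p 0 (b * 0) = 0 := by
          unfold SJ.EV
          ring
        rw [hz1, hz2, mul_zero, mul_zero, add_zero, add_zero]
        refine le_trans (mul_nonneg ha0 (le_trans ?_ hbr)) hEP
        have := hs.D0
        linarith

end Pool.Agent.Work.MP_440970_an.BH
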