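import Pool.Agent.Work.MP_440970_an.BH.Stmts

/-!
# Item EQcrude: the crude bound of `EQ`
-/

open MeasureTheory Set Filter Topology
open scoped ContDiff ENNReal

namespace Pool.Agent.Work.MP_440970_an.BH

namespace EQcrudeX

section
variable {ι : Type} {P : ι → Prop} {E : ι → ℝ}

/-- bounded functions -/
def Bd (P : ι → Prop) (X : ι → ℝ) : Prop := ∃ C, ∀ i, P i → |X i| ≤ C

/-- functions of order one half -/
def Hf (P : ι → Prop) (E : ι → ℝ) (X : ι → ℝ) : Prop := ∃ C, ∀ i, P i → X i ^ 2 ≤ C * E i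

/-- functions of order one -/
def Fl (P : ι → Prop) (E : ι → ℝ) (X : ι → ℝ) : Prop := ∃ C, ∀ i, P i → |X i| ≤ C * E i

theorem bd_const (c : ℝ) : Bd P (fun _ => c) := ⟨|c|, fun _ _ => le_rfl⟩

theorem Bd.add {X Y : ι → ℝ} (hX : Bd P X) (hY : Bd P Y) : Bd P (fun i => X i + Y i) := by
  obtain ⟨a, ha⟩ := hX
  obtain ⟨b, hb⟩ := hY
  exact ⟨a + b, fun i hi => (abs_add_le _ _).trans (add_le_add (ha i hi) (hb i hi))⟩

theorem Bd.neg {X : ι → ℝ} (hX : Bd P X) : Bd P (fun i => -X i) := by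
  obtain ⟨a, ha⟩ := hX
  exact ⟨a, fun i hi => by rw [abs_neg]; exact ha i hi⟩

theorem Bd.sub {X Y : ι → ℝ} (hX : Bd P X) (hY : Bd P Y) : Bd P (fun i => X i - Y i) := by
  simpa only [sub_eq_add_neg] using hX.add hY.neg

theorem Bd.mul {X Y : ι → ℝ} (hX : Bd P X) (hY : Bd P Y) : Bd P (fun i => X i * Y i) := by
  obtain ⟨a, ha⟩ := hX
  obtain ⟨b, hb⟩ := hY
  refine ⟨a * b, fun i hi => ?_⟩
  rw [abs_mul]
  exact mul_le_mul (ha i hi) (hb i hi) (abs_nonneg _) ((abs_nonneg _).trans (ha i hi))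

theorem Bd.hf (hE : ∀ i, P i → 1 ≤ E i) {X : ι → ℝ} (hX : Bd P X) : Hf P E X := by
  obtain ⟨a, ha⟩ := hX
  refine ⟨a ^ 2, fun i hi => ?_⟩
  have h1 : X i ^ 2 ≤ a ^ 2 := by
    rw [← sq_abs]
    exact pow_le_pow_left₀ (abs_nonneg _) (ha i hi) 2
  have h2 : a ^ 2 * 1 ≤ a ^ 2 * E i := mul_le_mul_of_nonneg_left (hE i hi) (sq_nonneg a)
  linarith

theorem Hf.add {X Y : ι → ℝ} (hX : Hf P E X) (hY : Hf P E Y) : Hf P E (fun i => X i + Y i) := by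
  obtain ⟨a, ha⟩ := hX
  obtain ⟨b, hb⟩ := hY
  refine ⟨2 * a + 2 * b, fun i hi => ?_⟩
  have h1 := ha i hi
  have h2 := hb i hi
  have h3 := sq_nonneg (X i - Y i)
  linarith

theorem Hf.neg {X : ι → ℝ} (hX : Hf P E X) : Hf P E (fun i => -X i) := by
  obtain ⟨a, ha⟩ := hX
  exact ⟨a, fun i hi => by rw [neg_sq]; exact ha i hi⟩

theorem Hf.sub {X Y : ι → ℝ} (hX : Hf P E X) (hY : Hf P E Y) : Hf P E (fun i => X i - Y i) := by
  simpa only [sub_eq_add_neg] using hX.add hY.neg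

theorem Bd.mulHf {X Y : ι → ℝ} (hX : Bd P X) (hY : Hf P E Y) : Hf P E (fun i => X i * Y i) := by
  obtain ⟨a, ha⟩ := hX
  obtain ⟨b, hb⟩ := hY
  refine ⟨a ^ 2 * b, fun i hi => ?_⟩
  have h1 : X i ^ 2 ≤ a ^ 2 := by
    rw [← sq_abs]
    exact pow_le_pow_left₀ (abs_nonneg _) (ha i hi) 2
  have h2 := mul_le_mul h1 (hb i hi) (sq_nonneg _) (sq_nonneg a)
  rw [mul_pow, mul_assoc]
  exact h2

theorem Hf.mul {X Y : ι → ℝ} (hX : Hf P E X) (hY : Hf P E Y) : Fl P E (fun i => X i * Y i) := by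
  obtain ⟨a, ha⟩ := hX
  obtain ⟨b, hb⟩ := hY
  refine ⟨(a + b) / 2, fun i hi => ?_⟩
  have h1 := ha i hi
  have h2 := hb i hi
  have h3 := sq_nonneg (X i - Y i)
  have h4 := sq_nonneg (X i + Y i)
  rw [abs_le]
  constructor <;> linarith

theorem Hf.fl (hE : ∀ i, P i → 1 ≤ E i) {X : ι → ℝ} (hX : Hf P E X) : Fl P E X := by
  have h := hX.mul ((bd_const (P := P) 1).hf hE)
  simpa only [mul_one] using h

theorem Bd.fl (hE : ∀ i, P i → 1 ≤ E i) {X : ι → ℝ} (hX : Bd P X) : Fl P E X := (hX.hf hE).fl hE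

theorem Fl.add {X Y : ι → ℝ} (hX : Fl P E X) (hY : Fl P E Y) : Fl P E (fun i => X i + Y i) := by
  obtain ⟨a, ha⟩ := hX
  obtain ⟨b, hb⟩ := hY
  refine ⟨a + b, fun i hi => (abs_add_le _ _).trans ?_⟩
  rw [add_mul]
  exact add_le_add (ha i hi) (hb i hi)

theorem Fl.neg {X : ι → ℝ} (hX : Fl P E X) : Fl P E (fun i => -X i) := by
  obtain ⟨a, ha⟩ := hX
  exact ⟨a, fun i hi => by rw [abs_neg]; exact ha i hi⟩

theorem Fl.sub {X Y : ι → ℝ} (hX : Fl P E X) (hY : Fl P E Y) : Fl P E (fun i => X i - Y i) := by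
  simpa only [sub_eq_add_neg] using hX.add hY.neg

theorem Bd.mulFl {X Y : ι → ℝ} (hX : Bd P X) (hY : Fl P E Y) : Fl P E (fun i => X i * Y i) := by
  obtain ⟨a, ha⟩ := hX
  obtain ⟨b, hb⟩ := hY
  refine ⟨a * b, fun i hi => ?_⟩
  rw [abs_mul, mul_assoc]
  exact mul_le_mul (ha i hi) (hb i hi) (abs_nonneg _) ((abs_nonneg _).trans (ha i hi))

theorem Fl.sum3 {X : Fin 3 → ι → ℝ} (hX : ∀ k, Fl P E (X k)) :
    Fl P E (fun i => ∑ k, X k i) := by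
  simp only [Fin.sum_univ_three]
  exact ((hX 0).add (hX 1)).add (hX 2)

theorem Hf.sum3 {X : Fin 3 → ι → ℝ} (hX : ∀ k, Hf P E (X k)) :
    Hf P E (fun i => ∑ k, X k i) := by
  simp only [Fin.sum_univ_three]
  exact ((hX 0).add (hX 1)).add (hX 2)

theorem Hf.sq {X : ι → ℝ} (hX : Hf P E X) : Fl P E (fun i => X i ^ 2) := by
  simpa only [pow_two] using hX.mul hX

end

/-- the parameters -/
structure Par where
  p : ℝ
  g : ℝ
  g1 : ℝ
  g2 : ℝ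
  s : SJ

/-- admissible parameters -/
def Ok (K : ℝ) (i : Par) : Prop :=
  0 ≤ i.p ∧ i.p ≤ 1 / 2 ∧ |i.g| ≤ K ∧ |i.g1| ≤ K ∧ |i.g2| ≤ K ∧ IsSJ i.s ∧ i.s.ξ ≤ 3000

theorem N_nonneg (s : SJ) : 0 ≤ s.N := Finset.sum_nonneg fun k _ => sq_nonneg _

theorem basic {K : ℝ} {i : Par} (h : Ok K i) : 0 ≤ i.s.ξ ∧ i.s.ξ ≤ 3000 ∧ i.s.N ≤ 2000 ∧
    0 ≤ i.s.q ∧ i.s.q ≤ 3000 := by
  obtain ⟨-, -, -, -, -, hs, hx⟩ := h
  have h1 := N_nonneg i.s
  have h2 := hs.q0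
  have h3 : i.s.q = i.s.ξ - 3 / 2 * i.s.N := rfl
  refine ⟨by linarith, hx, by linarith, h2, by linarith⟩

theorem eta_bd (K : ℝ) (k : Fin 3) : Bd (Ok K) (fun i => i.s.η k) := by
  refine ⟨2000, fun i hi => ?_⟩
  obtain ⟨-, -, h1, -, -⟩ := basic hi
  have h2 : i.s.η k ^ 2 ≤ i.s.N :=
    Finset.single_le_sum (f := fun k => i.s.η k ^ 2) (fun j _ => sq_nonneg _) (Finset.mem_univ k)
  rw [abs_le]
  constructor <;> nlinarith

theorem y_hf (K : ℝ) (k : Fin 3) : Hf (Ok K) (fun i => 1 + i.s.D) (fun i => i.s.y k) := by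
  refine ⟨7200, fun i hi => ?_⟩
  obtain ⟨h0, h1, -, -, -⟩ := basic hi
  have h2 : i.s.y k ^ 2 ≤ ∑ k, i.s.y k ^ 2 :=
    Finset.single_le_sum (f := fun k => i.s.y k ^ 2) (fun j _ => sq_nonneg _) (Finset.mem_univ k)
  have h3 := hi.2.2.2.2.2.1.ky
  have h4 := hi.2.2.2.2.2.1.D0
  have h5 : i.s.ξ * i.s.D ≤ 3000 * i.s.D := mul_le_mul_of_nonneg_right h1 h4
  linarith

theorem H_hf (K : ℝ) (k j : Fin 3) : Hf (Ok K) (fun i => 1 + i.s.D) (fun i => i.s.H k j) := by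
  refine ⟨10 ^ 11, fun i hi => ?_⟩
  obtain ⟨h0, h1, hN, hq0, hq⟩ := basic hi
  have hs := hi.2.2.2.2.2.1
  have hD := hs.D0
  have hN0 := N_nonneg i.s
  have hBs : 0 ≤ i.s.Bs := Finset.sum_nonneg fun k _ => Finset.sum_nonneg fun j _ => sq_nonneg _
  have hBB : 0 ≤ i.s.BB := by linarith [hs.kB]
  have hsum : i.s.H k j ^ 2 ≤ ∑ k, ∑ j, i.s.H k j ^ 2 := by
    refine le_trans ?_ (Finset.single_le_sum (f := fun k => ∑ j, i.s.H k j ^ 2)
      (fun k _ => Finset.sum_nonneg fun j _ => sq_nonneg _) (Finset.mem_univ k))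
    exact Finset.single_le_sum (f := fun j => i.s.H k j ^ 2) (fun j _ => sq_nonneg _)
      (Finset.mem_univ j)
  have hcross : -(9 * ∑ k, i.s.η k * i.s.He k) ≤ ∑ k, ∑ j, i.s.H k j ^ 2 + 21 * i.s.N ^ 2 := by
    have e1 : i.s.N ^ 2 = ∑ k, ∑ j, (i.s.η k * i.s.η j) ^ 2 := by
      unfold SJ.N
      simp only [Fin.sum_univ_three]
      ring
    have e2 : 9 * ∑ k, i.s.η k * i.s.He k = ∑ k, ∑ j, 9 * (i.s.H k j * (i.s.η k * i.s.η j)) := by
      unfold SJ.He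
      simp only [Fin.sum_univ_three]
      ring
    rw [e1, e2, Finset.mul_sum, ← Finset.sum_neg_distrib, ← Finset.sum_add_distrib]
    refine Finset.sum_le_sum fun a _ => ?_
    rw [Finset.mul_sum, ← Finset.sum_neg_distrib, ← Finset.sum_add_distrib]
    refine Finset.sum_le_sum fun b _ => ?_
    nlinarith [sq_nonneg (2 * i.s.H a b + 9 * (i.s.η a * i.s.η b)),
      sq_nonneg (i.s.η a * i.s.η b)]
  have hN2 : i.s.N ^ 2 ≤ 2000 ^ 2 := pow_le_pow_left₀ hN0 hN 2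
  have hNq : (i.s.N + i.s.q) * i.s.q ≤ 5000 * 3000 :=
    mul_le_mul (by linarith) hq hq0 (by norm_num)
  have hx2 : 0 ≤ i.s.ξ ^ 2 := sq_nonneg _
  unfold SJ.BB SJ.B0 at hBB
  have key : 2 * ∑ k, ∑ j, i.s.H k j ^ 2 ≤ 2 * i.s.D + 21 * 2000 ^ 2 + 1000 * (5000 * 3000) := by
    linarith
  linarith

end EQcrudeX

open EQcrudeX in
theorem pr_EQcrude : S_EQcrude := by
  intro K
  have hE : ∀ i : Par, Ok K i → 1 ≤ 1 + i.s.D := fun i hi => by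
    have := hi.2.2.2.2.2.1.D0
    linarith
  have hη := eta_bd K
  have hy := y_hf K
  have hH := H_hf K
  have hξ : Bd (Ok K) (fun i => i.s.ξ) := ⟨3000, fun i hi => by
    obtain ⟨h0, h1, -, -, -⟩ := basic hi
    rw [abs_of_nonneg h0]
    exact h1⟩
  have hN : Bd (Ok K) (fun i => i.s.N) := ⟨2000, fun i hi => by
    obtain ⟨-, -, h1, -, -⟩ := basic hi
    rw [abs_of_nonneg (N_nonneg _)]
    exact h1⟩
  have hq : Bd (Ok K) (fun i => i.s.q) := ⟨3000, fun i hi => by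
    obtain ⟨-, -, -, h0, h1⟩ := basic hi
    rw [abs_of_nonneg h0]
    exact h1⟩
  have hp : Bd (Ok K) (fun i => i.p) := ⟨1 / 2, fun i hi => by
    rw [abs_of_nonneg hi.1]
    exact hi.2.1⟩
  have hg : Bd (Ok K) (fun i => i.g) := ⟨K, fun i hi => hi.2.2.1⟩
  have hg1 : Bd (Ok K) (fun i => i.g1) := ⟨K, fun i hi => hi.2.2.2.1⟩
  have hg2 : Bd (Ok K) (fun i => i.g2) := ⟨K, fun i hi => hi.2.2.2.2.1⟩
  have hD : Fl (Ok K) (fun i => 1 + i.s.D) (fun i => i.s.D) := ⟨1, fun i hi => by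
    have h := hi.2.2.2.2.2.1.D0
    rw [abs_of_nonneg h]
    linarith⟩
  have hxp : ∀ k, Hf (Ok K) (fun i => 1 + i.s.D) (fun i => i.s.xp k) := fun k => by
    unfold SJ.xp
    exact (hy k).sub ((((bd_const 2).mul hξ).mul (hη k)).hf hE)
  have hHe : ∀ k, Hf (Ok K) (fun i => 1 + i.s.D) (fun i => i.s.He k) := fun k => by
    unfold SJ.He
    refine Hf.sum3 fun j => ?_
    simpa only [mul_comm] using (hη j).mulHf (hH k j)
  have hqp : ∀ k, Hf (Ok K) (fun i => 1 + i.s.D) (fun i => i.s.qp k) := fun k => by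
    unfold SJ.qp
    exact (hxp k).sub ((bd_const 3).mulHf (hHe k))
  have hx1 : ∀ k, Hf (Ok K) (fun i => 1 + i.s.D) (fun i => i.s.x1 k) := fun k => by
    unfold SJ.x1
    exact ((((bd_const 2).mul hξ).mul (bd_const _)).hf hE).add (hxp k)
  have hq1 : ∀ k, Hf (Ok K) (fun i => 1 + i.s.D) (fun i => i.s.q1 k) := fun k => by
    unfold SJ.q1
    exact ((((bd_const 2).mul hq).mul (bd_const _)).hf hE).add (hqp k)
  have hB0 : Fl (Ok K) (fun i => 1 + i.s.D) (fun i => i.s.B0) := by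
    unfold SJ.B0
    refine Fl.sub (Fl.sub (Fl.sub ((bd_const 2).mulFl hD) ?_) ?_) ?_
    · exact (bd_const 3).mulFl (Fl.sum3 fun k => Fl.sum3 fun j => (hH k j).sq)
    · exact (bd_const 9).mulFl (Fl.sum3 fun k => ((hη k).mulHf (hHe k)).fl hE)
    · exact (bd_const 2).mulFl ((hξ.hf hE).sq)
  have hLx : Fl (Ok K) (fun i => 1 + i.s.D) (fun i => i.s.Lx) := by
    unfold SJ.Lx
    refine Fl.sub (Fl.sub (Fl.add (Fl.add ?_ ?_) ((bd_const 2).mulFl hD)) ?_) ?_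
    · exact ((bd_const 2).mul hξ).fl hE
    · exact ((bd_const 4).mulHf (hxp 0)).fl hE
    · exact (bd_const 2).mulFl ((hξ.hf hE).sq)
    · exact (bd_const 4).mulFl (Fl.sum3 fun k => ((hη k).mulHf (hxp k)).fl hE)
  have hLq : Fl (Ok K) (fun i => 1 + i.s.D) (fun i => i.s.Lq) := by
    unfold SJ.Lq
    refine Fl.sub (Fl.add (Fl.add ?_ ?_) hB0) ?_
    · exact ((bd_const 2).mul hq).fl hE
    · exact ((bd_const 4).mulHf (hqp 0)).fl hE
    · exact (bd_const 7).mulFl (Fl.sum3 fun k => ((hη k).mulHf (hqp k)).fl hE)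
  have hEQ : Fl (Ok K) (fun i => 1 + i.s.D) (fun i => i.s.EQ i.p i.g i.g1 i.g2) := by
    unfold SJ.EQ
    refine Fl.add (Fl.add (Fl.add ?_ ?_) ?_) ?_
    · refine hg.mulFl (Fl.add (Fl.add ?_ ?_) hLq)
      · exact ((hp.mul (hq.sub (((bd_const (1 / 2)).sub hp).mul hN))).mul hq).fl hE
      · exact ((bd_const 2).mul hp).mulFl (Fl.sum3 fun k => ((hη k).mulHf (hq1 k)).fl hE)
    · exact ((((bd_const 2).mul hp).mul hq).mul hg1).mulFl
        (Fl.sum3 fun k => ((hη k).mulHf (hx1 k)).fl hE)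
    · exact ((bd_const 2).mul hg1).mulFl (Fl.sum3 fun k => (hq1 k).mul (hx1 k))
    · exact hq.mulFl (Fl.add (hg1.mulFl hLx) (hg2.mulFl (Fl.sum3 fun k => (hx1 k).sq)))
  obtain ⟨C, hC⟩ := hEQ
  exact ⟨C, fun p g g1 g2 s h1 h2 h3 h4 h5 h6 h7 =>
    hC ⟨p, g, g1, g2, s⟩ ⟨h1, h2, h3, h4, h5, h6, h7⟩⟩

end Pool.Agent.Work.MP_440970_an.BH
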