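import Pool.Agent.Work.MP_440970_an.BH.Stmts

/-! # MP_440970_an, module BH, item Jen -/

open MeasureTheory Set Filter Topology
open scoped ContDiff

namespace Pool.Agent.Work.MP_440970_an.BH

namespace JenX

/-- the vector `(0, 0, 1, 0)` -/
def e : Fin 4 → ℝ := ![0, 0, 1, 0]

theorem sum_e : ∑ α, e α ^ 2 = 1 := by
  simp [e, Fin.sum_univ_four]

theorem cont_cons : Continuous fun z : Fin 2 → ℝ => (Fin.cons (0 : ℝ) z : E3) := by
  refine continuous_pi fun i => ?_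
  refine Fin.cases ?_ (fun j => ?_) i
  · simpa using continuous_const
  · simpa using continuous_apply j

theorem cont_AA (F : Fin 4 → E3 → ℝ) (U : Set E3) (hF : Fld F U) (hU : ∀ x : E3, 0 ≤ x 0 → x ∈ U)
    (hpos : ∀ x ∈ U, 0 < AA F x) (p : ℝ) :
    Continuous fun z : Fin 2 → ℝ => AA F (Fin.cons 0 z) ^ (p / 2) := by
  have hA : ContinuousOn (AA F) U := by
    have : (AA F) = fun x => ∑ α, F α x ^ 2 := rfl
    rw [this]
    exact continuousOn_finsetSum _ fun α _ => ((hF.smooth α).continuousOn).pow 2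
  have hmem : ∀ z : Fin 2 → ℝ, (Fin.cons (0 : ℝ) z : E3) ∈ U := fun z => hU _ (by simp)
  have h1 : Continuous fun z : Fin 2 → ℝ => AA F (Fin.cons 0 z) :=
    hA.comp_continuous cont_cons hmem
  exact h1.rpow_const fun z => Or.inl (hpos _ (hmem z)).ne'

end JenX

open JenX

theorem pr_Jen (h1 : S_Flux) (h2 : S_GFfld) (h3 : S_Sft) (h4 : S_GFfar) (h5 : S_Dense)
    (h6 : S_Lim) : S_Jen := by
  intro n a c p hp0 hp1 ⟨φ, ψ, χ, hC⟩ hsum
  obtain ⟨C0, R0, hfar⟩ := h4 n a c hsum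
  obtain ⟨C', R', hR', hflux⟩ := h1 p φ ψ χ hp0 hp1 hC C0 R0
  refine ⟨C', R', hR', fun L hL => ?_⟩
  have hLpos : 0 < L := lt_of_lt_of_le hR' hL
  have hex : ∀ m : ℕ, ∃ v' : Fin 4 → ℝ, (∀ α, |v' α - e α| < 1 / ((m : ℝ) + 4)) ∧
      ∀ x : E3, 0 < x 0 → 0 < AA (GF a c v') x := fun m =>
    h5 n a c e (1 / ((m : ℝ) + 4)) (by positivity)
  choose v hv hvpos using hex
  have hτpos : ∀ m : ℕ, 0 < 1 / ((m : ℝ) + 1) := fun m => by positivity
  have hτ1 : ∀ m : ℕ, 1 / ((m : ℝ) + 1) ≤ 1 := fun m => by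
    rw [div_le_one (by positivity)]
    have : (0 : ℝ) ≤ m := Nat.cast_nonneg m
    linarith
  have hτ0 : Tendsto (fun m : ℕ => 1 / ((m : ℝ) + 1)) atTop (𝓝 0) :=
    tendsto_one_div_add_atTop_nhds_zero_nat
  have hε0 : Tendsto (fun m : ℕ => 1 / ((m : ℝ) + 4)) atTop (𝓝 0) := by
    have := (tendsto_add_atTop_iff_nat 4).2 (tendsto_one_div_atTop_nhds_zero_nat (𝕜 := ℝ))
    refine this.congr fun m => ?_
    push_cast
    rfl
  have hvlim : Tendsto v atTop (𝓝 e) := by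
    rw [tendsto_pi_nhds]
    intro α
    rw [tendsto_iff_norm_sub_tendsto_zero]
    refine squeeze_zero (fun m => norm_nonneg _) (fun m => ?_) hε0
    rw [Real.norm_eq_abs]
    exact (hv m α).le
  obtain ⟨hint, hlim⟩ := h6 n a c p hp0 hp1 L v e (fun m : ℕ => 1 / ((m : ℝ) + 1)) hτpos hτ0 hvlim
  have hv2lim : Tendsto (fun m => ∑ α, v m α ^ 2) atTop (𝓝 (∑ α, e α ^ 2)) :=
    tendsto_finsetSum _ fun α _ => ((tendsto_pi_nhds.1 hvlim) α).pow 2
  rw [sum_e] at hv2lim
  have hcl : Tendsto (fun m => (∑ α, v m α ^ 2) ^ (p / 2)) atTop (𝓝 1) := by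
    have := hv2lim.rpow_const (p := p / 2) (Or.inl one_ne_zero)
    rwa [Real.one_rpow] at this
  set S : Set (Fin 2 → ℝ) := Icc (fun _ : Fin 2 => -L) (fun _ => L) with hS
  have hSfin : volume S ≠ ⊤ := (isCompact_Icc.measure_lt_top).ne
  have hest : ∀ m : ℕ, -(C' / L) ≤
      (∫ z in S, AA (GF a c (v m)) (sft (1 / ((m : ℝ) + 1)) (Fin.cons 0 z)) ^ (p / 2)) -
        (volume S).toReal * (∑ α, v m α ^ 2) ^ (p / 2) := by
    intro m
    set τ : ℝ := 1 / ((m : ℝ) + 1) with hτ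
    have hfld : Fld (fun α x => GF a c (v m) α (sft τ x)) {x | -τ < x 0} :=
      h3 _ τ (h2 n a c (v m))
    have hU : ∀ x : E3, 0 ≤ x 0 → x ∈ {x : E3 | -τ < x 0} := fun x hx => by
      have := hτpos m
      simp only [Set.mem_ofPred_eq]
      linarith
    have hpos : ∀ x ∈ {x : E3 | -τ < x 0},
        0 < AA (fun α x => GF a c (v m) α (sft τ x)) x := by
      intro x hx
      have : 0 < (sft τ x) 0 := by
        simp only [Set.mem_ofPred_eq] at hx
        simp only [sft, e0, if_true, mul_one]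
        linarith
      exact hvpos m _ this
    have hab : ∀ α, |v m α - e α| < 1 / 4 := fun α => by
      refine lt_of_lt_of_le (hv m α) ?_
      have : (0 : ℝ) ≤ m := Nat.cast_nonneg m
      exact one_div_le_one_div_of_le (by norm_num) (by linarith)
    have b0 := abs_lt.1 (hab 0)
    have b1 := abs_lt.1 (hab 1)
    have b2 := abs_lt.1 (hab 2)
    have b3 := abs_lt.1 (hab 3)
    have e00 : e 0 = 0 := rfl
    have e01 : e 1 = 0 := rfl
    have e02 : e 2 = 1 := rfl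
    have e03 : e 3 = 0 := rfl
    rw [e00] at b0
    rw [e01] at b1
    rw [e02] at b2
    rw [e03] at b3
    have hlo : 1 / 4 ≤ ∑ α, v m α ^ 2 := by
      rw [Fin.sum_univ_four]
      nlinarith [sq_nonneg (v m 0), sq_nonneg (v m 1), sq_nonneg (v m 3)]
    have hhi : ∑ α, v m α ^ 2 ≤ 4 := by
      rw [Fin.sum_univ_four]
      nlinarith
    have hfx := hflux _ _ (v m) hfld hU hpos (hfar (v m) τ (hτpos m) (hτ1 m)) hlo hhi L hL
    have hcont := cont_AA _ _ hfld hU hpos p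
    have hInt : IntegrableOn (fun z : Fin 2 → ℝ =>
        AA (fun α x => GF a c (v m) α (sft τ x)) (Fin.cons 0 z) ^ (p / 2)) S :=
      hcont.continuousOn.integrableOn_compact isCompact_Icc
    rw [integral_sub hInt (integrableOn_const hSfin)] at hfx
    rw [setIntegral_const, smul_eq_mul] at hfx
    exact hfx
  have hlim2 : Tendsto (fun m : ℕ =>
      (∫ z in S, AA (GF a c (v m)) (sft (1 / ((m : ℝ) + 1)) (Fin.cons 0 z)) ^ (p / 2)) -
        (volume S).toReal * (∑ α, v m α ^ 2) ^ (p / 2)) atTop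
      (𝓝 ((∫ z in S, AA (GF a c e) (Fin.cons 0 z) ^ (p / 2)) - (volume S).toReal * 1)) :=
    hlim.sub (hcl.const_mul _)
  refine ⟨hint, ?_⟩
  have hfin := ge_of_tendsto hlim2 (Eventually.of_forall hest)
  have hEq : ∫ z in S, (AA (GF a c ![0, 0, 1, 0]) (Fin.cons 0 z) ^ (p / 2) - 1) =
      (∫ z in S, AA (GF a c e) (Fin.cons 0 z) ^ (p / 2)) - (volume S).toReal * 1 := by
    change ∫ z in S, (AA (GF a c e) (Fin.cons 0 z) ^ (p / 2) - 1) = _
    rw [integral_sub hint (integrableOn_const hSfin)]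
    rw [setIntegral_const, smul_eq_mul]
    rfl
  rw [hEq]
  exact hfin

end Pool.Agent.Work.MP_440970_an.BH
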