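import Pool.Agent.Work.MP_440970_an.BH.Stmts

set_option autoImplicit false

/-!
# Item JetK: the gradient of `|∇F|²`
-/

open MeasureTheory Set Filter Topology
open scoped ContDiff ENNReal

namespace Pool.Agent.Work.MP_440970_an.BH

namespace JetKX

/-- Kato inequality, real part. -/
theorem kato0 {V : Fin 3 → Fin 4 → ℝ} (hV : Dir V) :
    3 * ∑ j, V j 0 ^ 2 ≤ 2 * ∑ j, ∑ a, V j a ^ 2 := by
  obtain ⟨h1, h2, h3, h4⟩ := hV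
  simp only [Fin.sum_univ_three, Fin.sum_univ_four]
  have e1 : V 0 1 = -V 1 2 - V 2 3 := by linarith
  have e2 : V 0 0 = V 2 2 - V 1 3 := by linarith
  have e3 : V 1 0 = V 0 3 - V 2 1 := by linarith
  have e4 : V 2 0 = V 1 1 - V 0 2 := by linarith
  rw [e1, e2, e3, e4]
  have key : 2 * ((V 2 2 - V 1 3) ^ 2 + (-V 1 2 - V 2 3) ^ 2 + V 0 2 ^ 2 + V 0 3 ^ 2 +
      ((V 0 3 - V 2 1) ^ 2 + V 1 1 ^ 2 + V 1 2 ^ 2 + V 1 3 ^ 2) +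
      ((V 1 1 - V 0 2) ^ 2 + V 2 1 ^ 2 + V 2 2 ^ 2 + V 2 3 ^ 2)) -
      3 * ((V 2 2 - V 1 3) ^ 2 + (V 0 3 - V 2 1) ^ 2 + (V 1 1 - V 0 2) ^ 2) =
      2 * ((V 1 2 + V 2 3) ^ 2 + V 1 2 ^ 2 + V 2 3 ^ 2) + (V 0 2 + V 1 1) ^ 2 +
        (V 0 3 + V 2 1) ^ 2 + (V 1 3 + V 2 2) ^ 2 := by ring
  have h5 : 0 ≤ 2 * ((V 1 2 + V 2 3) ^ 2 + V 1 2 ^ 2 + V 2 3 ^ 2) + (V 0 2 + V 1 1) ^ 2 +
        (V 0 3 + V 2 1) ^ 2 + (V 1 3 + V 2 2) ^ 2 := by positivity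
  linarith

/-- the product with the conjugate of `W` -/
def mc (V : Fin 3 → Fin 4 → ℝ) (W : Fin 4 → ℝ) (j : Fin 3) : Fin 4 → ℝ :=
  ![V j 0 * W 0 + V j 1 * W 1 + V j 2 * W 2 + V j 3 * W 3,
    -V j 0 * W 1 + V j 1 * W 0 - V j 2 * W 3 + V j 3 * W 2,
    -V j 0 * W 2 + V j 1 * W 3 + V j 2 * W 0 - V j 3 * W 1,
    -V j 0 * W 3 - V j 1 * W 2 + V j 2 * W 1 + V j 3 * W 0]

theorem mc0 (V : Fin 3 → Fin 4 → ℝ) (W : Fin 4 → ℝ) (j : Fin 3) :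
    mc V W j 0 = V j 0 * W 0 + V j 1 * W 1 + V j 2 * W 2 + V j 3 * W 3 := rfl
theorem mc1 (V : Fin 3 → Fin 4 → ℝ) (W : Fin 4 → ℝ) (j : Fin 3) :
    mc V W j 1 = -V j 0 * W 1 + V j 1 * W 0 - V j 2 * W 3 + V j 3 * W 2 := rfl
theorem mc2 (V : Fin 3 → Fin 4 → ℝ) (W : Fin 4 → ℝ) (j : Fin 3) :
    mc V W j 2 = -V j 0 * W 2 + V j 1 * W 3 + V j 2 * W 0 - V j 3 * W 1 := rfl
theorem mc3 (V : Fin 3 → Fin 4 → ℝ) (W : Fin 4 → ℝ) (j : Fin 3) :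
    mc V W j 3 = -V j 0 * W 3 - V j 1 * W 2 + V j 2 * W 1 + V j 3 * W 0 := rfl

theorem dir_mc {V : Fin 3 → Fin 4 → ℝ} (hV : Dir V) (W : Fin 4 → ℝ) : Dir (mc V W) := by
  obtain ⟨h1, h2, h3, h4⟩ := hV
  constructor <;> simp only [mc0, mc1, mc2, mc3]
  · linear_combination W 0 * h1 - W 1 * h2 - W 2 * h3 - W 3 * h4
  · linear_combination W 1 * h1 + W 0 * h2 - W 3 * h3 + W 2 * h4
  · linear_combination W 2 * h1 + W 3 * h2 + W 0 * h3 - W 1 * h4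
  · linear_combination W 3 * h1 - W 2 * h2 + W 1 * h3 + W 0 * h4

theorem kato1 {V : Fin 3 → Fin 4 → ℝ} (hV : Dir V) (W : Fin 4 → ℝ) :
    3 * ∑ j, (∑ a, W a * V j a) ^ 2 ≤ 2 * (∑ a, W a ^ 2) * ∑ j, ∑ a, V j a ^ 2 := by
  have h := kato0 (dir_mc hV W)
  have h1 : ∀ j, mc V W j 0 = ∑ a, W a * V j a := by
    intro j
    rw [mc0, Fin.sum_univ_four]
    ring
  have h2 : ∀ j, ∑ a, mc V W j a ^ 2 = (∑ a, W a ^ 2) * ∑ a, V j a ^ 2 := by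
    intro j
    simp only [Fin.sum_univ_four, mc0, mc1, mc2, mc3]
    ring
  simp_rw [h1, h2] at h
  rw [← Finset.mul_sum] at h
  linarith

theorem kato2 {V : Fin 3 → Fin 4 → ℝ} (hV : Dir V) (n : Fin 3 → ℝ) :
    3 * ∑ a, (∑ j, n j * V j a) ^ 2 ≤ 2 * (∑ j, n j ^ 2) * ∑ j, ∑ a, V j a ^ 2 := by
  set W : Fin 4 → ℝ := fun a => ∑ j, n j * V j a with hW
  set w : ℝ := ∑ a, W a ^ 2 with hw
  have h1 := kato1 hV W
  have h2 : w = ∑ j, n j * ∑ a, W a * V j a := by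
    rw [hw]
    simp_rw [Finset.mul_sum]
    rw [Finset.sum_comm]
    refine Finset.sum_congr rfl fun a _ => ?_
    rw [pow_two]
    conv_lhs => rw [hW]
    rw [Finset.sum_mul]
    refine Finset.sum_congr rfl fun j _ => ?_
    show n j * V j a * W a = n j * (W a * V j a)
    ring
  have h3 : w ^ 2 ≤ (∑ j, n j ^ 2) * ∑ j, (∑ a, W a * V j a) ^ 2 := by
    rw [h2]
    exact Finset.sum_mul_sq_le_sq_mul_sq _ _ _
  have hw0 : 0 ≤ w := Finset.sum_nonneg fun a _ => sq_nonneg _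
  have hn0 : 0 ≤ ∑ j, n j ^ 2 := Finset.sum_nonneg fun a _ => sq_nonneg _
  have hV0 : 0 ≤ ∑ j, ∑ a, V j a ^ 2 :=
    Finset.sum_nonneg fun j _ => Finset.sum_nonneg fun a _ => sq_nonneg _
  rw [← hw] at h1
  show 3 * w ≤ _
  rcases hw0.eq_or_lt with h0 | h0
  · rw [← h0]
    have := mul_nonneg hn0 hV0
    linarith
  · have h4 := mul_le_mul_of_nonneg_left h1 hn0
    have h5 : w * (3 * w) ≤ w * (2 * (∑ j, n j ^ 2) * ∑ j, ∑ a, V j a ^ 2) := by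
      nlinarith [h3, h4]
    exact le_of_mul_le_mul_left h5 h0

theorem k1 (m00 m01 m02 m11 m12 n0 n1 n2 : ℝ) (hn : 0 < n0 ^ 2 + n1 ^ 2 + n2 ^ 2) :
    0 ≤ (n0 ^ 2 + n1 ^ 2 + n2 ^ 2) ^ 2 *
        (m00 ^ 2 + m11 ^ 2 + (-m00 - m11) ^ 2 + 2 * (m01 ^ 2 + m02 ^ 2 + m12 ^ 2))
     - 2 * (n0 ^ 2 + n1 ^ 2 + n2 ^ 2) * ((n0 * m00 + n1 * m01 + n2 * m02) ^ 2 +
        (n0 * m01 + n1 * m11 + n2 * m12) ^ 2 + (n0 * m02 + n1 * m12 + n2 * (-m00 - m11)) ^ 2)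
     + (n0 * (n0 * m00 + n1 * m01 + n2 * m02) +
        n1 * (n0 * m01 + n1 * m11 + n2 * m12) +
        n2 * (n0 * m02 + n1 * m12 + n2 * (-m00 - m11))) ^ 2 / 2 := by
  set nu := n0 ^ 2 + n1 ^ 2 + n2 ^ 2 with hnu
  set v0 := n0 * m00 + n1 * m01 + n2 * m02 with h0
  set v1 := n0 * m01 + n1 * m11 + n2 * m12 with h1
  set v2 := n0 * m02 + n1 * m12 + n2 * (-m00 - m11) with h2
  set ta := n0 * v0 + n1 * v1 + n2 * v2 with hta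
  have key : nu ^ 2 * (nu ^ 2 *
      (m00 ^ 2 + m11 ^ 2 + (-m00 - m11) ^ 2 + 2 * (m01 ^ 2 + m02 ^ 2 + m12 ^ 2))
     - 2 * nu * (v0 ^ 2 + v1 ^ 2 + v2 ^ 2) + ta ^ 2 / 2) =
     (nu ^ 2 * m00 - 2 * nu * n0 * v0 + (n0 ^ 2 * ta + nu * ta) / 2) ^ 2 +
     (nu ^ 2 * m11 - 2 * nu * n1 * v1 + (n1 ^ 2 * ta + nu * ta) / 2) ^ 2 +
     (nu ^ 2 * (-m00 - m11) - 2 * nu * n2 * v2 + (n2 ^ 2 * ta + nu * ta) / 2) ^ 2 +
     2 * ((nu ^ 2 * m01 - nu * (n0 * v1 + n1 * v0) + n0 * n1 * ta / 2) ^ 2 +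
       (nu ^ 2 * m02 - nu * (n0 * v2 + n2 * v0) + n0 * n2 * ta / 2) ^ 2 +
       (nu ^ 2 * m12 - nu * (n1 * v2 + n2 * v1) + n1 * n2 * ta / 2) ^ 2) := by
    rw [hta, h0, h1, h2, hnu]
    ring
  have h3 : 0 ≤ nu ^ 2 * (nu ^ 2 *
      (m00 ^ 2 + m11 ^ 2 + (-m00 - m11) ^ 2 + 2 * (m01 ^ 2 + m02 ^ 2 + m12 ^ 2))
     - 2 * nu * (v0 ^ 2 + v1 ^ 2 + v2 ^ 2) + ta ^ 2 / 2) := by
    rw [key]; positivity
  exact nonneg_of_mul_nonneg_right h3 (by positivity)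

theorem tr0 {T : Fin 3 → Fin 3 → Fin 4 → ℝ} (hT : ∀ k, Dir (T k))
    (sT : ∀ k j a, T k j a = T j k a) (a : Fin 4) : T 2 2 a = -T 0 0 a - T 1 1 a := by
  obtain ⟨a1, a2, a3, a4⟩ := hT 0
  obtain ⟨b1, b2, b3, b4⟩ := hT 1
  obtain ⟨c1, c2, c3, c4⟩ := hT 2
  have s01 := fun a => sT 0 1 a
  have s02 := fun a => sT 0 2 a
  have s12 := fun a => sT 1 2 a
  have := s01 0
  have := s01 1
  have := s01 2
  have := s01 3
  have := s02 0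
  have := s02 1
  have := s02 2
  have := s02 3
  have := s12 0
  have := s12 1
  have := s12 2
  have := s12 3
  fin_cases a
  · show T 2 2 0 = -T 0 0 0 - T 1 1 0
    linarith
  · show T 2 2 1 = -T 0 0 1 - T 1 1 1
    linarith
  · show T 2 2 2 = -T 0 0 2 - T 1 1 2
    linarith
  · show T 2 2 3 = -T 0 0 3 - T 1 1 3
    linarith

theorem step3 {T : Fin 3 → Fin 3 → Fin 4 → ℝ} (hT : ∀ k, Dir (T k))
    (sT : ∀ k j a, T k j a = T j k a) (n : Fin 3 → ℝ) (hn : 0 < ∑ j, n j ^ 2) :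
    5 * ∑ j, ∑ a, (∑ k, n k * T k j a) ^ 2 ≤ 3 * (∑ j, n j ^ 2) * ∑ k, ∑ j, ∑ a, T k j a ^ 2 := by
  set nu := ∑ j, n j ^ 2 with hnu
  set V : Fin 3 → Fin 4 → ℝ := fun j a => ∑ k, n k * T k j a with hV
  have hVd : Dir V := by
    have ha := hT 0
    have hb := hT 1
    have hc := hT 2
    constructor <;> simp only [hV, Fin.sum_univ_three]
    · linear_combination n 0 * ha.d1 + n 1 * hb.d1 + n 2 * hc.d1
    · linear_combination n 0 * ha.d2 + n 1 * hb.d2 + n 2 * hc.d2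
    · linear_combination n 0 * ha.d3 + n 1 * hb.d3 + n 2 * hc.d3
    · linear_combination n 0 * ha.d4 + n 1 * hb.d4 + n 2 * hc.d4
  have h1 := kato2 hVd n
  have hn' : 0 < n 0 ^ 2 + n 1 ^ 2 + n 2 ^ 2 := by
    rw [hnu, Fin.sum_univ_three] at hn; exact hn
  have h2 : ∀ a, 0 ≤ nu ^ 2 * (∑ k, ∑ j, T k j a ^ 2) - 2 * nu * (∑ j, V j a ^ 2) +
      (∑ j, n j * V j a) ^ 2 / 2 := by
    intro a
    have h := k1 (T 0 0 a) (T 0 1 a) (T 0 2 a) (T 1 1 a) (T 1 2 a) (n 0) (n 1) (n 2) hn'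
    simp only [hnu, hV, Fin.sum_univ_three]
    rw [sT 1 0 a, sT 2 0 a, sT 2 1 a, tr0 hT sT a]
    refine h.trans (le_of_eq ?_)
    ring
  have h3 := Finset.sum_nonneg fun a (_ : a ∈ (Finset.univ : Finset (Fin 4))) => h2 a
  rw [Finset.sum_add_distrib, Finset.sum_sub_distrib, ← Finset.mul_sum, ← Finset.mul_sum,
    ← Finset.sum_div] at h3
  have e1 : ∑ a, ∑ k, ∑ j, T k j a ^ 2 = ∑ k, ∑ j, ∑ a, T k j a ^ 2 := by
    rw [Finset.sum_comm]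
    refine Finset.sum_congr rfl fun k _ => ?_
    rw [Finset.sum_comm]
  have e2 : ∑ a, ∑ j, V j a ^ 2 = ∑ j, ∑ a, V j a ^ 2 := Finset.sum_comm
  rw [e1, e2] at h3
  show 5 * ∑ j, ∑ a, V j a ^ 2 ≤ _
  have h4 : nu * (5 * ∑ j, ∑ a, V j a ^ 2) ≤
      nu * (3 * nu * ∑ k, ∑ j, ∑ a, T k j a ^ 2) := by
    nlinarith [h1, h3]
  exact le_of_mul_le_mul_left h4 hn

end JetKX

open JetKX in
theorem pr_JetK : S_JetK := by
  intro S T hN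
  have e0 : ∑ a, (![1, 0, 0, 0] : Fin 4 → ℝ) a ^ 2 = 1 := by
    simp [Fin.sum_univ_four]
  have ey : ∀ k, (nSJ S T).y k = 2 * ∑ j, ∑ a, S j a * T k j a := by
    intro k
    show (1 : ℝ) ^ 3 * (2 * ∑ j, ∑ a, S j a * T k j a) / ∑ a, (![1, 0, 0, 0] : Fin 4 → ℝ) a ^ 2 = _
    rw [e0]; ring
  have ex : (nSJ S T).ξ = ∑ j, ∑ a, S j a ^ 2 := by
    show (1 : ℝ) ^ 2 * (∑ j, ∑ a, S j a ^ 2) / ∑ a, (![1, 0, 0, 0] : Fin 4 → ℝ) a ^ 2 = _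
    rw [e0]; ring
  have eD : (nSJ S T).D = ∑ k, ∑ j, ∑ a, T k j a ^ 2 := by
    show (1 : ℝ) ^ 4 * (∑ k, ∑ j, ∑ a, T k j a ^ 2) /
      ∑ a, (![1, 0, 0, 0] : Fin 4 → ℝ) a ^ 2 = _
    rw [e0]; ring
  rw [ex, eD]
  set y : Fin 3 → ℝ := (nSJ S T).y with hy
  set Y : ℝ := ∑ k, y k ^ 2 with hY
  have hY0 : 0 ≤ Y := Finset.sum_nonneg fun k _ => sq_nonneg _
  have hS0 : 0 ≤ ∑ j, ∑ a, S j a ^ 2 :=
    Finset.sum_nonneg fun j _ => Finset.sum_nonneg fun a _ => sq_nonneg _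
  have hT0 : 0 ≤ ∑ k, ∑ j, ∑ a, T k j a ^ 2 :=
    Finset.sum_nonneg fun k _ => Finset.sum_nonneg fun j _ => Finset.sum_nonneg fun a _ =>
      sq_nonneg _
  rcases hY0.eq_or_lt with h0 | h0
  · rw [← h0]; positivity
  · have h1 := step3 hN.dT hN.sT y h0
    rw [← hY] at h1
    set V : Fin 3 → Fin 4 → ℝ := fun j a => ∑ k, y k * T k j a with hV
    have h2 : Y = 2 * ∑ p : Fin 3 × Fin 4, S p.1 p.2 * V p.1 p.2 := by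
      rw [Fintype.sum_prod_type]
      simp only [hV, Finset.mul_sum]
      have h3 : ∀ j, ∑ a, ∑ k, 2 * (S j a * (y k * T k j a)) =
          ∑ k, ∑ a, 2 * (S j a * (y k * T k j a)) := fun j => Finset.sum_comm
      simp_rw [h3]
      rw [Finset.sum_comm, hY]
      refine Finset.sum_congr rfl fun k _ => ?_
      have h4 : y k ^ 2 = y k * (2 * ∑ j, ∑ a, S j a * T k j a) := by
        rw [pow_two]; congr 1; exact ey k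
      rw [h4]
      simp only [Finset.mul_sum]
      refine Finset.sum_congr rfl fun j _ => Finset.sum_congr rfl fun a _ => ?_
      ring
    have h5 : (∑ p : Fin 3 × Fin 4, S p.1 p.2 * V p.1 p.2) ^ 2 ≤
        (∑ p : Fin 3 × Fin 4, S p.1 p.2 ^ 2) * ∑ p : Fin 3 × Fin 4, V p.1 p.2 ^ 2 :=
      Finset.sum_mul_sq_le_sq_mul_sq _ _ _
    have h6 : ∑ p : Fin 3 × Fin 4, S p.1 p.2 ^ 2 = ∑ j, ∑ a, S j a ^ 2 :=
      Fintype.sum_prod_type _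
    have h7 : ∑ p : Fin 3 × Fin 4, V p.1 p.2 ^ 2 = ∑ j, ∑ a, V j a ^ 2 :=
      Fintype.sum_prod_type _
    rw [h6, h7] at h5
    change 5 * ∑ j, ∑ a, V j a ^ 2 ≤ _ at h1
    have h8 := mul_le_mul_of_nonneg_left h1 hS0
    have h9 : Y ^ 2 = 4 * (∑ p : Fin 3 × Fin 4, S p.1 p.2 * V p.1 p.2) ^ 2 := by
      rw [h2]; ring
    have h10 : Y * Y ≤ Y * (12 / 5 * (∑ j, ∑ a, S j a ^ 2) * ∑ k, ∑ j, ∑ a, T k j a ^ 2) := by
      linarith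
    exact le_of_mul_le_mul_left h10 h0

end Pool.Agent.Work.MP_440970_an.BH
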