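import Pool.Agent.Work.MP_440970_an.BH.Stmts

/-!
# Item JetP
-/

open MeasureTheory Set Filter Topology
open scoped ContDiff

namespace Pool.Agent.Work.MP_440970_an.BH

namespace JetPX

theorem f3 {p : Fin 3 → Prop} (h0 : p 0) (h1 : p 1) (h2 : p 2) : ∀ i, p i := by
  intro i
  fin_cases i
  · exact h0
  · exact h1
  · exact h2

theorem s0 : (0 : Fin 3).succ = (1 : Fin 4) := rfl
theorem s1 : (1 : Fin 3).succ = (2 : Fin 4) := rfl
theorem s2 : (2 : Fin 3).succ = (3 : Fin 4) := rfl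

theorem n01 : ((0 : Fin 3) = 1) = False := by decide
theorem n02 : ((0 : Fin 3) = 2) = False := by decide
theorem n10 : ((1 : Fin 3) = 0) = False := by decide
theorem n12 : ((1 : Fin 3) = 2) = False := by decide
theorem n20 : ((2 : Fin 3) = 0) = False := by decide
theorem n21 : ((2 : Fin 3) = 1) = False := by decide

theorem lc000 : lc 0 0 0 = 0 := by norm_num [lc]
theorem lc001 : lc 0 0 1 = 0 := by norm_num [lc]
theorem lc002 : lc 0 0 2 = 0 := by norm_num [lc]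
theorem lc010 : lc 0 1 0 = 0 := by norm_num [lc]
theorem lc011 : lc 0 1 1 = 0 := by norm_num [lc]
theorem lc012 : lc 0 1 2 = 1 := by norm_num [lc]
theorem lc020 : lc 0 2 0 = 0 := by norm_num [lc]
theorem lc021 : lc 0 2 1 = -1 := by norm_num [lc]
theorem lc022 : lc 0 2 2 = 0 := by norm_num [lc]
theorem lc100 : lc 1 0 0 = 0 := by norm_num [lc]
theorem lc101 : lc 1 0 1 = 0 := by norm_num [lc]
theorem lc102 : lc 1 0 2 = -1 := by norm_num [lc]
theorem lc110 : lc 1 1 0 = 0 := by norm_num [lc]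
theorem lc111 : lc 1 1 1 = 0 := by norm_num [lc]
theorem lc112 : lc 1 1 2 = 0 := by norm_num [lc]
theorem lc120 : lc 1 2 0 = 1 := by norm_num [lc]
theorem lc121 : lc 1 2 1 = 0 := by norm_num [lc]
theorem lc122 : lc 1 2 2 = 0 := by norm_num [lc]
theorem lc200 : lc 2 0 0 = 0 := by norm_num [lc]
theorem lc201 : lc 2 0 1 = 1 := by norm_num [lc]
theorem lc202 : lc 2 0 2 = 0 := by norm_num [lc]
theorem lc210 : lc 2 1 0 = -1 := by norm_num [lc]
theorem lc211 : lc 2 1 1 = 0 := by norm_num [lc]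
theorem lc212 : lc 2 1 2 = 0 := by norm_num [lc]
theorem lc220 : lc 2 2 0 = 0 := by norm_num [lc]
theorem lc221 : lc 2 2 1 = 0 := by norm_num [lc]
theorem lc222 : lc 2 2 2 = 0 := by norm_num [lc]

/-- the cross product -/
theorem cross (x y : Fin 3 → ℝ) : ∑ l, (∑ m, ∑ n, lc l m n * (x m * y n)) ^ 2 ≤
    (∑ m, x m ^ 2) * ∑ n, y n ^ 2 := by
  have h : ∑ l, (∑ m, ∑ n, lc l m n * (x m * y n)) ^ 2 =
      (∑ m, x m ^ 2) * (∑ n, y n ^ 2) - (∑ m, x m * y m) ^ 2 := by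
    simp only [Fin.sum_univ_three, lc000, lc001, lc002, lc010, lc011, lc012, lc020, lc021, lc022,
      lc100, lc101, lc102, lc110, lc111, lc112, lc120, lc121, lc122, lc200, lc201, lc202, lc210,
      lc211, lc212, lc220, lc221, lc222]
    ring
  rw [h]
  have := sq_nonneg (∑ m, x m * y m)
  linarith

theorem prodsum (a b : Fin 3 → ℝ) : ∑ k, ∑ j, a j * b k = (∑ j, a j) * ∑ k, b k := by
  simp only [Fin.sum_univ_three]
  ring

/-- sum of the cross products of all rows -/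
theorem cross2 (X Y : Fin 3 → Fin 3 → ℝ) :
    ∑ k, ∑ j, ∑ l, (∑ m, ∑ n, lc l m n * (X j m * Y k n)) ^ 2 ≤
      (∑ j, ∑ m, X j m ^ 2) * ∑ k, ∑ n, Y k n ^ 2 := by
  rw [← prodsum (fun j => ∑ m, X j m ^ 2) (fun k => ∑ n, Y k n ^ 2)]
  exact Finset.sum_le_sum fun k _ => Finset.sum_le_sum fun j _ => cross (X j) (Y k)

/-- the quadratic part of `nW` -/
noncomputable def u (g : Fin 3 → ℝ) (P O : Fin 3 → Fin 3 → ℝ) (k j l : Fin 3) : ℝ :=
  -(g j * P k l) - g k * P j l - (∑ m, ∑ n, lc l m n * (P j m * P k n)) -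
    (∑ m, ∑ n, lc l m n * (P j m * O k n)) - ∑ m, ∑ n, lc l m n * (O j m * P k n)

theorem u_sq (g : Fin 3 → ℝ) (P O : Fin 3 → Fin 3 → ℝ) :
    ∑ k, ∑ j, ∑ l, u g P O k j l ^ 2 ≤ 5 * (2 * ((∑ j, g j ^ 2) * ∑ k, ∑ l, P k l ^ 2) +
      (∑ k, ∑ l, P k l ^ 2) ^ 2 + 2 * ((∑ k, ∑ l, P k l ^ 2) * ∑ k, ∑ l, O k l ^ 2)) := by
  have h1 : ∀ k j l, u g P O k j l ^ 2 ≤ 5 * ((g j * P k l) ^ 2 + (g k * P j l) ^ 2 +
      (∑ m, ∑ n, lc l m n * (P j m * P k n)) ^ 2 + (∑ m, ∑ n, lc l m n * (P j m * O k n)) ^ 2 +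
      (∑ m, ∑ n, lc l m n * (O j m * P k n)) ^ 2) := by
    intro k j l
    unfold u
    generalize (∑ m, ∑ n, lc l m n * (P j m * P k n)) = c
    generalize (∑ m, ∑ n, lc l m n * (P j m * O k n)) = d
    generalize (∑ m, ∑ n, lc l m n * (O j m * P k n)) = e
    generalize g j * P k l = a
    generalize g k * P j l = b
    nlinarith only [sq_nonneg (a - b), sq_nonneg (a - c), sq_nonneg (a - d), sq_nonneg (a - e),
      sq_nonneg (b - c), sq_nonneg (b - d), sq_nonneg (b - e), sq_nonneg (c - d),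
      sq_nonneg (c - e), sq_nonneg (d - e)]
  have h2 : ∑ k, ∑ j, ∑ l, u g P O k j l ^ 2 ≤ ∑ k, ∑ j, ∑ l, 5 * ((g j * P k l) ^ 2 +
      (g k * P j l) ^ 2 +
      (∑ m, ∑ n, lc l m n * (P j m * P k n)) ^ 2 + (∑ m, ∑ n, lc l m n * (P j m * O k n)) ^ 2 +
      (∑ m, ∑ n, lc l m n * (O j m * P k n)) ^ 2) :=
    Finset.sum_le_sum fun k _ => Finset.sum_le_sum fun j _ => Finset.sum_le_sum fun l _ => h1 k j l
  refine h2.trans ?_
  simp only [← Finset.mul_sum, Finset.sum_add_distrib]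
  have c1 := cross2 P P
  have c2 := cross2 P O
  have c3 := cross2 O P
  have e1 : ∑ k, ∑ j, ∑ l, (g j * P k l) ^ 2 = (∑ j, g j ^ 2) * ∑ k, ∑ l, P k l ^ 2 := by
    simp only [Fin.sum_univ_three]; ring
  have e2 : ∑ k, ∑ j, ∑ l, (g k * P j l) ^ 2 = (∑ j, g j ^ 2) * ∑ k, ∑ l, P k l ^ 2 := by
    simp only [Fin.sum_univ_three]; ring
  rw [e1, e2]
  nlinarith only [c1, c2, c3]

/-- the remainder -/
theorem rem_sq (g : Fin 3 → ℝ) (P O : Fin 3 → Fin 3 → ℝ) :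
    ∑ k, ∑ j, ∑ l, ((u g P O k j l + u g P O k l j) / 2) ^ 2 ≤
      ∑ k, ∑ j, ∑ l, u g P O k j l ^ 2 := by
  have h1 : ∑ k, ∑ j, ∑ l, ((u g P O k j l + u g P O k l j) / 2) ^ 2 ≤
      ∑ k, ∑ j, ∑ l, (u g P O k j l ^ 2 + u g P O k l j ^ 2) / 2 := by
    refine Finset.sum_le_sum fun k _ => Finset.sum_le_sum fun j _ =>
      Finset.sum_le_sum fun l _ => ?_
    nlinarith only [sq_nonneg (u g P O k j l - u g P O k l j)]
  refine h1.trans (le_of_eq ?_)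
  refine Finset.sum_congr rfl fun k _ => ?_
  have h2 : ∑ j, ∑ l, u g P O k l j ^ 2 = ∑ j, ∑ l, u g P O k j l ^ 2 := Finset.sum_comm
  simp only [← Finset.sum_div, Finset.sum_add_distrib]
  rw [h2]
  ring

/-- the main part -/
noncomputable def X (S : Fin 3 → Fin 4 → ℝ) (T : Fin 3 → Fin 3 → Fin 4 → ℝ) (k j l : Fin 3) : ℝ :=
  nT T k j l - 1 / 6 * ∑ m, (lc k l m * nR S T m j + lc k j m * nR S T m l)

section
variable {S : Fin 3 → Fin 4 → ℝ} {T : Fin 3 → Fin 3 → Fin 4 → ℝ}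

/-- the linear relations for `S` -/
theorem relS (h : NormData S T) : S 2 3 = -S 0 1 - S 1 2 ∧ S 2 2 = S 0 0 + S 1 3 ∧
    S 0 3 = S 1 0 + S 2 1 ∧ S 1 1 = S 2 0 + S 0 2 := by
  obtain ⟨d1, d2, d3, d4⟩ := h.dS
  refine ⟨?_, ?_, ?_, ?_⟩ <;> linarith

/-- the linear relations for `T` -/
theorem relT (h : NormData S T) : T 0 0 3 = T 0 1 0 + T 0 2 1 ∧ T 0 1 1 = T 0 2 0 + T 0 0 2 ∧
    T 0 2 2 = T 0 0 0 + T 0 1 3 ∧ T 0 2 3 = -T 0 0 1 - T 0 1 2 ∧ T 1 1 1 = T 1 2 0 + T 0 1 2 ∧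
    T 1 2 1 = T 0 1 3 - T 1 1 0 ∧ T 1 2 2 = T 0 1 0 + T 1 1 3 ∧
    T 1 2 3 = -T 0 2 0 - T 0 0 2 - T 1 1 2 ∧ T 2 2 1 = -T 0 0 1 - T 0 1 2 - T 1 2 0 ∧
    T 2 2 2 = -T 0 0 2 - T 1 1 2 ∧ T 2 2 3 = -T 0 2 1 - T 0 1 0 - T 1 1 3 ∧
    T 2 2 0 = -T 1 1 0 - T 0 0 0 := by
  obtain ⟨a1, a2, a3, a4⟩ := h.dT 0
  obtain ⟨b1, b2, b3, b4⟩ := h.dT 1
  obtain ⟨c1, c2, c3, c4⟩ := h.dT 2
  have s10 := fun α => h.sT 1 0 α
  have s20 := fun α => h.sT 2 0 α
  have s21 := fun α => h.sT 2 1 α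
  simp only [s10, s20, s21] at a1 a2 a3 a4 b1 b2 b3 b4 c1 c2 c3 c4
  refine ⟨?_, ?_, ?_, ?_, ?_, ?_, ?_, ?_, ?_, ?_, ?_, ?_⟩ <;> linarith

theorem sumF (v : Fin 4 → ℝ) : ∑ α, (![1, 0, 0, 0] : Fin 4 → ℝ) α * v α = v 0 := by
  simp [Fin.sum_univ_four]

theorem sumF2 : ∑ α, (![1, 0, 0, 0] : Fin 4 → ℝ) α ^ 2 = 1 := by
  simp [Fin.sum_univ_four]

theorem eta (k : Fin 3) : (nSJ S T).η k = S k 0 := by
  simp only [nSJ, mkSJ, sumF, sumF2]
  ring

theorem Hkj (k j : Fin 3) : (nSJ S T).H k j =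
    (∑ α, S k α * S j α) + T k j 0 - 2 * S k 0 * S j 0 := by
  simp only [nSJ, mkSJ, sumF, sumF2, Finset.sum_add_distrib]
  ring

theorem yk (k : Fin 3) : (nSJ S T).y k = 2 * ∑ j, ∑ α, S j α * T k j α := by
  simp only [nSJ, mkSJ, sumF2]
  ring

theorem xi : (nSJ S T).ξ = ∑ j, ∑ α, S j α ^ 2 := by
  simp only [nSJ, mkSJ, sumF2]
  ring

theorem first (h : NormData S T) (k : Fin 3) :
    (nSJ S T).qp k = 2 * ∑ j, ∑ l, nP S j l * nW S T k j l := by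
  obtain ⟨h23, h22, h03, h11⟩ := relS h
  obtain ⟨t003, t011, t022, t023, t111, t121, t122, t123, t221, t222, t223, t220⟩ := relT h
  have s10 := fun α => h.sT 1 0 α
  have s20 := fun α => h.sT 2 0 α
  have s21 := fun α => h.sT 2 1 α
  simp only [SJ.qp, SJ.xp, SJ.He, eta, Hkj, yk, xi, nP, nW]
  revert k
  refine f3 ?_ ?_ ?_
  all_goals
    simp only [Fin.sum_univ_three, Fin.sum_univ_four, s0, s1, s2, lc000, lc001, lc002, lc010, lc011, lc012, lc020, lc021, lc022,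
      lc100, lc101, lc102, lc110, lc111, lc112, lc120, lc121, lc122, lc200, lc201, lc202, lc210,
      lc211, lc212, lc220, lc221, lc222]
    simp only [s10, s20, s21, h23, h22, h03, h11, t003, t011, t022, t023, t111, t121, t122, t123,
      t221, t222, t223, t220]
    ring

theorem Nval : (nSJ S T).N = ∑ k, S k 0 ^ 2 := by
  simp only [SJ.N, eta]

theorem sumO (h : NormData S T) : ∑ j, ∑ l, nO S j l ^ 2 = (∑ k, S k 0 ^ 2) / 2 := by
  obtain ⟨h23, h22, h03, h11⟩ := relS h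
  simp only [nO, Fin.sum_univ_three, s0, s1, s2, h23, h22, h03, h11]
  ring

theorem qval (h : NormData S T) : (nSJ S T).q = ∑ j, ∑ l, nP S j l ^ 2 := by
  obtain ⟨h23, h22, h03, h11⟩ := relS h
  simp only [SJ.q, Nval, xi, nP, Fin.sum_univ_three, Fin.sum_univ_four, s0, s1, s2, h23, h22, h03,
    h11]
  ring

/-- the decomposition of `nW` -/
theorem Wdec (h : NormData S T) (k j l : Fin 3) : nW S T k j l =
    X S T k j l + (u (fun k => S k 0) (nP S) (nO S) k j l +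
      u (fun k => S k 0) (nP S) (nO S) k l j) / 2 := by
  obtain ⟨h23, h22, h03, h11⟩ := relS h
  obtain ⟨t003, t011, t022, t023, t111, t121, t122, t123, t221, t222, t223, t220⟩ := relT h
  have s10 := fun α => h.sT 1 0 α
  have s20 := fun α => h.sT 2 0 α
  have s21 := fun α => h.sT 2 1 α
  simp only [nW, X, u, nT, nR, nP, nO]
  revert k j l
  refine f3 (f3 (f3 ?_ ?_ ?_) (f3 ?_ ?_ ?_) (f3 ?_ ?_ ?_))
    (f3 (f3 ?_ ?_ ?_) (f3 ?_ ?_ ?_) (f3 ?_ ?_ ?_)) (f3 (f3 ?_ ?_ ?_) (f3 ?_ ?_ ?_) (f3 ?_ ?_ ?_))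
  all_goals
    simp only [Fin.sum_univ_three, s0, s1, s2, lc000, lc001, lc002, lc010, lc011, lc012, lc020, lc021, lc022,
      lc100, lc101, lc102, lc110, lc111, lc112, lc120, lc121, lc122, lc200, lc201, lc202, lc210,
      lc211, lc212, lc220, lc221, lc222]
    simp only [s10, s20, s21, h23, h22, h03, h11, t003, t011, t022, t023, t111, t121, t122, t123,
      t221, t222, t223, t220, n01, n02, n10, n12, n20, n21, if_true, if_false]
    ring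

end

/-- the square of the main part, abstract form -/
theorem Xsq (t : Fin 3 → Fin 3 → Fin 3 → ℝ) (r : Fin 3 → Fin 3 → ℝ)
    (h1 : ∀ k j l, t k j l = t j k l) (h2 : ∀ k j l, t k j l = t k l j)
    (hr : ∀ k j, r k j = r j k) (htr : r 2 2 = -r 0 0 - r 1 1) :
    ∑ k, ∑ j, ∑ l, (t k j l - 1 / 6 * ∑ m, (lc k l m * r m j + lc k j m * r m l)) ^ 2 =
      ∑ k, ∑ j, ∑ l, t k j l ^ 2 + 1 / 6 * ∑ k, ∑ j, r k j ^ 2 := by
  have a1 : t 0 1 0 = t 0 0 1 := h2 0 1 0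
  have a2 : t 1 0 0 = t 0 0 1 := (h1 1 0 0).trans a1
  have a3 : t 0 2 0 = t 0 0 2 := h2 0 2 0
  have a4 : t 2 0 0 = t 0 0 2 := (h1 2 0 0).trans a3
  have a5 : t 1 0 1 = t 0 1 1 := h1 1 0 1
  have a6 : t 1 1 0 = t 0 1 1 := (h2 1 1 0).trans a5
  have a7 : t 2 0 2 = t 0 2 2 := h1 2 0 2
  have a8 : t 2 2 0 = t 0 2 2 := (h2 2 2 0).trans a7
  have a9 : t 1 2 1 = t 1 1 2 := h2 1 2 1
  have a10 : t 2 1 1 = t 1 1 2 := (h1 2 1 1).trans a9
  have a11 : t 2 1 2 = t 1 2 2 := h1 2 1 2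
  have a12 : t 2 2 1 = t 1 2 2 := (h2 2 2 1).trans a11
  have a13 : t 0 2 1 = t 0 1 2 := h2 0 2 1
  have a14 : t 1 0 2 = t 0 1 2 := h1 1 0 2
  have a15 : t 1 2 0 = t 0 1 2 := (h2 1 2 0).trans a14
  have a16 : t 2 0 1 = t 0 1 2 := (h1 2 0 1).trans a13
  have a17 : t 2 1 0 = t 0 1 2 := (h1 2 1 0).trans a15
  have b1 : r 1 0 = r 0 1 := hr 1 0
  have b2 : r 2 0 = r 0 2 := hr 2 0
  have b3 : r 2 1 = r 1 2 := hr 2 1
  simp only [Fin.sum_univ_three, lc000, lc001, lc002, lc010, lc011, lc012, lc020, lc021, lc022,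
      lc100, lc101, lc102, lc110, lc111, lc112, lc120, lc121, lc122, lc200, lc201, lc202, lc210,
      lc211, lc212, lc220, lc221, lc222]
  simp only [a1, a2, a3, a4, a5, a6, a7, a8, a9, a10, a11, a12, a13, a14, a15, a16, a17, b1, b2,
    b3, htr]
  ring

section
variable {S : Fin 3 → Fin 4 → ℝ} {T : Fin 3 → Fin 3 → Fin 4 → ℝ}

theorem nTsym1 (h : NormData S T) (k j l : Fin 3) : nT T k j l = nT T j k l := by
  unfold nT
  rw [h.sT k j]
  congr 2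
  refine Finset.sum_congr rfl fun m _ => ?_
  ring

theorem nTsym2 (h : NormData S T) (k j l : Fin 3) : nT T k j l = nT T k l j := by
  obtain ⟨t003, t011, t022, t023, t111, t121, t122, t123, t221, t222, _, t220⟩ := relT h
  have s10 := fun α => h.sT 1 0 α
  have s20 := fun α => h.sT 2 0 α
  have s21 := fun α => h.sT 2 1 α
  simp only [nT]
  revert k j l
  refine f3 (f3 (f3 ?_ ?_ ?_) (f3 ?_ ?_ ?_) (f3 ?_ ?_ ?_))
    (f3 (f3 ?_ ?_ ?_) (f3 ?_ ?_ ?_) (f3 ?_ ?_ ?_)) (f3 (f3 ?_ ?_ ?_) (f3 ?_ ?_ ?_) (f3 ?_ ?_ ?_))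
  all_goals first
    | with_reducible rfl
    | (simp only [Fin.sum_univ_three, s0, s1, s2, lc000, lc001, lc002, lc010, lc011, lc012, lc020, lc021, lc022,
         lc100, lc101, lc102, lc110, lc111, lc112, lc120, lc121, lc122, lc200, lc201, lc202, lc210,
         lc211, lc212, lc220, lc221, lc222]
       simp only [s10, s20, s21, t003, t011, t022, t023, t111, t121, t122, t123,
         t221, t222, t220]
       ring)

theorem nRsym (h : NormData S T) (k j : Fin 3) : nR S T k j = nR S T j k := by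
  unfold nR
  rw [h.sT k j, mul_comm (S k 0)]
  simp only [eq_comm (a := k) (b := j)]

theorem nRtr (h : NormData S T) : nR S T 2 2 = -nR S T 0 0 - nR S T 1 1 := by
  obtain ⟨t003, t011, t022, t023, t111, t121, t122, t123, t221, t222, t223, t220⟩ := relT h
  simp only [nR, Fin.sum_univ_three, t220, if_true]
  ring

end

end JetPX

/-- [JetP] -/
theorem pr_JetP : S_JetP := by
  intro S T h
  refine ⟨JetPX.first h, ?_⟩
  have h1 : ∑ k, ∑ j, ∑ l, nW S T k j l ^ 2 ≤ ∑ k, ∑ j, ∑ l, (2 * JetPX.X S T k j l ^ 2 +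
      2 * ((JetPX.u (fun k => S k 0) (nP S) (nO S) k j l +
        JetPX.u (fun k => S k 0) (nP S) (nO S) k l j) / 2) ^ 2) := by
    refine Finset.sum_le_sum fun k _ => Finset.sum_le_sum fun j _ =>
      Finset.sum_le_sum fun l _ => ?_
    rw [JetPX.Wdec h]
    generalize JetPX.X S T k j l = a
    generalize (JetPX.u (fun k => S k 0) (nP S) (nO S) k j l +
        JetPX.u (fun k => S k 0) (nP S) (nO S) k l j) / 2 = b
    nlinarith only [sq_nonneg (a - b)]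
  have h2 := JetPX.rem_sq (fun k => S k 0) (nP S) (nO S)
  have h3 := JetPX.u_sq (fun k => S k 0) (nP S) (nO S)
  have h4 : ∑ k, ∑ j, ∑ l, JetPX.X S T k j l ^ 2 =
      ∑ k, ∑ j, ∑ l, nT T k j l ^ 2 + 1 / 6 * ∑ k, ∑ j, nR S T k j ^ 2 :=
    JetPX.Xsq (nT T) (nR S T) (JetPX.nTsym1 h) (JetPX.nTsym2 h) (JetPX.nRsym h) (JetPX.nRtr h)
  simp only [Finset.sum_add_distrib, ← Finset.mul_sum] at h1
  rw [JetPX.sumO h] at h3
  rw [JetPX.Nval, JetPX.qval h]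
  have h5 : 0 ≤ ∑ k, S k 0 ^ 2 := Finset.sum_nonneg fun k _ => sq_nonneg _
  have h6 : 0 ≤ ∑ j, ∑ l, nP S j l ^ 2 :=
    Finset.sum_nonneg fun k _ => Finset.sum_nonneg fun l _ => sq_nonneg _
  rw [h4] at h1
  generalize (∑ k, ∑ j, ∑ l, nW S T k j l ^ 2) = w at *
  generalize (∑ k, ∑ j, ∑ l, nT T k j l ^ 2) = t at *
  generalize (∑ k, ∑ j, nR S T k j ^ 2) = r at *
  generalize (∑ k, S k 0 ^ 2) = N at *
  generalize (∑ j, ∑ l, nP S j l ^ 2) = q at *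
  nlinarith only [h1, h2, h3, mul_nonneg h5 h6, mul_nonneg h6 h6]

end Pool.Agent.Work.MP_440970_an.BH
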