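import Pool.Agent.Work.MP_440970_an.BH.Stmts

/-!
# Item Ker: the derivatives of the field of a point charge
-/

open MeasureTheory Set Filter Topology
open scoped ContDiff ENNReal

namespace Pool.Agent.Work.MP_440970_an.BH

namespace KerX

/-- the square of the distance to the origin -/
noncomputable def nn (x : E3) : ℝ := x 0 ^ 2 + x 1 ^ 2 + x 2 ^ 2

/-- negative powers of the distance -/
noncomputable def R (m : ℕ) (x : E3) : ℝ := (√(nn x) ^ m)⁻¹

theorem nn_pos {x : E3} (hx : x ≠ 0) : 0 < nn x := by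
  have h0 : 0 ≤ nn x := by unfold nn; positivity
  rcases h0.lt_or_eq with h | h
  · exact h
  · exfalso
    apply hx
    unfold nn at h
    have h1 : x 0 = 0 := by nlinarith [sq_nonneg (x 0), sq_nonneg (x 1), sq_nonneg (x 2)]
    have h2 : x 1 = 0 := by nlinarith [sq_nonneg (x 0), sq_nonneg (x 1), sq_nonneg (x 2)]
    have h3 : x 2 = 0 := by nlinarith [sq_nonneg (x 0), sq_nonneg (x 1), sq_nonneg (x 2)]
    funext i
    fin_cases i
    · exact h1
    · exact h2
    · exact h3

theorem cd_coord (i : Fin 3) {n : WithTop ℕ∞} (x : E3) : ContDiffAt ℝ n (fun y : E3 => y i) x :=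
  (contDiff_apply ℝ ℝ i).contDiffAt

theorem cd_nn {n : WithTop ℕ∞} (x : E3) : ContDiffAt ℝ n nn x :=
  ((cd_coord 0 x).pow 2 |>.add ((cd_coord 1 x).pow 2)).add ((cd_coord 2 x).pow 2)

theorem cd_R {n : WithTop ℕ∞} (m : ℕ) {x : E3} (hx : 0 < nn x) : ContDiffAt ℝ n (R m) x :=
  (((cd_nn x).sqrt hx.ne').pow m).inv (pow_ne_zero m (Real.sqrt_pos.2 hx).ne')

theorem d_coord (i : Fin 3) (x : E3) : DifferentiableAt ℝ (fun y : E3 => y i) x :=
  (cd_coord (n := 1) i x).differentiableAt (by norm_num)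

theorem d_nn (x : E3) : DifferentiableAt ℝ nn x :=
  (cd_nn (n := 1) x).differentiableAt (by norm_num)

theorem d_R (m : ℕ) {x : E3} (hx : 0 < nn x) : DifferentiableAt ℝ (R m) x :=
  (cd_R (n := 1) m hx).differentiableAt (by norm_num)

theorem pd_sq (k i : Fin 3) (x : E3) :
    pd k (fun y => y i ^ 2) x = 2 * x i * if k = i then 1 else 0 := by
  have h : (fun y : E3 => y i ^ 2) = fun y => y i * y i := by
    funext y
    ring
  rw [h, pd_mul k (d_coord i x) (d_coord i x), pd_coord]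
  ring

theorem pd_nn (k : Fin 3) (x : E3) : pd k nn x = 2 * x k := by
  have h : nn = fun y : E3 => (y 0 ^ 2 + y 1 ^ 2) + y 2 ^ 2 := rfl
  have e : ∀ i : Fin 3, DifferentiableAt ℝ (fun y : E3 => y i ^ 2) x := fun i =>
    (d_coord i x).pow 2
  have e01 : DifferentiableAt ℝ (fun y : E3 => y 0 ^ 2 + y 1 ^ 2) x := (e 0).add (e 1)
  rw [h, pd_add k e01 (e 2), pd_add k (e 0) (e 1), pd_sq, pd_sq, pd_sq]
  fin_cases k <;> simp

theorem hasDeriv (m : ℕ) {u : ℝ} (hu : 0 < u) :
    HasDerivAt (fun u => (√u ^ (m + 1))⁻¹) (-((m : ℝ) + 1) / 2 * (√u ^ (m + 3))⁻¹) u := by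
  have hs : 0 < √u := Real.sqrt_pos.2 hu
  have h1 := Real.hasDerivAt_sqrt hu.ne'
  have h2 := (h1.fun_pow (m + 1)).fun_inv (pow_ne_zero _ hs.ne')
  refine h2.congr_deriv ?_
  rw [Nat.add_sub_cancel]
  push_cast
  field_simp
  ring

theorem pd_R (m : ℕ) (k : Fin 3) {x : E3} (hx : 0 < nn x) :
    pd k (R (m + 1)) x = -((m : ℝ) + 1) * x k * R (m + 3) x := by
  have h := pd_comp (f := nn) (x := x) k (hasDeriv m hx) (d_nn x)
  have e : R (m + 1) = fun y => (√(nn y) ^ (m + 1))⁻¹ := rfl
  rw [e, h, pd_nn]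
  unfold R
  ring

/-- the first derivative -/
noncomputable def F1 (i j : Fin 3) (y : E3) : ℝ :=
  (if i = j then 1 else 0) * R 3 y + -3 * (y i * (y j * R 5 y))

theorem EE_eq (i : Fin 3) : EE i = fun y => y i * R 3 y := by
  funext y
  unfold EE R nn
  rw [div_eq_mul_inv]

theorem pd_EE (i j : Fin 3) {x : E3} (hx : 0 < nn x) : pd j (EE i) x = F1 i j x := by
  rw [EE_eq, pd_mul j (d_coord i x) (d_R 3 hx), pd_coord, pd_R 2 j hx]
  unfold F1
  have e : (if j = i then (1 : ℝ) else 0) = if i = j then 1 else 0 := by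
    by_cases h : i = j
    · rw [if_pos h, if_pos h.symm]
    · rw [if_neg h, if_neg (fun h' => h h'.symm)]
  rw [e]
  push_cast
  ring

theorem pd_F1 (i j k : Fin 3) {x : E3} (hx : 0 < nn x) :
    pd k (F1 i j) x = -3 * ((if i = j then x k else 0) + (if i = k then x j else 0) +
    if j = k then x i else 0) * R 5 x + 15 * x i * x j * x k * R 7 x := by
  have e : F1 i j = fun y => (if i = j then 1 else 0) * R 3 y + -3 * (y i * (y j * R 5 y)) := rfl
  have d1 : DifferentiableAt ℝ (fun y => y j * R 5 y) x := (d_coord j x).mul (d_R 5 hx)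
  have d2 : DifferentiableAt ℝ (fun y => y i * (y j * R 5 y)) x := (d_coord i x).mul d1
  have d3 : DifferentiableAt ℝ (fun y => (if i = j then 1 else 0) * R 3 y) x :=
    (d_R 3 hx).const_mul _
  have d4 : DifferentiableAt ℝ (fun y => -3 * (y i * (y j * R 5 y))) x := d2.const_mul _
  rw [e, pd_add k d3 d4, pd_const_mul k _ (d_R 3 hx),
    pd_const_mul k _ d2, pd_mul k (d_coord i x) d1, pd_mul k (d_coord j x) (d_R 5 hx),
    pd_coord, pd_coord, pd_R 2 k hx, pd_R 4 k hx]
  have e1 : (if k = i then (1 : ℝ) else 0) = if i = k then 1 else 0 := by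
    by_cases h : i = k
    · rw [if_pos h, if_pos h.symm]
    · rw [if_neg h, if_neg (fun h' => h h'.symm)]
  have e2 : (if k = j then (1 : ℝ) else 0) = if j = k then 1 else 0 := by
    by_cases h : j = k
    · rw [if_pos h, if_pos h.symm]
    · rw [if_neg h, if_neg (fun h' => h h'.symm)]
  have e3 : (if i = j then x k else 0) = (if i = j then 1 else 0) * x k := by
    rw [ite_mul, one_mul, zero_mul]
  have e4 : (if i = k then x j else 0) = (if i = k then 1 else 0) * x j := by
    rw [ite_mul, one_mul, zero_mul]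
  have e5 : (if j = k then x i else 0) = (if j = k then 1 else 0) * x i := by
    rw [ite_mul, one_mul, zero_mul]
  rw [e1, e2, e3, e4, e5]
  generalize (if i = j then (1 : ℝ) else 0) = a
  generalize (if i = k then (1 : ℝ) else 0) = b
  generalize (if j = k then (1 : ℝ) else 0) = c
  norm_num
  ring

end KerX

open KerX in
theorem pr_Ker : S_Ker := by
  intro x hx r hr
  have hn := nn_pos hx
  have hr' : r = √(nn x) := hr
  have hR : ∀ m, R m x = (r ^ m)⁻¹ := fun m => by
    rw [hr']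
    rfl
  refine ⟨fun i => ?_, fun i j => ?_, fun i j k => ?_⟩
  · rw [EE_eq]
    exact (cd_coord i x).mul (cd_R 3 hn)
  · rw [pd_EE i j hn]
    unfold F1
    rw [hR, hR]
    ring
  · have hev : pd j (EE i) =ᶠ[𝓝 x] F1 i j := by
      filter_upwards [isOpen_ne.mem_nhds hx] with y hy
      exact pd_EE i j (nn_pos hy)
    rw [pd_congr hev, pd_F1 i j k hn, hR, hR]
    ring

end Pool.Agent.Work.MP_440970_an.BH
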