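import Pool.Agent.Work.MP_440970_an.BH.I_Gam
import Pool.Agent.Work.MP_440970_an.Bdx.B04
import Pool.Agent.Work.MP_440970_an.BH.I_EQcrude
import Pool.Agent.Work.MP_440970_an.Bdx.B05
import Pool.Agent.Work.MP_440970_an.BH.I_CertEx
import Pool.Agent.Work.MP_440970_an.BH.I_JetK
import Pool.Agent.Work.MP_440970_an.Bdx.B06
import Pool.Agent.Work.MP_440970_an.BH.I_JetP
import Pool.Agent.Work.MP_440970_an.BH.I_Box
import Pool.Agent.Work.MP_440970_an.BH.I_Ker
import Pool.Agent.Work.MP_440970_an.BH.I_Lim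
import Pool.Agent.Work.MP_440970_an.BH.I_Jen

/-!
# `𝒳^p(ℂ) ≠ L^p(ℂ)` for some `p < 1/2`: assembly
-/

open MeasureTheory Set Filter Topology
open scoped ENNReal

namespace Pool.Agent.Work.MP_440970_an.BH

theorem all_CertEx : S_CertEx :=
  pr_CertEx pr_Gam pr_Cut pr_EPid pr_BrNear pr_BrFar pr_EQnear pr_EQcrude pr_EVnear pr_EVcrude

theorem all_JetF : S_JetF := by
  have hL : S_JetL := pr_JetL pr_JetD (pr_JetI pr_JetD)
  exact pr_JetF pr_JetQ pr_JetK (pr_JetB pr_JetD hL) (pr_JetW pr_JetD hL pr_JetP) pr_JetNorm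

theorem all_Jen : S_Jen := by
  have hA : S_NJA := pr_NJA pr_Harm
  have hw : S_NJw := pr_NJw hA
  have hx : S_NJxi := pr_NJxi pr_Harm hA
  have he : S_NJeta := pr_NJeta pr_Harm hA
  have hM : S_LapM := pr_LapM hw hx (pr_NJq hx he)
  have hZ : S_DivZ := pr_DivZ hM (pr_DivY hw hx he) all_JetF
  have hF : S_Flux := pr_Flux pr_Box hZ (pr_FarZ hM)
  have hG : S_GFfld := pr_GFfld pr_Ker pr_GFform
  exact pr_Jen hF hG pr_Sft (pr_GFfar pr_Ker (pr_KerB pr_Ker) pr_GFform) (pr_Dense hG) pr_Lim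

theorem all_Final : S_Final := pr_Final all_CertEx (pr_JenC all_Jen) pr_Mom

end Pool.Agent.Work.MP_440970_an.BH
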