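import Mathlib

/-!
# The kernels, the space `𝒳(ℂ)`, the metric
-/

open MeasureTheory Complex Set Filter Topology
open scoped ENNReal

namespace Pool.Agent.Work.MP_440970_an

/-- The kernel `z/|z|^3` (value `0` at `z = 0`). -/
noncomputable def K (z : ℂ) : ℂ := z / (‖z‖ : ℂ) ^ 3

/-- `𝒳(ℂ)`: the complex span of the functions `z ↦ (z-a)/|z-a|^3`. -/
noncomputable def X : Submodule ℂ (ℂ → ℂ) :=
  Submodule.span ℂ (range fun a : ℂ => fun z : ℂ => K (z - a))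

/-- `∫ |f|^p`. -/
noncomputable def np (p : ℝ) (f : ℂ → ℂ) : ℝ≥0∞ := ∫⁻ z, ‖f z‖ₑ ^ p

/-- Distance to `𝒳(ℂ) ∩ L^p(ℂ)` in the metric `∫ |f-g|^p`. -/
noncomputable def dX (p : ℝ) (g : ℂ → ℂ) : ℝ≥0∞ :=
  ⨅ (f : ℂ → ℂ) (_ : f ∈ X) (_ : np p f < ⊤), np p (fun z => g z - f z)

end Pool.Agent.Work.MP_440970_an
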