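import Pool.Agent.Work.MP_440970_an.BH.Defs

/-!
# Calculus of partial derivatives and of normalised data
-/

open MeasureTheory Set Filter Topology
open scoped ContDiff

namespace Pool.Agent.Work.MP_440970_an.BH

section pd

variable {f g : E3 → ℝ} {x : E3}

theorem pd_congr {i : Fin 3} (h : f =ᶠ[𝓝 x] g) : pd i f x = pd i g x := by
  unfold pd
  rw [h.fderiv_eq]

theorem pd_const (i : Fin 3) (c : ℝ) (x : E3) : pd i (fun _ => c) x = 0 := by
  unfold pd
  rw [fderiv_fun_const]
  rfl

theorem pd_coord (i j : Fin 3) (x : E3) : pd i (fun y => y j) x = if i = j then 1 else 0 := by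
  unfold pd
  have h : HasFDerivAt (fun y : E3 => y j) (ContinuousLinearMap.proj (R := ℝ) j) x :=
    (ContinuousLinearMap.proj (R := ℝ) (φ := fun _ : Fin 3 => ℝ) j).hasFDerivAt
  rw [h.fderiv, ContinuousLinearMap.proj_apply, Pi.single_apply]
  simp [eq_comm]

theorem pd_add (i : Fin 3) (hf : DifferentiableAt ℝ f x) (hg : DifferentiableAt ℝ g x) :
    pd i (fun y => f y + g y) x = pd i f x + pd i g x := by
  unfold pd
  rw [fderiv_fun_add hf hg]
  rfl

theorem pd_neg (i : Fin 3) : pd i (fun y => -f y) x = -pd i f x := by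
  unfold pd
  rw [fderiv_fun_neg]
  rfl

theorem pd_sub (i : Fin 3) (hf : DifferentiableAt ℝ f x) (hg : DifferentiableAt ℝ g x) :
    pd i (fun y => f y - g y) x = pd i f x - pd i g x := by
  unfold pd
  rw [fderiv_fun_sub hf hg]
  rfl

theorem pd_mul (i : Fin 3) (hf : DifferentiableAt ℝ f x) (hg : DifferentiableAt ℝ g x) :
    pd i (fun y => f y * g y) x = f x * pd i g x + g x * pd i f x := by
  unfold pd
  rw [fderiv_fun_mul hf hg]
  simp

theorem pd_const_mul (i : Fin 3) (c : ℝ) (hf : DifferentiableAt ℝ f x) :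
    pd i (fun y => c * f y) x = c * pd i f x := by
  have h := pd_mul (g := f) i (differentiableAt_const (x := x) (c := c)) hf
  rw [h, pd_const, mul_zero, add_zero]

theorem pd_sum {ι : Type*} (u : Finset ι) (f : ι → E3 → ℝ) (i : Fin 3)
    (hf : ∀ k ∈ u, DifferentiableAt ℝ (f k) x) :
    pd i (fun y => ∑ k ∈ u, f k y) x = ∑ k ∈ u, pd i (f k) x := by
  unfold pd
  rw [fderiv_fun_sum hf]
  simp

/-- chain rule -/
theorem pd_comp (i : Fin 3) {φ : ℝ → ℝ} {φ1 : ℝ} (hφ : HasDerivAt φ φ1 (f x))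
    (hf : DifferentiableAt ℝ f x) : pd i (fun y => φ (f y)) x = φ1 * pd i f x := by
  unfold pd
  have h := hφ.comp_hasFDerivAt x hf.hasFDerivAt
  have h2 : fderiv ℝ (fun y => φ (f y)) x = φ1 • fderiv ℝ f x := h.fderiv
  rw [h2]
  rfl

theorem pd_contDiffAt {n m : WithTop ℕ∞} (i : Fin 3) (hf : ContDiffAt ℝ n f x) (h : m + 1 ≤ n) :
    ContDiffAt ℝ m (pd i f) x :=
  (hf.fderiv_right h).clm_apply contDiffAt_const

theorem pd_contDiffOn {n m : WithTop ℕ∞} {U : Set E3} (i : Fin 3) (hU : IsOpen U)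
    (hf : ContDiffOn ℝ n f U) (h : m + 1 ≤ n) : ContDiffOn ℝ m (pd i f) U := fun x hx =>
  (pd_contDiffAt i ((hf x hx).contDiffAt (hU.mem_nhds hx)) h).contDiffWithinAt

/-- translations -/
theorem pd_add_right (i : Fin 3) (w : E3) : pd i (fun y => f (y + w)) x = pd i f (x + w) := by
  unfold pd
  rw [fderiv_comp_add_right]

theorem pd_sub_right (i : Fin 3) (w : E3) : pd i (fun y => f (y - w)) x = pd i f (x - w) := by
  have h := pd_add_right (f := f) (x := x) i (-w)
  simp only [← sub_eq_add_neg] at h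
  exact h

theorem pd_sft (i : Fin 3) (τ : ℝ) : pd i (fun y => f (sft τ y)) x = pd i f (sft τ x) :=
  pd_add_right i fun k => τ * e0 k

theorem pd_hz (i : Fin 3) (a : ℂ) : pd i (fun y => f (hz a y)) x = pd i f (hz a x) :=
  pd_sub_right i ![0, a.re, a.im]

/-- second derivatives commute -/
theorem pd_comm (i j : Fin 3) (hf : ContDiffAt ℝ 2 f x) : pd i (pd j f) x = pd j (pd i f) x := by
  have hs : IsSymmSndFDerivAt ℝ f x := hf.isSymmSndFDerivAt (by simp)
  have hd : DifferentiableAt ℝ (fderiv ℝ f) x :=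
    (hf.fderiv_right (m := 1) (by norm_num)).differentiableAt (by norm_num)
  have key : ∀ k l : Fin 3, pd k (pd l f) x =
      fderiv ℝ (fderiv ℝ f) x (Pi.single k 1) (Pi.single l 1) := by
    intro k l
    have h1 : fderiv ℝ (fun y => fderiv ℝ f y (Pi.single l (1 : ℝ) : E3)) x =
        (fderiv ℝ (fderiv ℝ f) x).flip (Pi.single l 1) := by
      have h2 := (hd.hasFDerivAt.clm_apply (hasFDerivAt_const (Pi.single l (1 : ℝ) : E3) x)).fderiv
      rw [h2]
      simp
    show fderiv ℝ (fun y => fderiv ℝ f y (Pi.single l (1 : ℝ) : E3)) x (Pi.single k 1) = _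
    rw [h1]
    rfl
  rw [key, key]
  exact hs _ _

end pd

/-! ### normalised data -/

section NJ

variable {f g : E3 → ℝ} {x : E3} {a b l m : ℝ} {v w : E3}

theorem NJ.differentiableAt (h : NJ f x a v l) : DifferentiableAt ℝ f x :=
  h.smooth.differentiableAt (by norm_num)

theorem NJ.congr (h : NJ f x a v l) {a' l' : ℝ} {v' : E3} (ha : a = a') (hv : ∀ i, v i = v' i)
    (hl : l = l') : NJ f x a' v' l' :=
  ⟨h.smooth, h.val.trans ha, fun i => (h.grad i).trans (hv i), h.lap.trans hl⟩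

theorem NJ.congr_fun (h : NJ f x a v l) (hfg : g =ᶠ[𝓝 x] f) : NJ g x a v l := by
  refine ⟨h.smooth.congr_of_eventuallyEq hfg, hfg.self_of_nhds.trans h.val, fun i => ?_, ?_⟩
  · rw [pd_congr hfg]
    exact h.grad i
  · rw [← h.lap]
    congr 1
    refine Finset.sum_congr rfl fun i _ => pd_congr ?_
    filter_upwards [eventually_eventually_nhds.2 hfg] with y hy
    exact pd_congr hy

theorem ev_diff (hf : ContDiffAt ℝ 2 f x) : ∀ᶠ y in 𝓝 x, DifferentiableAt ℝ f y := by
  filter_upwards [hf.eventually (by simp)] with y hy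
  exact hy.differentiableAt (by norm_num)

theorem diff_pd (i : Fin 3) (hf : ContDiffAt ℝ 2 f x) : DifferentiableAt ℝ (pd i f) x :=
  (pd_contDiffAt (m := 1) i hf (by norm_num)).differentiableAt (by norm_num)

theorem NJ.of (hf : ContDiffAt ℝ 2 f x) :
    NJ f x (f x) (fun i => x 0 * pd i f x) (x 0 ^ 2 * ∑ i, pd i (pd i f) x) :=
  ⟨hf, rfl, fun _ => rfl, rfl⟩

theorem NJ.const (c : ℝ) (x : E3) : NJ (fun _ => c) x c (fun _ => 0) 0 := by
  refine ⟨contDiffAt_const, rfl, fun i => by rw [pd_const, mul_zero], ?_⟩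
  have h : ∀ i : Fin 3, pd i (pd i fun _ : E3 => c) x = 0 := by
    intro i
    have h1 : (pd i fun _ : E3 => c) = fun _ => (0 : ℝ) := by
      funext y
      exact pd_const i c y
    rw [h1]
    exact pd_const i 0 x
  simp only [h, Finset.sum_const_zero, mul_zero]

theorem NJ.height (x : E3) : NJ (fun y => y 0) x (x 0) (fun i => x 0 * e0 i) 0 := by
  refine ⟨(contDiff_apply ℝ ℝ (0 : Fin 3)).contDiffAt, rfl, fun i => ?_, ?_⟩
  · rw [pd_coord]
    rfl
  · have h : ∀ i : Fin 3, pd i (pd i fun y : E3 => y 0) x = 0 := by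
      intro i
      have h1 : (pd i fun y : E3 => y 0) = fun _ => if i = 0 then (1 : ℝ) else 0 := by
        funext y
        exact pd_coord i 0 y
      rw [h1]
      exact pd_const i _ x
    simp only [h, Finset.sum_const_zero, mul_zero]

theorem NJ.add (hf : NJ f x a v l) (hg : NJ g x b w m) :
    NJ (fun y => f y + g y) x (a + b) (fun i => v i + w i) (l + m) := by
  refine ⟨hf.smooth.add hg.smooth, by rw [hf.val, hg.val], fun i => ?_, ?_⟩
  · rw [pd_add i hf.differentiableAt hg.differentiableAt, mul_add, hf.grad, hg.grad]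
  · rw [← hf.lap, ← hg.lap, ← mul_add, ← Finset.sum_add_distrib]
    congr 1
    refine Finset.sum_congr rfl fun i _ => ?_
    have h : pd i (fun y => f y + g y) =ᶠ[𝓝 x] fun y => pd i f y + pd i g y := by
      filter_upwards [ev_diff hf.smooth, ev_diff hg.smooth] with y h1 h2
      exact pd_add i h1 h2
    rw [pd_congr h, pd_add i (diff_pd i hf.smooth) (diff_pd i hg.smooth)]

theorem NJ.mul (hf : NJ f x a v l) (hg : NJ g x b w m) :
    NJ (fun y => f y * g y) x (a * b) (fun i => a * w i + b * v i)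
      (a * m + b * l + 2 * ∑ i, v i * w i) := by
  refine ⟨hf.smooth.mul hg.smooth, by rw [hf.val, hg.val], fun i => ?_, ?_⟩
  · rw [pd_mul i hf.differentiableAt hg.differentiableAt, ← hf.grad, ← hg.grad, hf.val, hg.val]
    ring
  · have h : ∀ i, pd i (pd i fun y => f y * g y) x =
        a * pd i (pd i g) x + b * pd i (pd i f) x + 2 * (pd i f x * pd i g x) := by
      intro i
      have h : pd i (fun y => f y * g y) =ᶠ[𝓝 x] fun y => f y * pd i g y + g y * pd i f y := by
        filter_upwards [ev_diff hf.smooth, ev_diff hg.smooth] with y h1 h2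
        exact pd_mul i h1 h2
      have e1 : DifferentiableAt ℝ (fun y => f y * pd i g y) x :=
        hf.differentiableAt.mul (diff_pd i hg.smooth)
      have e2 : DifferentiableAt ℝ (fun y => g y * pd i f y) x :=
        hg.differentiableAt.mul (diff_pd i hf.smooth)
      rw [pd_congr h, pd_add i e1 e2,
        pd_mul i hf.differentiableAt (diff_pd i hg.smooth),
        pd_mul i hg.differentiableAt (diff_pd i hf.smooth), hf.val, hg.val]
      ring
    simp only [h]
    rw [← hf.lap, ← hg.lap, Finset.sum_add_distrib, Finset.sum_add_distrib, ← Finset.mul_sum,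
      ← Finset.mul_sum, ← Finset.mul_sum]
    have h2 : ∑ i, v i * w i = x 0 ^ 2 * ∑ i, pd i f x * pd i g x := by
      rw [Finset.mul_sum]
      refine Finset.sum_congr rfl fun i _ => ?_
      rw [← hf.grad, ← hg.grad]
      ring
    rw [h2]
    ring

theorem NJ.const_mul (c : ℝ) (hf : NJ f x a v l) :
    NJ (fun y => c * f y) x (c * a) (fun i => c * v i) (c * l) := by
  refine ((NJ.const c x).mul hf).congr rfl (fun i => ?_) ?_
  · ring
  · simp

theorem NJ.neg (hf : NJ f x a v l) : NJ (fun y => -f y) x (-a) (fun i => -v i) (-l) := by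
  have h := hf.const_mul (-1)
  simp only [neg_mul, one_mul] at h
  exact h

theorem NJ.sub (hf : NJ f x a v l) (hg : NJ g x b w m) :
    NJ (fun y => f y - g y) x (a - b) (fun i => v i - w i) (l - m) := by
  have h := hf.add hg.neg
  simp only [← sub_eq_add_neg] at h
  exact h

theorem NJ.sum {ι : Type*} (u : Finset ι) {f : ι → E3 → ℝ} {a l : ι → ℝ} {v : ι → E3}
    (h : ∀ k ∈ u, NJ (f k) x (a k) (v k) (l k)) :
    NJ (fun y => ∑ k ∈ u, f k y) x (∑ k ∈ u, a k) (fun i => ∑ k ∈ u, v k i) (∑ k ∈ u, l k) := by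
  classical
  induction u using Finset.induction_on with
  | empty => simpa using NJ.const 0 x
  | insert k u hk ih =>
    have h1 := (h k (Finset.mem_insert_self _ _)).add
      (ih fun j hj => h j (Finset.mem_insert_of_mem hj))
    simp only [Finset.sum_insert hk]
    exact h1

/-- chain rule; `φ1`, `φ2` are the derivatives of `φ` -/
theorem NJ.comp {φ φ1 : ℝ → ℝ} {φ2 : ℝ} (hf : NJ f x a v l) (hφ : ContDiffAt ℝ 2 φ a)
    (h1 : ∀ᶠ u in 𝓝 a, HasDerivAt φ (φ1 u) u) (h2 : HasDerivAt φ1 φ2 a) :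
    NJ (fun y => φ (f y)) x (φ a) (fun i => φ1 a * v i) (φ1 a * l + φ2 * ∑ i, v i ^ 2) := by
  have hfa : f x = a := hf.val
  subst hfa
  refine ⟨hφ.comp x hf.smooth, rfl, fun i => ?_, ?_⟩
  · rw [pd_comp i h1.self_of_nhds hf.differentiableAt, ← hf.grad]
    ring
  · have hc : ContinuousAt f x := hf.smooth.continuousAt
    have h : ∀ i, pd i (pd i fun y => φ (f y)) x =
        φ1 (f x) * pd i (pd i f) x + φ2 * pd i f x ^ 2 := by
      intro i
      have h : pd i (fun y => φ (f y)) =ᶠ[𝓝 x] fun y => φ1 (f y) * pd i f y := by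
        filter_upwards [ev_diff hf.smooth, hc.eventually h1] with y h3 h4
        exact pd_comp i h4 h3
      have e1 : DifferentiableAt ℝ (fun y => φ1 (f y)) x :=
        h2.differentiableAt.comp x hf.differentiableAt
      rw [pd_congr h, pd_mul i e1 (diff_pd i hf.smooth), pd_comp i h2 hf.differentiableAt]
      ring
    simp only [h]
    rw [← hf.lap, Finset.sum_add_distrib, ← Finset.mul_sum, ← Finset.mul_sum]
    have h3 : ∑ i, v i ^ 2 = x 0 ^ 2 * ∑ i, pd i f x ^ 2 := by
      rw [Finset.mul_sum]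
      refine Finset.sum_congr rfl fun i _ => ?_
      rw [← hf.grad]
      ring
    rw [h3]
    ring

theorem NJ.rpow (hf : NJ f x a v l) (ha : 0 < a) (p : ℝ) :
    NJ (fun y => f y ^ p) x (a ^ p) (fun i => p * a ^ (p - 1) * v i)
      (p * a ^ (p - 1) * l + p * ((p - 1) * a ^ (p - 2)) * ∑ i, v i ^ 2) := by
  refine NJ.comp (φ := fun u => u ^ p) (φ1 := fun u => p * u ^ (p - 1)) hf
    (Real.contDiffAt_rpow_const_of_ne ha.ne') ?_ ?_
  · filter_upwards [eventually_gt_nhds ha] with u hu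
    exact Real.hasDerivAt_rpow_const (Or.inl hu.ne')
  · have h := (Real.hasDerivAt_rpow_const (x := a) (p := p - 1) (Or.inl ha.ne')).const_mul p
    have h2 : p - 1 - 1 = p - 2 := by ring
    rw [h2] at h
    exact h

theorem NJ.inv (hf : NJ f x a v l) (ha : a ≠ 0) :
    NJ (fun y => (f y)⁻¹) x a⁻¹ (fun i => -(a ^ 2)⁻¹ * v i)
      (-(a ^ 2)⁻¹ * l + 2 * (a ^ 3)⁻¹ * ∑ i, v i ^ 2) := by
  refine NJ.comp (φ := fun u => u⁻¹) (φ1 := fun u => -(u ^ 2)⁻¹) hf
    (contDiffAt_inv ℝ ha) ?_ ?_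
  · filter_upwards [isOpen_ne.mem_nhds ha] with u hu
    exact hasDerivAt_inv hu
  · have h := ((hasDerivAt_pow 2 a).inv (pow_ne_zero 2 ha)).neg
    refine h.congr_deriv ?_
    field_simp
    ring

end NJ

end Pool.Agent.Work.MP_440970_an.BH
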