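import Mathlib

/-!
# `𝒳^p(ℂ) ≠ L^p(ℂ)` for some `p < 1/2`: definitions

A *monogenic field* is a solution `F = F 0 + F 1 i + F 2 j + F 3 k` of `i ∂₀F + j ∂₁F + k ∂₂F = 0`
on an open subset of `ℝ³`.  A *scalar jet* (`SJ`) is the list of the normalised derivatives
of `F` which enter the computations, and `IsSJ` are the algebraic relations between them.
A *certificate* (`Cert`) is a triple of functions such that the function
`|F|^p (φ(ξ) + q ψ(ξ))` is subharmonic up to the divergence of `|F|^p χ(ξ) v(η)`.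
-/

open MeasureTheory Set Filter Topology
open scoped ContDiff

namespace Pool.Agent.Work.MP_440970_an.BH

/-- the space `ℝ³`; the coordinate `x 0` is the height `t` -/
abbrev E3 : Type := Fin 3 → ℝ

/-- partial derivatives -/
noncomputable def pd (i : Fin 3) (f : E3 → ℝ) (x : E3) : ℝ := fderiv ℝ f x (Pi.single i 1)

/-- the unit vector in the direction `t` -/
def e0 (k : Fin 3) : ℝ := if k = 0 then 1 else 0

/-- normalised data of a function `f` at `x`: value `a`, `t ∇f = v`, `t² Δf = l` -/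
structure NJ (f : E3 → ℝ) (x : E3) (a : ℝ) (v : E3) (l : ℝ) : Prop where
  smooth : ContDiffAt ℝ 2 f x
  val : f x = a
  grad : ∀ i, x 0 * pd i f x = v i
  lap : x 0 ^ 2 * ∑ i, pd i (pd i f) x = l

/-! ### scalar jets -/

/-- scalar jets: `η = t ∇log|F|`, `H = t² D² log|F|`, `y = t³ ∇|∇F|² / |F|²`,
`ξ = t² |∇F|² / |F|²`, `D = t⁴ |∇²F|² / |F|²` -/
structure SJ where
  η : E3
  H : Fin 3 → E3
  y : E3
  ξ : ℝ
  D : ℝ

namespace SJ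

variable (s : SJ)

/-- `N = |η|²` -/
def N : ℝ := ∑ k, s.η k ^ 2

/-- `q = ξ - 3/2 N` -/
noncomputable def q : ℝ := s.ξ - 3 / 2 * s.N

/-- `t³ ∇(|∇F|² / |F|²)` -/
def xp (k : Fin 3) : ℝ := s.y k - 2 * s.ξ * s.η k

/-- `H η` -/
def He (k : Fin 3) : ℝ := ∑ j, s.H k j * s.η j

/-- `t³ ∇(q / t²)` -/
def qp (k : Fin 3) : ℝ := s.xp k - 3 * s.He k

/-- the main term of `t⁴ Δ(q / t²)` -/
def B0 : ℝ := 2 * s.D - 3 * ∑ k, ∑ j, s.H k j ^ 2 - 9 * ∑ k, s.η k * s.He k - 2 * s.ξ ^ 2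

/-- `B0` with a correction which makes it positive -/
noncomputable def BB : ℝ := s.B0 + 1000 * (s.N + s.q) * s.q

/-- `H` minus its value for a monopole -/
noncomputable def Bm (k j : Fin 3) : ℝ :=
  s.H k j - s.η k * s.η j + if k = j then s.N / 2 else 0

/-- `|Bm|²` -/
noncomputable def Bs : ℝ := ∑ k, ∑ j, s.Bm k j ^ 2

/-- `t ∇ξ` -/
def x1 (k : Fin 3) : ℝ := 2 * s.ξ * e0 k + s.xp k

/-- `t² Δξ` -/
def Lx : ℝ := 2 * s.ξ + 4 * s.xp 0 + 2 * s.D - 2 * s.ξ ^ 2 - 4 * ∑ k, s.η k * s.xp k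

/-- `t ∇q` -/
noncomputable def q1 (k : Fin 3) : ℝ := 2 * s.q * e0 k + s.qp k

/-- `t² Δq` -/
noncomputable def Lq : ℝ := 2 * s.q + 4 * s.qp 0 + s.B0 - 7 * ∑ k, s.η k * s.qp k

/-- `t² Δ(|F|^p φ(ξ)) / |F|^p`; `f, f1, f2` are the values of `φ` and its derivatives -/
noncomputable def EP (p f f1 f2 : ℝ) : ℝ :=
  p * (s.q - (1 / 2 - p) * s.N) * f + 2 * p * f1 * ∑ k, s.η k * s.x1 k + f1 * s.Lx +
    f2 * ∑ k, s.x1 k ^ 2

/-- `t² Δ(|F|^p q ψ(ξ)) / |F|^p`; `g, g1, g2` are the values of `ψ` and its derivatives -/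
noncomputable def EQ (p g g1 g2 : ℝ) : ℝ :=
  g * (p * (s.q - (1 / 2 - p) * s.N) * s.q + 2 * p * ∑ k, s.η k * s.q1 k + s.Lq) +
    2 * p * s.q * g1 * ∑ k, s.η k * s.x1 k + 2 * g1 * ∑ k, s.q1 k * s.x1 k +
    s.q * (g1 * s.Lx + g2 * ∑ k, s.x1 k ^ 2)

/-- the vector field `v(η)` -/
noncomputable def v (i : Fin 3) : ℝ := s.N / 2 * e0 i + 6 * s.η 0 * s.η i + s.N * s.η i

/-- the derivative of `v_i` with respect to `η_k` -/
noncomputable def dv (i k : Fin 3) : ℝ :=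
  s.η k * e0 i + 6 * (e0 k * s.η i + if i = k then s.η 0 else 0) + 2 * s.η k * s.η i +
    if i = k then s.N else 0

/-- `t div(|F|^p χ(ξ) v(η)) / |F|^p`; `h, h1` are the values of `χ` and its derivative -/
noncomputable def EV (p h h1 : ℝ) : ℝ :=
  h * (p * ∑ k, s.η k * s.v k + ∑ i, ∑ k, s.dv i k * (e0 i * s.η k + s.H i k)) +
    h1 * ∑ k, s.v k * s.x1 k

end SJ

/-- the relations between the scalar jets of a monogenic field -/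
structure IsSJ (s : SJ) : Prop where
  symm : ∀ k j, s.H k j = s.H j k
  tr : ∑ k, s.H k k = s.ξ - 2 * s.N
  q0 : 0 ≤ s.q
  D0 : 0 ≤ s.D
  ky : ∑ k, s.y k ^ 2 ≤ 12 / 5 * s.ξ * s.D
  kB : s.Bs ≤ 100 * s.BB
  kq : ∑ k, s.qp k ^ 2 ≤ 1000 * s.q * s.BB

/-- a certificate -/
structure Cert (p : ℝ) (φ ψ χ : ℝ → ℝ) : Prop where
  cφ : ContDiff ℝ 2 φ
  cψ : ContDiff ℝ 2 ψ
  cχ : ContDiff ℝ 2 χ
  φ1 : ∀ u ≤ 1, φ u = 1
  ψ1 : ∃ c, ∀ u ≤ 1, ψ u = c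
  χ1 : ∃ c, ∀ u ≤ 1, χ u = c
  pos : ∀ s : SJ, IsSJ s →
    0 ≤ s.EP p (φ s.ξ) (deriv φ s.ξ) (deriv (deriv φ) s.ξ) +
      s.EQ p (ψ s.ξ) (deriv ψ s.ξ) (deriv (deriv ψ) s.ξ) + s.EV p (χ s.ξ) (deriv χ s.ξ)

/-! ### monogenic fields -/

/-- `i S₀ + j S₁ + k S₂ = 0` for quaternions `S_j = S j 0 + S j 1 i + S j 2 j + S j 3 k` -/
structure Dir (S : Fin 3 → Fin 4 → ℝ) : Prop where
  d1 : S 0 1 + S 1 2 + S 2 3 = 0
  d2 : S 0 0 + S 1 3 - S 2 2 = 0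
  d3 : S 1 0 + S 2 1 - S 0 3 = 0
  d4 : S 2 0 + S 0 2 - S 1 1 = 0

/-- the scalar jet with the data `F`, `S = ∇F`, `T = ∇²F`, `t` -/
noncomputable def mkSJ (F : Fin 4 → ℝ) (S : Fin 3 → Fin 4 → ℝ) (T : Fin 3 → Fin 3 → Fin 4 → ℝ)
    (t : ℝ) : SJ where
  η k := t * (∑ α, F α * S k α) / ∑ α, F α ^ 2
  H k j := t ^ 2 * ((∑ α, (S k α * S j α + F α * T k j α)) / (∑ α, F α ^ 2) -
    2 * (∑ α, F α * S k α) * (∑ α, F α * S j α) / (∑ α, F α ^ 2) ^ 2)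
  y k := t ^ 3 * (2 * ∑ j, ∑ α, S j α * T k j α) / ∑ α, F α ^ 2
  ξ := t ^ 2 * (∑ j, ∑ α, S j α ^ 2) / ∑ α, F α ^ 2
  D := t ^ 4 * (∑ k, ∑ j, ∑ α, T k j α ^ 2) / ∑ α, F α ^ 2

/-- monogenic fields on `U` -/
structure Fld (F : Fin 4 → E3 → ℝ) (U : Set E3) : Prop where
  op : IsOpen U
  smooth : ∀ α, ContDiffOn ℝ ∞ (F α) U
  dir : ∀ x ∈ U, Dir fun j α => pd j (F α) x

/-- `|F|²` -/
def AA (F : Fin 4 → E3 → ℝ) (x : E3) : ℝ := ∑ α, F α x ^ 2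

/-- `½ ∂_k |F|²` -/
noncomputable def CC (F : Fin 4 → E3 → ℝ) (k : Fin 3) (x : E3) : ℝ := ∑ α, F α x * pd k (F α) x

/-- `|∇F|²` -/
noncomputable def GG (F : Fin 4 → E3 → ℝ) (x : E3) : ℝ := ∑ j, ∑ α, pd j (F α) x ^ 2

/-- the scalar jet of `F` at `x` -/
noncomputable def sj (F : Fin 4 → E3 → ℝ) (x : E3) : SJ :=
  mkSJ (fun α => F α x) (fun j α => pd j (F α) x) (fun k j α => pd k (pd j (F α)) x) (x 0)

/-- the function `|F|^p (φ(ξ) + q ψ(ξ))` -/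
noncomputable def MM (p : ℝ) (φ ψ : ℝ → ℝ) (F : Fin 4 → E3 → ℝ) (x : E3) : ℝ :=
  AA F x ^ (p / 2) * (φ (sj F x).ξ + (sj F x).q * ψ (sj F x).ξ)

/-- the vector field `|F|^p χ(ξ) v(η)` -/
noncomputable def YY (p : ℝ) (χ : ℝ → ℝ) (F : Fin 4 → E3 → ℝ) (i : Fin 3) (x : E3) : ℝ :=
  AA F x ^ (p / 2) * χ (sj F x).ξ * (sj F x).v i

/-- the vector field whose divergence is `t ΔM + div Y` -/
noncomputable def ZZ (p : ℝ) (φ ψ χ : ℝ → ℝ) (m : ℝ) (F : Fin 4 → E3 → ℝ) (i : Fin 3) (x : E3) :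
    ℝ := x 0 * pd i (MM p φ ψ F) x - (MM p φ ψ F x - m) * e0 i + YY p χ F i x

/-- behaviour at infinity in the upper half-space -/
def Far (F : Fin 4 → E3 → ℝ) (v : Fin 4 → ℝ) (C R : ℝ) : Prop :=
  ∀ x : E3, 0 ≤ x 0 → R ≤ ‖x‖ → (∀ α, |F α x - v α| * ‖x‖ ^ 3 ≤ C) ∧
    (∀ j α, |pd j (F α) x| * ‖x‖ ^ 4 ≤ C) ∧ ∀ k j α, |pd k (pd j (F α)) x| * ‖x‖ ^ 4 ≤ C

/-! ### the explicit fields -/

/-- distance of `x` from the point `(0, a)` -/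
noncomputable def rr (a : ℂ) (x : E3) : ℝ :=
  √(x 0 ^ 2 + (x 1 - a.re) ^ 2 + (x 2 - a.im) ^ 2)

/-- first complex component of the monopole at `(0, a)` -/
noncomputable def uK (a : ℂ) (x : E3) : ℂ := ((x 0 / rr a x ^ 3 : ℝ) : ℂ)

/-- second complex component of the monopole at `(0, a)` -/
noncomputable def fK (a : ℂ) (x : E3) : ℂ :=
  ⟨(x 1 - a.re) / rr a x ^ 3, (x 2 - a.im) / rr a x ^ 3⟩

/-- the field with the point charges `c k` at `a k`, plus a constant -/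
noncomputable def GF {n : ℕ} (a c : Fin n → ℂ) (v : Fin 4 → ℝ) (α : Fin 4) (x : E3) : ℝ :=
  ![(∑ k, c k * uK (a k) x).im, (∑ k, c k * uK (a k) x).re, (∑ k, c k * fK (a k) x).re,
    (∑ k, c k * fK (a k) x).im] α + v α

/-- vertical translation -/
def sft (τ : ℝ) (x : E3) (i : Fin 3) : ℝ := x i + τ * e0 i

/-- the field of a point charge at the origin -/
noncomputable def EE (i : Fin 3) (x : E3) : ℝ := x i / √(x 0 ^ 2 + x 1 ^ 2 + x 2 ^ 2) ^ 3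

/-- translation which moves the point `(0, a)` to the origin -/
def hz (a : ℂ) (x : E3) (i : Fin 3) : ℝ := x i - ![0, a.re, a.im] i

/-- the monogenic field of the charge `1` at the origin -/
noncomputable def P1 (α : Fin 4) (x : E3) : ℝ := ![0, EE 0 x, EE 1 x, EE 2 x] α

/-- the monogenic field of the charge `i` at the origin -/
noncomputable def P2 (α : Fin 4) (x : E3) : ℝ := ![EE 0 x, 0, -EE 2 x, EE 1 x] α

end Pool.Agent.Work.MP_440970_an.BH
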