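import Pool.Agent.Work.MP_440970_an.BH.Stmts

open MeasureTheory Set Filter Topology
open scoped ContDiff ENNReal

namespace Pool.Agent.Work.MP_440970_an.BH

namespace GamX

/-- the integrand -/
noncomputable def T (s : ℝ) : ℝ := Real.smoothTransition (s - 1)

lemma T_cont : Continuous T := Real.smoothTransition.continuous.comp (by fun_prop)

lemma T_cd : ContDiff ℝ 1 T := by
  unfold T
  exact (Real.smoothTransition.contDiff (n := 1)).comp (contDiff_id.sub contDiff_const)

lemma T_nonneg (s : ℝ) : 0 ≤ T s := Real.smoothTransition.nonneg _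
lemma T_le_one (s : ℝ) : T s ≤ 1 := Real.smoothTransition.le_one _
lemma T_zero {s : ℝ} (h : s ≤ 1) : T s = 0 := Real.smoothTransition.zero_of_nonpos (by linarith)
lemma T_one {s : ℝ} (h : 2 ≤ s) : T s = 1 := Real.smoothTransition.one_of_one_le (by linarith)
lemma T_mono : Monotone T := fun a b h => Real.smoothTransition.monotone (by linarith)

/-- the function -/
noncomputable def g (u : ℝ) : ℝ := 1 + (1 / 8) * ∫ s in (1 : ℝ)..u, T s

lemma g_hasDeriv (u : ℝ) : HasDerivAt g ((1 / 8) * T u) u := by
  have h := intervalIntegral.integral_hasDerivAt_right (a := (1 : ℝ)) (b := u)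
    (T_cont.intervalIntegrable _ _) (T_cont.stronglyMeasurableAtFilter _ _) T_cont.continuousAt
  exact (h.const_mul (1 / 8)).const_add 1

lemma g_deriv : deriv g = fun u => (1 / 8) * T u := by
  funext u
  exact (g_hasDeriv u).deriv

lemma int_nonneg {u : ℝ} (h : 1 ≤ u) : 0 ≤ ∫ s in (1 : ℝ)..u, T s :=
  intervalIntegral.integral_nonneg h (fun s _ => T_nonneg s)

lemma int_zero {u : ℝ} (h : u ≤ 1) : ∫ s in (1 : ℝ)..u, T s = 0 := by
  have h1 : ∫ s in (1 : ℝ)..u, T s = ∫ s in (1 : ℝ)..u, (0 : ℝ) := by
    apply intervalIntegral.integral_congr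
    intro s hs
    rw [uIcc_of_ge h] at hs
    exact T_zero hs.2
  rw [h1, intervalIntegral.integral_zero]

lemma int_ge {u : ℝ} (h : 1 ≤ u) : u - 2 ≤ ∫ s in (1 : ℝ)..u, T s := by
  rcases le_total u 2 with h2 | h2
  · linarith [int_nonneg h]
  · rw [← intervalIntegral.integral_add_adjacent_intervals (b := 2)
      (T_cont.intervalIntegrable _ _) (T_cont.intervalIntegrable _ _)]
    have h3 : ∫ s in (2 : ℝ)..u, T s = ∫ s in (2 : ℝ)..u, (1 : ℝ) := by
      apply intervalIntegral.integral_congr
      intro s hs
      rw [uIcc_of_le h2] at hs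
      exact T_one hs.1
    rw [h3, intervalIntegral.integral_const]
    have h4 := int_nonneg (u := 2) (by norm_num)
    simp only [smul_eq_mul, mul_one]
    linarith

lemma int_le {u : ℝ} (h : 1 ≤ u) : ∫ s in (1 : ℝ)..u, T s ≤ (u - 1) * T u := by
  have h1 : ∫ s in (1 : ℝ)..u, T s ≤ ∫ s in (1 : ℝ)..u, T u := by
    apply intervalIntegral.integral_mono_on h (T_cont.intervalIntegrable _ _)
      (intervalIntegrable_const)
    intro s hs
    exact T_mono hs.2
  rwa [intervalIntegral.integral_const, smul_eq_mul] at h1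

end GamX

open GamX in
theorem pr_Gam : S_Gam := by
  refine ⟨g, ?_⟩
  constructor
  · rw [show (2 : WithTop ℕ∞) = 1 + 1 by norm_num, contDiff_succ_iff_deriv]
    refine ⟨fun u => (g_hasDeriv u).differentiableAt, by simp, ?_⟩
    rw [g_deriv]
    exact contDiff_const.mul T_cd
  · intro u hu
    unfold g
    rw [int_zero hu]; norm_num
  · intro u
    unfold g
    rcases le_total u 1 with h | h
    · rw [int_zero h]; norm_num
    · linarith [int_nonneg h]
  · intro u
    rw [g_deriv]
    have := T_nonneg u
    show 0 ≤ (1 / 8) * T u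
    positivity
  · intro u
    rw [g_deriv]
    have := T_le_one u
    show (1 / 8) * T u ≤ 1 / 8
    linarith
  · intro u
    rw [g_deriv]
    have h : Monotone fun u => (1 / 8) * T u := fun a b hab => by
      have := T_mono hab
      show (1 / 8) * T a ≤ (1 / 8) * T b
      linarith
    exact h.deriv_nonneg
  · intro u hu
    rw [g_deriv]
    show 1 / 16 ≤ (1 / 8) * T u
    rw [T_one hu]; norm_num
  · intro u hu
    rw [g_deriv]
    show 5 / 8 ≤ g u - u * ((1 / 8) * T u)
    unfold g
    rcases le_total u 1 with h | h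
    · rw [int_zero h, T_zero h]; norm_num
    · have h1 := int_ge h
      have h2 := T_le_one u
      have h3 : u * T u ≤ u * 1 := mul_le_mul_of_nonneg_left h2 hu
      linarith
  · intro u hu
    rw [g_deriv]
    show g u - u * ((1 / 8) * T u) ≤ 1
    unfold g
    rcases le_total u 1 with h | h
    · rw [int_zero h, T_zero h]; norm_num
    · have h1 := int_le h
      have h2 := T_nonneg u
      linarith

end Pool.Agent.Work.MP_440970_an.BH
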