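import Pool.Agent.Work.MP_440970_an.BH.Stmts

/-!
# [Lim] convergence of the integrals
-/

open MeasureTheory Set Filter Topology
open scoped ContDiff ENNReal

namespace Pool.Agent.Work.MP_440970_an.BH

namespace LimX

theorem form {n : ℕ} (a c : Fin n → ℂ) (v : Fin 4 → ℝ) (α : Fin 4) (x : E3) :
    GF a c v α x =
      (∑ k, ((c k).re * P1 α (hz (a k) x) + (c k).im * P2 α (hz (a k) x))) + v α := by
  have h1 : ∀ a : ℂ, (uK a x).re = EE 0 (hz a x) := by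
    intro a
    rw [uK, Complex.ofReal_re]
    simp [EE, hz, rr]
  have h2 : ∀ a : ℂ, (uK a x).im = 0 := fun a => Complex.ofReal_im _
  have h3 : ∀ a : ℂ, (fK a x).re = EE 1 (hz a x) := by
    intro a
    simp [fK, EE, hz, rr]
  have h4 : ∀ a : ℂ, (fK a x).im = EE 2 (hz a x) := by
    intro a
    simp [fK, EE, hz, rr]
  unfold GF
  congr 1
  fin_cases α
  · show (∑ k, c k * uK (a k) x).im =
      ∑ k, ((c k).re * 0 + (c k).im * EE 0 (hz (a k) x))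
    rw [Complex.im_sum]
    refine Finset.sum_congr rfl fun k _ => ?_
    rw [Complex.mul_im, h1, h2]
  · show (∑ k, c k * uK (a k) x).re =
      ∑ k, ((c k).re * EE 0 (hz (a k) x) + (c k).im * 0)
    rw [Complex.re_sum]
    refine Finset.sum_congr rfl fun k _ => ?_
    rw [Complex.mul_re, h1, h2]
    ring
  · show (∑ k, c k * fK (a k) x).re =
      ∑ k, ((c k).re * EE 1 (hz (a k) x) + (c k).im * -EE 2 (hz (a k) x))
    rw [Complex.re_sum]
    refine Finset.sum_congr rfl fun k _ => ?_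
    rw [Complex.mul_re, h3, h4]
    ring
  · show (∑ k, c k * fK (a k) x).im =
      ∑ k, ((c k).re * EE 2 (hz (a k) x) + (c k).im * EE 1 (hz (a k) x))
    rw [Complex.im_sum]
    refine Finset.sum_congr rfl fun k _ => ?_
    rw [Complex.mul_im, h3, h4]

theorem EE_le (i : Fin 3) (y : E3) : |EE i y| ≤ (y 0 ^ 2 + y 1 ^ 2 + y 2 ^ 2)⁻¹ := by
  unfold EE
  have hs : 0 ≤ y 0 ^ 2 + y 1 ^ 2 + y 2 ^ 2 := by positivity
  rcases eq_or_lt_of_le hs with h0 | h0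
  · rw [← h0]
    simp
  · have hr : 0 < √(y 0 ^ 2 + y 1 ^ 2 + y 2 ^ 2) := Real.sqrt_pos.2 h0
    have hi : |y i| ≤ √(y 0 ^ 2 + y 1 ^ 2 + y 2 ^ 2) := by
      apply Real.abs_le_sqrt
      fin_cases i
      · show y 0 ^ 2 ≤ _
        nlinarith [sq_nonneg (y 1), sq_nonneg (y 2)]
      · show y 1 ^ 2 ≤ _
        nlinarith [sq_nonneg (y 0), sq_nonneg (y 2)]
      · show y 2 ^ 2 ≤ _
        nlinarith [sq_nonneg (y 1), sq_nonneg (y 0)]
    rw [abs_div, abs_of_pos (pow_pos hr 3), div_le_iff₀ (pow_pos hr 3)]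
    have h2 : √(y 0 ^ 2 + y 1 ^ 2 + y 2 ^ 2) ^ 2 = y 0 ^ 2 + y 1 ^ 2 + y 2 ^ 2 :=
      Real.sq_sqrt hs
    have h3 : (y 0 ^ 2 + y 1 ^ 2 + y 2 ^ 2)⁻¹ * √(y 0 ^ 2 + y 1 ^ 2 + y 2 ^ 2) ^ 3 =
        √(y 0 ^ 2 + y 1 ^ 2 + y 2 ^ 2) := by
      calc (y 0 ^ 2 + y 1 ^ 2 + y 2 ^ 2)⁻¹ * √(y 0 ^ 2 + y 1 ^ 2 + y 2 ^ 2) ^ 3
          = (y 0 ^ 2 + y 1 ^ 2 + y 2 ^ 2)⁻¹ * (√(y 0 ^ 2 + y 1 ^ 2 + y 2 ^ 2) ^ 2) *
            √(y 0 ^ 2 + y 1 ^ 2 + y 2 ^ 2) := by ring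
        _ = _ := by rw [h2, inv_mul_cancel₀ h0.ne', one_mul]
    rw [h3]
    exact hi

theorem P1_le (α : Fin 4) (y : E3) : |P1 α y| ≤ (y 0 ^ 2 + y 1 ^ 2 + y 2 ^ 2)⁻¹ := by
  fin_cases α
  · simp only [P1, Fin.zero_eta, Matrix.cons_val_zero, abs_zero]
    positivity
  · exact EE_le 0 y
  · exact EE_le 1 y
  · exact EE_le 2 y

theorem P2_le (α : Fin 4) (y : E3) : |P2 α y| ≤ (y 0 ^ 2 + y 1 ^ 2 + y 2 ^ 2)⁻¹ := by
  fin_cases α
  · exact EE_le 0 y
  · simp only [P2, Fin.mk_one, Matrix.cons_val_one, Matrix.cons_val_zero, abs_zero]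
    positivity
  · show |-EE 2 y| ≤ _
    rw [abs_neg]
    exact EE_le 2 y
  · exact EE_le 1 y

theorem EE_cont (i : Fin 3) {y : E3} (h : 0 < y 0 ^ 2 + y 1 ^ 2 + y 2 ^ 2) :
    ContinuousAt (EE i) y := by
  unfold EE
  have h1 : √(y 0 ^ 2 + y 1 ^ 2 + y 2 ^ 2) ^ 3 ≠ 0 := (pow_pos (Real.sqrt_pos.2 h) 3).ne'
  refine ContinuousAt.div (continuous_apply i).continuousAt ?_ h1
  have h2 : Continuous fun x : E3 => √(x 0 ^ 2 + x 1 ^ 2 + x 2 ^ 2) ^ 3 := by fun_prop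
  exact h2.continuousAt

theorem P1_cont (α : Fin 4) {y : E3} (h : 0 < y 0 ^ 2 + y 1 ^ 2 + y 2 ^ 2) :
    ContinuousAt (P1 α) y := by
  fin_cases α
  · exact continuousAt_const
  · exact EE_cont 0 h
  · exact EE_cont 1 h
  · exact EE_cont 2 h

theorem P2_cont (α : Fin 4) {y : E3} (h : 0 < y 0 ^ 2 + y 1 ^ 2 + y 2 ^ 2) :
    ContinuousAt (P2 α) y := by
  fin_cases α
  · exact EE_cont 0 h
  · exact continuousAt_const
  · exact (EE_cont 2 h).neg
  · exact EE_cont 1 h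

theorem EE_meas (i : Fin 3) : Measurable (EE i) := by
  unfold EE
  fun_prop

theorem P1_meas (α : Fin 4) : Measurable (P1 α) := by
  fin_cases α
  · exact measurable_const
  · exact EE_meas 0
  · exact EE_meas 1
  · exact EE_meas 2

theorem P2_meas (α : Fin 4) : Measurable (P2 α) := by
  fin_cases α
  · exact EE_meas 0
  · exact measurable_const
  · exact (EE_meas 2).neg
  · exact EE_meas 1

/-- the point of the plane -/
def pt (a : ℂ) : Fin 2 → ℝ := ![a.re, a.im]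

theorem y0 (a : ℂ) (τ : ℝ) (z : Fin 2 → ℝ) : hz a (sft τ (Fin.cons 0 z)) 0 = τ := by
  simp [hz, sft, e0]

theorem y1 (a : ℂ) (τ : ℝ) (z : Fin 2 → ℝ) :
    hz a (sft τ (Fin.cons 0 z)) 1 = (z - pt a) 0 := by
  simp [hz, sft, e0, pt]

theorem y2 (a : ℂ) (τ : ℝ) (z : Fin 2 → ℝ) :
    hz a (sft τ (Fin.cons 0 z)) 2 = (z - pt a) 1 := by
  show z 1 + τ * e0 2 - a.im = z 1 - a.im
  simp [e0]

theorem norm_le (w : Fin 2 → ℝ) : ‖w‖ ^ 2 ≤ w 0 ^ 2 + w 1 ^ 2 := by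
  have h : ‖w‖ ≤ √(w 0 ^ 2 + w 1 ^ 2) := by
    rw [pi_norm_le_iff_of_nonneg (Real.sqrt_nonneg _)]
    intro i
    rw [Real.norm_eq_abs]
    apply Real.abs_le_sqrt
    fin_cases i
    · show w 0 ^ 2 ≤ _
      nlinarith [sq_nonneg (w 1)]
    · show w 1 ^ 2 ≤ _
      nlinarith [sq_nonneg (w 0)]
  calc ‖w‖ ^ 2 ≤ √(w 0 ^ 2 + w 1 ^ 2) ^ 2 := pow_le_pow_left₀ (norm_nonneg _) h 2
    _ = _ := Real.sq_sqrt (by positivity)

theorem r_ge (a : ℂ) (τ : ℝ) (z : Fin 2 → ℝ) :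
    ‖z - pt a‖ ^ 2 ≤ hz a (sft τ (Fin.cons 0 z)) 0 ^ 2 + hz a (sft τ (Fin.cons 0 z)) 1 ^ 2 +
      hz a (sft τ (Fin.cons 0 z)) 2 ^ 2 := by
  rw [y0, y1, y2]
  nlinarith [norm_le (z - pt a), sq_nonneg τ]

theorem r_pos {a : ℂ} (τ : ℝ) {z : Fin 2 → ℝ} (h : z ≠ pt a) :
    0 < hz a (sft τ (Fin.cons 0 z)) 0 ^ 2 + hz a (sft τ (Fin.cons 0 z)) 1 ^ 2 +
      hz a (sft τ (Fin.cons 0 z)) 2 ^ 2 :=
  lt_of_lt_of_le (pow_pos (norm_pos_iff.2 (sub_ne_zero.2 h)) 2) (r_ge a τ z)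

theorem sft_zero (x : E3) : sft 0 x = x := by
  funext i
  simp [sft]

theorem hz_tendsto (a : ℂ) {τ : ℕ → ℝ} (hτ : Tendsto τ atTop (𝓝 0)) (x : E3) :
    Tendsto (fun m => hz a (sft (τ m) x)) atTop (𝓝 (hz a (sft 0 x))) := by
  refine tendsto_pi_nhds.2 fun i => ?_
  unfold hz sft
  exact (tendsto_const_nhds.add (hτ.mul_const _)).sub tendsto_const_nhds

theorem GF_tendsto {n : ℕ} (a c : Fin n → ℂ) {v : ℕ → Fin 4 → ℝ} {v₀ : Fin 4 → ℝ} {τ : ℕ → ℝ}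
    (hτ : Tendsto τ atTop (𝓝 0)) (hv : Tendsto v atTop (𝓝 v₀)) {z : Fin 2 → ℝ}
    (hz' : ∀ k, z ≠ pt (a k)) (α : Fin 4) :
    Tendsto (fun m => GF a c (v m) α (sft (τ m) (Fin.cons 0 z))) atTop
      (𝓝 (GF a c v₀ α (sft 0 (Fin.cons 0 z)))) := by
  simp only [form]
  refine Tendsto.add (tendsto_finsetSum _ fun k _ => Tendsto.add ?_ ?_)
    (tendsto_pi_nhds.1 hv α)
  · exact ((P1_cont α (r_pos 0 (hz' k))).tendsto.comp (hz_tendsto (a k) hτ _)).const_mul _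
  · exact ((P2_cont α (r_pos 0 (hz' k))).tendsto.comp (hz_tendsto (a k) hτ _)).const_mul _

theorem g_tendsto {n : ℕ} (a c : Fin n → ℂ) {p : ℝ} (hp : 0 < p) {v : ℕ → Fin 4 → ℝ}
    {v₀ : Fin 4 → ℝ} {τ : ℕ → ℝ}
    (hτ : Tendsto τ atTop (𝓝 0)) (hv : Tendsto v atTop (𝓝 v₀)) {z : Fin 2 → ℝ}
    (hz' : ∀ k, z ≠ pt (a k)) :
    Tendsto (fun m => AA (GF a c (v m)) (sft (τ m) (Fin.cons 0 z)) ^ (p / 2)) atTop
      (𝓝 (AA (GF a c v₀) (Fin.cons 0 z) ^ (p / 2))) := by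
  have h := fun α => GF_tendsto a c hτ hv hz' α
  rw [sft_zero] at h
  refine Tendsto.rpow_const ?_ (Or.inr (by positivity))
  unfold AA
  exact tendsto_finsetSum _ fun α _ => (h α).pow 2

theorem arg_meas (a : ℂ) (τ : ℝ) :
    Measurable fun z : Fin 2 → ℝ => hz a (sft τ (Fin.cons 0 z)) := by
  refine measurable_pi_lambda _ fun i => ?_
  fin_cases i
  · show Measurable fun z : Fin 2 → ℝ => hz a (sft τ (Fin.cons 0 z)) 0
    simp only [y0]
    exact measurable_const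
  · show Measurable fun z : Fin 2 → ℝ => hz a (sft τ (Fin.cons 0 z)) 1
    simp only [y1]
    fun_prop
  · show Measurable fun z : Fin 2 → ℝ => hz a (sft τ (Fin.cons 0 z)) 2
    simp only [y2]
    fun_prop

theorem g_meas {n : ℕ} (a c : Fin n → ℂ) (p : ℝ) (v : Fin 4 → ℝ) (τ : ℝ) :
    Measurable fun z : Fin 2 → ℝ =>
      AA (GF a c v) (sft τ (Fin.cons 0 z)) ^ (p / 2) := by
  unfold AA
  refine Measurable.pow_const ?_ _
  refine Finset.measurable_fun_sum _ fun α _ => ?_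
  refine Measurable.pow_const ?_ _
  simp only [form]
  refine Measurable.add_const ?_ _
  refine Finset.measurable_fun_sum _ fun k _ => ?_
  exact (((P1_meas α).comp (arg_meas (a k) τ)).const_mul _).add
    (((P2_meas α).comp (arg_meas (a k) τ)).const_mul _)

theorem GF_le {n : ℕ} (a c : Fin n → ℂ) (v : Fin 4 → ℝ) {V : ℝ} (hv : ∀ α, |v α| ≤ V) (τ : ℝ)
    {z : Fin 2 → ℝ} (hz' : ∀ k, z ≠ pt (a k)) (α : Fin 4) :
    |GF a c v α (sft τ (Fin.cons 0 z))| ≤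
      ∑ k, (|(c k).re| + |(c k).im|) * (‖z - pt (a k)‖ ^ 2)⁻¹ + V := by
  rw [form]
  refine (abs_add_le _ _).trans (add_le_add ?_ (hv α))
  refine (Finset.abs_sum_le_sum_abs _ _).trans (Finset.sum_le_sum fun k _ => ?_)
  have hpos : 0 < ‖z - pt (a k)‖ ^ 2 := pow_pos (norm_pos_iff.2 (sub_ne_zero.2 (hz' k))) 2
  have h1 := (P1_le α (hz (a k) (sft τ (Fin.cons 0 z)))).trans
    (inv_anti₀ hpos (r_ge (a k) τ z))
  have h2 := (P2_le α (hz (a k) (sft τ (Fin.cons 0 z)))).trans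
    (inv_anti₀ hpos (r_ge (a k) τ z))
  refine (abs_add_le _ _).trans ?_
  rw [abs_mul, abs_mul, add_mul]
  exact add_le_add (mul_le_mul_of_nonneg_left h1 (abs_nonneg _))
    (mul_le_mul_of_nonneg_left h2 (abs_nonneg _))

theorem sum_rpow {ι : Type*} (s : Finset ι) (f : ι → ℝ) (hf : ∀ k, 0 ≤ f k) {V p : ℝ}
    (hV : 0 ≤ V) (hp : 0 ≤ p) (hp1 : p ≤ 1) :
    (∑ k ∈ s, f k + V) ^ p ≤ ∑ k ∈ s, f k ^ p + V ^ p := by
  classical
  induction s using Finset.induction_on with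
  | empty => simp
  | insert k s hk ih =>
    rw [Finset.sum_insert hk, Finset.sum_insert hk, add_assoc, add_assoc]
    refine (Real.rpow_add_le_add_rpow (hf k)
      (add_nonneg (Finset.sum_nonneg fun j _ => hf j) hV) hp hp1).trans ?_
    exact add_le_add le_rfl ih

/-- the dominating function -/
noncomputable def dom {n : ℕ} (a c : Fin n → ℂ) (p V : ℝ) (z : Fin 2 → ℝ) : ℝ :=
  ∑ k, (2 * (|(c k).re| + |(c k).im|)) ^ p * ‖z - pt (a k)‖ ^ (-(2 * p)) + (2 * V) ^ p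

theorem g_le {n : ℕ} (a c : Fin n → ℂ) (v : Fin 4 → ℝ) {V p : ℝ} (hV : 0 ≤ V)
    (hv : ∀ α, |v α| ≤ V) (hp : 0 < p) (hp1 : p < 1 / 2) (τ : ℝ)
    {z : Fin 2 → ℝ} (hz' : ∀ k, z ≠ pt (a k)) :
    ‖AA (GF a c v) (sft τ (Fin.cons 0 z)) ^ (p / 2)‖ ≤ dom a c p V z := by
  have hA0 : 0 ≤ AA (GF a c v) (sft τ (Fin.cons 0 z)) := by
    unfold AA
    positivity
  rw [Real.norm_eq_abs, abs_of_nonneg (Real.rpow_nonneg hA0 _)]
  obtain ⟨B, hB⟩ : ∃ B, B = ∑ k, (|(c k).re| + |(c k).im|) * (‖z - pt (a k)‖ ^ 2)⁻¹ + V :=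
    ⟨_, rfl⟩
  have hB0 : 0 ≤ B := by
    rw [hB]
    positivity
  have h1 : AA (GF a c v) (sft τ (Fin.cons 0 z)) ≤ (2 * B) ^ (2 : ℕ) := by
    have h2 : ∀ α, GF a c v α (sft τ (Fin.cons 0 z)) ^ 2 ≤ B ^ 2 := by
      intro α
      rw [← sq_abs]
      refine pow_le_pow_left₀ (abs_nonneg _) ?_ 2
      rw [hB]
      exact GF_le a c v hv τ hz' α
    unfold AA
    rw [Fin.sum_univ_four]
    nlinarith [h2 0, h2 1, h2 2, h2 3]
  have h3 : AA (GF a c v) (sft τ (Fin.cons 0 z)) ^ (p / 2) ≤ (2 * B) ^ p := by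
    refine (Real.rpow_le_rpow hA0 h1 (by positivity)).trans_eq ?_
    rw [← Real.rpow_natCast, ← Real.rpow_mul (by positivity)]
    congr 1
    push_cast
    ring
  refine h3.trans ?_
  have h4 : 2 * B = ∑ k, (2 * (|(c k).re| + |(c k).im|)) * (‖z - pt (a k)‖ ^ 2)⁻¹ + 2 * V := by
    rw [hB, mul_add, Finset.mul_sum]
    congr 1
    refine Finset.sum_congr rfl fun k _ => ?_
    ring
  rw [h4]
  refine (sum_rpow Finset.univ _ (fun k => by positivity) (by positivity) hp.le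
    (by linarith)).trans_eq ?_
  unfold dom
  congr 1
  refine Finset.sum_congr rfl fun k _ => ?_
  rw [Real.mul_rpow (by positivity) (by positivity)]
  congr 1
  rw [Real.inv_rpow (by positivity), ← Real.rpow_natCast, ← Real.rpow_mul (norm_nonneg _),
    Real.rpow_neg (norm_nonneg _)]
  push_cast
  rfl

theorem pow_int {p : ℝ} (hp1 : p < 1 / 2) (b : Fin 2 → ℝ) {K : Set (Fin 2 → ℝ)}
    (hK : IsCompact K) : IntegrableOn (fun z : Fin 2 → ℝ => ‖z - b‖ ^ (-(2 * p))) K := by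
  have hloc : LocallyIntegrable (fun z : Fin 2 → ℝ => ‖z‖ ^ (-(2 * p))) volume := by
    refine locallyIntegrable_of_norm_le_rpow (C := 1) (α := 2 * p) ?_ ?_ ?_ ?_
    · simp
    · simp
      linarith
    · refine Filter.Eventually.of_forall fun z => ?_
      rw [one_mul, Real.norm_eq_abs, abs_of_nonneg (Real.rpow_nonneg (norm_nonneg _) _)]
    · exact (measurable_norm.pow_const _).aestronglyMeasurable
  have hc : IsCompact ((fun z : Fin 2 → ℝ => z - b) '' K) :=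
    hK.image (continuous_id.sub continuous_const)
  have h1 := hloc.integrableOn_isCompact hc
  have hmp : MeasurePreserving (fun z : Fin 2 → ℝ => z - b) volume volume :=
    measurePreserving_sub_right volume b
  have hme : MeasurableEmbedding (fun z : Fin 2 → ℝ => z - b) :=
    (MeasurableEquiv.subRight b).measurableEmbedding
  have h2 := (hmp.integrableOn_comp_preimage hme).2 h1
  exact h2.mono_set (subset_preimage_image _ _)

theorem dom_int {n : ℕ} (a c : Fin n → ℂ) {p : ℝ} (hp1 : p < 1 / 2) (V : ℝ)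
    {K : Set (Fin 2 → ℝ)} (hK : IsCompact K) : IntegrableOn (dom a c p V) K := by
  unfold dom
  refine Integrable.add ?_ ?_
  · exact integrable_finsetSum _ fun k _ => (pow_int hp1 (pt (a k)) hK).const_mul _
  · exact integrableOn_const hK.measure_lt_top.ne

theorem ae_ne {n : ℕ} (a : Fin n → ℂ) (μ : Measure (Fin 2 → ℝ)) [NullSingletonClass μ] :
    ∀ᵐ z ∂μ, ∀ k, z ≠ pt (a k) :=
  ae_all_iff.2 fun k => compl_mem_ae_iff.2 (measure_singleton (pt (a k)))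

end LimX

open LimX in
theorem pr_Lim : S_Lim := by
  intro n a c p hp hp1 L v v₀ τ _ hτ hv
  have hK : IsCompact (Icc (fun _ : Fin 2 => -L) (fun _ => L)) := isCompact_Icc
  obtain ⟨V1, hV1⟩ := (Metric.isBounded_range_of_tendsto v hv).exists_norm_le
  have hm : ∀ m α, |v m α| ≤ V1 := fun m α => (norm_le_pi_norm (v m) α).trans (hV1 _ ⟨m, rfl⟩)
  obtain ⟨V, hV, hm', h0'⟩ : ∃ V, 0 ≤ V ∧ (∀ m α, |v m α| ≤ V) ∧ ∀ α, |v₀ α| ≤ V := by
    refine ⟨|V1| + ‖v₀‖, by positivity, fun m α => ?_, fun α => ?_⟩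
    · exact (hm m α).trans ((le_abs_self V1).trans (le_add_of_nonneg_right (norm_nonneg _)))
    · exact (norm_le_pi_norm v₀ α).trans (le_add_of_nonneg_left (abs_nonneg _))
  have hd := dom_int a c hp1 V hK
  constructor
  · refine Integrable.mono' hd ?_ ?_
    · have h := (g_meas a c p v₀ 0).aestronglyMeasurable
        (μ := volume.restrict (Icc (fun _ : Fin 2 => -L) (fun _ => L)))
      simp only [sft_zero] at h
      exact h
    · filter_upwards [ae_ne a (volume.restrict (Icc (fun _ : Fin 2 => -L) (fun _ => L)))] with z hz'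
      have h := g_le a c v₀ hV h0' hp hp1 0 hz'
      rw [sft_zero] at h
      exact h
  · refine tendsto_integral_of_dominated_convergence (dom a c p V) ?_ hd ?_ ?_
    · intro m
      exact (g_meas a c p (v m) (τ m)).aestronglyMeasurable
    · intro m
      filter_upwards [ae_ne a (volume.restrict (Icc (fun _ : Fin 2 => -L) (fun _ => L)))] with z hz'
      exact g_le a c (v m) hV (hm' m) hp hp1 (τ m) hz'
    · filter_upwards [ae_ne a (volume.restrict (Icc (fun _ : Fin 2 => -L) (fun _ => L)))] with z hz'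
      exact g_tendsto a c hp hτ hv hz'

end Pool.Agent.Work.MP_440970_an.BH
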