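import Pool.Agent.Work.MP_440970_an.BH.Basic
import Pool.Agent.Work.MP_440970_an.BH.Base

/-!
# `𝒳^p(ℂ) ≠ L^p(ℂ)` for some `p < 1/2`: the statements of the items
-/

open MeasureTheory Set Filter Topology
open scoped ContDiff ENNReal

namespace Pool.Agent.Work.MP_440970_an.BH

/-! ## Part I: existence of certificates -/

/-- the convex functions `γ` -/
structure IsGam (γ : ℝ → ℝ) : Prop where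
  c : ContDiff ℝ 2 γ
  one : ∀ u ≤ 1, γ u = 1
  ge : ∀ u, 1 ≤ γ u
  d0 : ∀ u, 0 ≤ deriv γ u
  d1 : ∀ u, deriv γ u ≤ 1 / 8
  dd : ∀ u, 0 ≤ deriv (deriv γ) u
  far : ∀ u, 2 ≤ u → 1 / 16 ≤ deriv γ u
  h0 : ∀ u, 0 ≤ u → 5 / 8 ≤ γ u - u * deriv γ u
  h1 : ∀ u, 0 ≤ u → γ u - u * deriv γ u ≤ 1

/-- [Gam] -/
def S_Gam : Prop := ∃ γ, IsGam γ

/-- [Cut] a cutoff function -/
def S_Cut : Prop := ∃ (χ : ℝ → ℝ) (K : ℝ), ContDiff ℝ 2 χ ∧ (∀ u ≤ 2, χ u = 1) ∧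
  (∀ u, 3 ≤ u → χ u = 0) ∧ ∀ u, |χ u| ≤ K ∧ |deriv χ u| ≤ K ∧ |deriv (deriv χ) u| ≤ K

/-- the main term of `EP` for `φ(u) = γ(b u)^(p/2)`; `G, G1` are the values of `γ, γ'` at `b ξ` -/
noncomputable def SJ.br (s : SJ) (p b G G1 : ℝ) : ℝ :=
  2 * (G - b * s.ξ * G1) * s.ξ + b * G1 * (2 * s.ξ + 4 * s.y 0 + 2 * s.D) -
    (1 - p / 2) * (∑ k, (2 * (G - b * s.ξ * G1) * s.η k +
      b * G1 * (2 * s.ξ * e0 k + s.y k)) ^ 2) / G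

/-- [EPid] -/
def S_EPid : Prop := ∀ (s : SJ) (p b G G1 G2 : ℝ), 0 < G →
  s.EP p (G ^ (p / 2)) (p / 2 * G ^ (p / 2 - 1) * (b * G1))
    (p / 2 * G ^ (p / 2 - 1) * (b ^ 2 * G2) +
      p / 2 * (p / 2 - 1) * G ^ (p / 2 - 2) * (b * G1) ^ 2) =
  p / 2 * G ^ (p / 2 - 1) * (s.br p b G G1 + b ^ 2 * G2 * ∑ k, s.x1 k ^ 2)

/-- [BrNear] -/
def S_BrNear : Prop := ∀ s : SJ, IsSJ s → ∀ p G G1 : ℝ, 499 / 1000 ≤ p → p ≤ 1 / 2 →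
  s.ξ ≤ 2000 → 1 ≤ G → 0 ≤ G1 → G1 ≤ 1 / 8 → 5 / 8 ≤ G - 1 / 1000 * s.ξ * G1 →
  G - 1 / 1000 * s.ξ * G1 ≤ 1 → (s.ξ ≤ 1000 → G1 = 0) →
  s.q - 3 * (1 / 2 - p) * s.N ≤ s.br p (1 / 1000) G G1

/-- [BrFar] -/
def S_BrFar : Prop := ∀ s : SJ, IsSJ s → ∀ p G G1 : ℝ, 499 / 1000 ≤ p → p ≤ 1 / 2 →
  2000 ≤ s.ξ → 1 ≤ G → 1 / 16 ≤ G1 → G1 ≤ 1 / 8 → 5 / 8 ≤ G - 1 / 1000 * s.ξ * G1 →
  G - 1 / 1000 * s.ξ * G1 ≤ 1 →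
  1 / 1000000 * (s.ξ + s.D) ≤ s.br p (1 / 1000) G G1

/-- [EQnear] -/
def S_EQnear : Prop := ∃ C : ℝ, ∀ (p : ℝ) (s : SJ), 0 ≤ p → p ≤ 1 / 2 → IsSJ s → s.ξ ≤ 3000 →
  1 / 400 * s.Bs - C * s.q ≤ s.EQ p 1 0 0

/-- [EQcrude] -/
def S_EQcrude : Prop := ∀ K : ℝ, ∃ C : ℝ, ∀ (p g g1 g2 : ℝ) (s : SJ), 0 ≤ p → p ≤ 1 / 2 →
  |g| ≤ K → |g1| ≤ K → |g2| ≤ K → IsSJ s → s.ξ ≤ 3000 → |s.EQ p g g1 g2| ≤ C * (1 + s.D)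

/-- [EVnear] -/
def S_EVnear : Prop := ∃ C : ℝ, ∀ (p : ℝ) (s : SJ), 0 ≤ p → p ≤ 1 / 2 → IsSJ s → s.ξ ≤ 2000 →
  1 / 50 * s.N - C * (1 / 2 - p) * s.N - C * s.Bs ≤ s.EV p 1 0

/-- [EVcrude] -/
def S_EVcrude : Prop := ∀ K : ℝ, ∃ C : ℝ, ∀ (p h h1 : ℝ) (s : SJ), 0 ≤ p → p ≤ 1 / 2 →
  |h| ≤ K → |h1| ≤ K → IsSJ s → s.ξ ≤ 3000 → |s.EV p h h1| ≤ C * (1 + s.D)

/-- [CertEx] certificates exist for all `p < 1/2` close to `1/2` -/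
def S_CertEx : Prop := ∃ p₁ : ℝ, 0 < p₁ ∧ p₁ < 1 / 2 ∧ ∀ p : ℝ, p₁ ≤ p → p < 1 / 2 →
  ∃ φ ψ χ : ℝ → ℝ, Cert p φ ψ χ

/-! ## Part II: jets of monogenic fields -/

/-- the data at a point where `F = 1` and `t = 1` -/
structure NormData (S : Fin 3 → Fin 4 → ℝ) (T : Fin 3 → Fin 3 → Fin 4 → ℝ) : Prop where
  dS : Dir S
  dT : ∀ k, Dir (T k)
  sT : ∀ k j α, T k j α = T j k α

/-- the scalar jet of the normalised data -/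
noncomputable def nSJ (S : Fin 3 → Fin 4 → ℝ) (T : Fin 3 → Fin 3 → Fin 4 → ℝ) : SJ :=
  mkSJ ![1, 0, 0, 0] S T 1

/-- [JetQ] -/
def S_JetQ : Prop := ∀ (S : Fin 3 → Fin 4 → ℝ) (T : Fin 3 → Fin 3 → Fin 4 → ℝ), NormData S T →
  (∀ k j, (nSJ S T).H k j = (nSJ S T).H j k) ∧
  ∑ k, (nSJ S T).H k k = (nSJ S T).ξ - 2 * (nSJ S T).N ∧ 0 ≤ (nSJ S T).q ∧ 0 ≤ (nSJ S T).D

/-- [JetK] -/
def S_JetK : Prop := ∀ (S : Fin 3 → Fin 4 → ℝ) (T : Fin 3 → Fin 3 → Fin 4 → ℝ), NormData S T →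
  ∑ k, (nSJ S T).y k ^ 2 ≤ 12 / 5 * (nSJ S T).ξ * (nSJ S T).D

/-- the Levi-Civita symbol -/
noncomputable def lc (i j k : Fin 3) : ℝ :=
  (((j : ℕ) : ℝ) - (i : ℕ)) * (((k : ℕ) : ℝ) - (j : ℕ)) * (((k : ℕ) : ℝ) - (i : ℕ)) / 2

/-- the symmetric part of the imaginary part of `S` -/
noncomputable def nP (S : Fin 3 → Fin 4 → ℝ) (j l : Fin 3) : ℝ := (S j l.succ + S l j.succ) / 2

/-- the antisymmetric part of the imaginary part of `S` -/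
noncomputable def nO (S : Fin 3 → Fin 4 → ℝ) (j l : Fin 3) : ℝ := (S j l.succ - S l j.succ) / 2

/-- the real part of `T` minus its value for a monopole -/
noncomputable def nR (S : Fin 3 → Fin 4 → ℝ) (T : Fin 3 → Fin 3 → Fin 4 → ℝ) (k j : Fin 3) : ℝ :=
  T k j 0 - 9 / 4 * (S k 0 * S j 0 - if k = j then (∑ i, S i 0 ^ 2) / 3 else 0)

/-- the totally symmetric part of `T` -/
noncomputable def nT (T : Fin 3 → Fin 3 → Fin 4 → ℝ) (k j l : Fin 3) : ℝ :=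
  T k j l.succ + 1 / 3 * ∑ m, (lc k l m * T m j 0 + lc j l m * T m k 0)

/-- the derivative of `nP` -/
noncomputable def nW (S : Fin 3 → Fin 4 → ℝ) (T : Fin 3 → Fin 3 → Fin 4 → ℝ) (k j l : Fin 3) :
    ℝ :=
  (T k j l.succ + T k l j.succ - (S j 0 * S k l.succ + S l 0 * S k j.succ) -
    S k 0 * (S j l.succ + S l j.succ) -
    ∑ m, ∑ n, (lc l m n * S j m.succ * S k n.succ + lc j m n * S l m.succ * S k n.succ)) / 2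

/-- [JetD] -/
def S_JetD : Prop := ∀ (S : Fin 3 → Fin 4 → ℝ) (T : Fin 3 → Fin 3 → Fin 4 → ℝ), NormData S T →
  (nSJ S T).D = 5 / 3 * ∑ k, ∑ j, T k j 0 ^ 2 + ∑ k, ∑ j, ∑ l, nT T k j l ^ 2 ∧
  (nSJ S T).q = ∑ j, ∑ l, nP S j l ^ 2 ∧
  ∀ k j, (nSJ S T).Bm k j = nR S T k j + ∑ l, (nO S k l * nP S l j - nP S k l * nO S l j +
    nP S k l * nP S l j)

/-- [JetI] -/
def S_JetI : Prop := ∀ (S : Fin 3 → Fin 4 → ℝ) (T : Fin 3 → Fin 3 → Fin 4 → ℝ), NormData S T →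
  (nSJ S T).B0 = 10 / 3 * ∑ k, ∑ j, nR S T k j ^ 2 + 2 * ∑ k, ∑ j, ∑ l, nT T k j l ^ 2 -
    3 * (nSJ S T).Bs - 15 * ∑ k, (∑ l, nP S k l * S l 0) ^ 2 - 3 * (nSJ S T).N * (nSJ S T).q -
    2 * (nSJ S T).q ^ 2

/-- [JetL] -/
def S_JetL : Prop := ∀ (S : Fin 3 → Fin 4 → ℝ) (T : Fin 3 → Fin 3 → Fin 4 → ℝ), NormData S T →
  1 / 6 * ∑ k, ∑ j, nR S T k j ^ 2 + 2 * ∑ k, ∑ j, ∑ l, nT T k j l ^ 2 +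
    700 * ((nSJ S T).N + (nSJ S T).q) * (nSJ S T).q ≤ (nSJ S T).BB

/-- [JetP] -/
def S_JetP : Prop := ∀ (S : Fin 3 → Fin 4 → ℝ) (T : Fin 3 → Fin 3 → Fin 4 → ℝ), NormData S T →
  (∀ k, (nSJ S T).qp k = 2 * ∑ j, ∑ l, nP S j l * nW S T k j l) ∧
  ∑ k, ∑ j, ∑ l, nW S T k j l ^ 2 ≤ 2 * ∑ k, ∑ j, ∑ l, nT T k j l ^ 2 +
    1 / 3 * ∑ k, ∑ j, nR S T k j ^ 2 + 200 * ((nSJ S T).N + (nSJ S T).q) * (nSJ S T).q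

/-- [JetB] -/
def S_JetB : Prop := ∀ (S : Fin 3 → Fin 4 → ℝ) (T : Fin 3 → Fin 3 → Fin 4 → ℝ), NormData S T →
  (nSJ S T).Bs ≤ 100 * (nSJ S T).BB

/-- [JetW] -/
def S_JetW : Prop := ∀ (S : Fin 3 → Fin 4 → ℝ) (T : Fin 3 → Fin 3 → Fin 4 → ℝ), NormData S T →
  ∑ k, (nSJ S T).qp k ^ 2 ≤ 1000 * (nSJ S T).q * (nSJ S T).BB

/-- [JetNorm] reduction to normalised data -/
def S_JetNorm : Prop :=
  (∀ (S : Fin 3 → Fin 4 → ℝ) (T : Fin 3 → Fin 3 → Fin 4 → ℝ), NormData S T → IsSJ (nSJ S T)) →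
  ∀ (F : Fin 4 → ℝ) (S : Fin 3 → Fin 4 → ℝ) (T : Fin 3 → Fin 3 → Fin 4 → ℝ) (t : ℝ),
    0 < ∑ α, F α ^ 2 → NormData S T → IsSJ (mkSJ F S T t)

/-! ## Part III: calculus -/

/-- [Harm] the components of a monogenic field and their derivatives are harmonic -/
def S_Harm : Prop := ∀ (F : Fin 4 → E3 → ℝ) (U : Set E3), Fld F U → ∀ x ∈ U,
  (∀ α, ∑ i, pd i (pd i (F α)) x = 0) ∧ ∀ j α, ∑ i, pd i (pd i (pd j (F α))) x = 0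

/-- [JetF] the scalar jets of a monogenic field satisfy the relations -/
def S_JetF : Prop := ∀ (F : Fin 4 → E3 → ℝ) (U : Set E3), Fld F U → ∀ x ∈ U, 0 < AA F x →
  IsSJ (sj F x)

/-- [NJA] -/
def S_NJA : Prop := ∀ (F : Fin 4 → E3 → ℝ) (U : Set E3), Fld F U → ∀ x ∈ U,
  NJ (AA F) x (AA F x) (fun i => 2 * (x 0 * CC F i x)) (2 * (x 0 ^ 2 * GG F x))

/-- [NJw] -/
def S_NJw : Prop := ∀ (F : Fin 4 → E3 → ℝ) (U : Set E3), Fld F U → ∀ x ∈ U, 0 < AA F x →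
  ∀ p : ℝ, NJ (fun y => AA F y ^ (p / 2)) x (AA F x ^ (p / 2))
    (fun i => AA F x ^ (p / 2) * (p * (sj F x).η i))
    (AA F x ^ (p / 2) * (p * ((sj F x).q - (1 / 2 - p) * (sj F x).N)))

/-- [NJxi] -/
def S_NJxi : Prop := ∀ (F : Fin 4 → E3 → ℝ) (U : Set E3), Fld F U → ∀ x ∈ U, 0 < AA F x →
  NJ (fun y => (sj F y).ξ) x (sj F x).ξ (sj F x).x1 (sj F x).Lx

/-- [NJeta] -/
def S_NJeta : Prop := ∀ (F : Fin 4 → E3 → ℝ) (U : Set E3), Fld F U → ∀ x ∈ U, 0 < AA F x →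
  ∀ k, NJ (fun y => (sj F y).η k) x ((sj F x).η k)
    (fun i => e0 i * (sj F x).η k + (sj F x).H i k)
    (2 * (sj F x).H 0 k + (sj F x).xp k - 4 * (sj F x).He k)

/-- [NJq] -/
def S_NJq : Prop := ∀ (F : Fin 4 → E3 → ℝ) (U : Set E3), Fld F U → ∀ x ∈ U, 0 < AA F x →
  NJ (fun y => (sj F y).q) x (sj F x).q (sj F x).q1 (sj F x).Lq

/-- [LapM] -/
def S_LapM : Prop := ∀ (F : Fin 4 → E3 → ℝ) (U : Set E3), Fld F U → ∀ x ∈ U, 0 < AA F x →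
  ∀ (p : ℝ) (φ ψ : ℝ → ℝ), ContDiff ℝ 2 φ → ContDiff ℝ 2 ψ →
  NJ (MM p φ ψ F) x (MM p φ ψ F x)
    (fun i => AA F x ^ (p / 2) * (p * (sj F x).η i * (φ (sj F x).ξ + (sj F x).q * ψ (sj F x).ξ) +
      (deriv φ (sj F x).ξ + (sj F x).q * deriv ψ (sj F x).ξ) * (sj F x).x1 i +
      ψ (sj F x).ξ * (sj F x).q1 i))
    (AA F x ^ (p / 2) *
      ((sj F x).EP p (φ (sj F x).ξ) (deriv φ (sj F x).ξ) (deriv (deriv φ) (sj F x).ξ) +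
        (sj F x).EQ p (ψ (sj F x).ξ) (deriv ψ (sj F x).ξ) (deriv (deriv ψ) (sj F x).ξ)))

/-- [DivY] -/
def S_DivY : Prop := ∀ (F : Fin 4 → E3 → ℝ) (U : Set E3), Fld F U → ∀ x ∈ U, 0 < AA F x →
  ∀ (p : ℝ) (χ : ℝ → ℝ), ContDiff ℝ 2 χ →
  (∀ i, ContDiffAt ℝ 1 (YY p χ F i) x) ∧
  x 0 * ∑ i, pd i (YY p χ F i) x =
    AA F x ^ (p / 2) * (sj F x).EV p (χ (sj F x).ξ) (deriv χ (sj F x).ξ)

/-- [DivZ] -/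
def S_DivZ : Prop := ∀ (p : ℝ) (φ ψ χ : ℝ → ℝ) (m : ℝ), Cert p φ ψ χ →
  ∀ (F : Fin 4 → E3 → ℝ) (U : Set E3), Fld F U → (∀ x ∈ U, 0 < AA F x) →
  (∀ i, ContDiffOn ℝ 1 (ZZ p φ ψ χ m F i) U) ∧
  (∀ x ∈ U, 0 ≤ x 0 → 0 ≤ ∑ i, pd i (ZZ p φ ψ χ m F i) x) ∧
  ∀ x ∈ U, x 0 = 0 → ZZ p φ ψ χ m F 0 x = m - AA F x ^ (p / 2)

/-! ## Part IV: integration -/

/-- [Box] the divergence theorem on the box `[0, L] × [-L, L]²` -/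
def S_Box : Prop := ∀ (Z : Fin 3 → E3 → ℝ) (U : Set E3) (L ε : ℝ), IsOpen U →
  (∀ i, ContDiffOn ℝ 1 (Z i) U) → (∀ x : E3, 0 ≤ x 0 → x ∈ U) →
  (∀ x ∈ U, 0 ≤ x 0 → 0 ≤ ∑ i, pd i (Z i) x) → 0 < L →
  (∀ x : E3, 0 ≤ x 0 → ‖x‖ = L → ∀ i, |Z i x| ≤ ε) →
  ∫ z in Icc (fun _ : Fin 2 => -L) (fun _ => L), Z 0 (Fin.cons 0 z) ≤ 12 * L ^ 2 * ε

/-- [FarZ] behaviour of `ZZ` at infinity -/
def S_FarZ : Prop := ∀ (p : ℝ) (φ ψ χ : ℝ → ℝ), 0 < p → p < 1 / 2 → Cert p φ ψ χ →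
  ∀ C R : ℝ, ∃ C' R' : ℝ, ∀ (F : Fin 4 → E3 → ℝ) (U : Set E3) (v : Fin 4 → ℝ), Fld F U →
    (∀ x : E3, 0 ≤ x 0 → x ∈ U) → (∀ x ∈ U, 0 < AA F x) → Far F v C R →
    1 / 4 ≤ ∑ α, v α ^ 2 → ∑ α, v α ^ 2 ≤ 4 →
    ∀ x : E3, 0 ≤ x 0 → R' ≤ ‖x‖ → ∀ i,
      |ZZ p φ ψ χ ((∑ α, v α ^ 2) ^ (p / 2)) F i x| * ‖x‖ ^ 3 ≤ C'

/-- [Flux] -/
def S_Flux : Prop := ∀ (p : ℝ) (φ ψ χ : ℝ → ℝ), 0 < p → p < 1 / 2 → Cert p φ ψ χ →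
  ∀ C R : ℝ, ∃ C' R' : ℝ, 0 < R' ∧ ∀ (F : Fin 4 → E3 → ℝ) (U : Set E3) (v : Fin 4 → ℝ),
    Fld F U → (∀ x : E3, 0 ≤ x 0 → x ∈ U) → (∀ x ∈ U, 0 < AA F x) → Far F v C R →
    1 / 4 ≤ ∑ α, v α ^ 2 → ∑ α, v α ^ 2 ≤ 4 → ∀ L : ℝ, R' ≤ L →
    -(C' / L) ≤ ∫ z in Icc (fun _ : Fin 2 => -L) (fun _ => L),
      (AA F (Fin.cons 0 z) ^ (p / 2) - (∑ α, v α ^ 2) ^ (p / 2))

/-! ## Part V: the explicit fields -/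

/-- [Ker] the derivatives of the field of a point charge; `r` is the distance to the charge -/
def S_Ker : Prop := ∀ x : E3, x ≠ 0 → ∀ r : ℝ, r = √(x 0 ^ 2 + x 1 ^ 2 + x 2 ^ 2) →
  (∀ i, ContDiffAt ℝ ∞ (EE i) x) ∧
  (∀ i j, pd j (EE i) x = (if i = j then 1 else 0) / r ^ 3 - 3 * x i * x j / r ^ 5) ∧
  ∀ i j k, pd k (pd j (EE i)) x = -3 * ((if i = j then x k else 0) + (if i = k then x j else 0) +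
    if j = k then x i else 0) / r ^ 5 + 15 * x i * x j * x k / r ^ 7

/-- [KerB] bounds for the derivatives of the field of a point charge -/
def S_KerB : Prop := ∃ C : ℝ, ∀ x : E3, x ≠ 0 →
  (∀ i j, |pd j (EE i) x| * ‖x‖ ^ 3 ≤ C) ∧ (∀ i j k, |pd k (pd j (EE i)) x| * ‖x‖ ^ 4 ≤ C)

/-- [GFform] -/
def S_GFform : Prop := ∀ (n : ℕ) (a c : Fin n → ℂ) (v : Fin 4 → ℝ) (α : Fin 4) (x : E3),
  GF a c v α x = (∑ k, ((c k).re * P1 α (hz (a k) x) + (c k).im * P2 α (hz (a k) x))) + v α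

/-- [GFfld] -/
def S_GFfld : Prop := ∀ (n : ℕ) (a c : Fin n → ℂ) (v : Fin 4 → ℝ), Fld (GF a c v) {x | 0 < x 0}

/-- [Sft] vertical translations -/
def S_Sft : Prop := ∀ (F : Fin 4 → E3 → ℝ) (τ : ℝ), Fld F {x | 0 < x 0} →
  Fld (fun α x => F α (sft τ x)) {x | -τ < x 0}

/-- [GFfar] -/
def S_GFfar : Prop := ∀ (n : ℕ) (a c : Fin n → ℂ), ∑ k, c k = 0 → ∃ C R : ℝ,
  ∀ (v : Fin 4 → ℝ) (τ : ℝ), 0 < τ → τ ≤ 1 → Far (fun α x => GF a c v α (sft τ x)) v C R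

/-- [Dense] for generic constants the field has no zeros -/
def S_Dense : Prop := ∀ (n : ℕ) (a c : Fin n → ℂ) (v : Fin 4 → ℝ) (ε : ℝ), 0 < ε →
  ∃ v' : Fin 4 → ℝ, (∀ α, |v' α - v α| < ε) ∧ ∀ x : E3, 0 < x 0 → 0 < AA (GF a c v') x

/-- [Lim] -/
def S_Lim : Prop := ∀ (n : ℕ) (a c : Fin n → ℂ) (p : ℝ), 0 < p → p < 1 / 2 →
  ∀ (L : ℝ) (v : ℕ → Fin 4 → ℝ) (v₀ : Fin 4 → ℝ) (τ : ℕ → ℝ), (∀ m, 0 < τ m) →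
  Tendsto τ atTop (𝓝 0) → Tendsto v atTop (𝓝 v₀) →
  IntegrableOn (fun z => AA (GF a c v₀) (Fin.cons 0 z) ^ (p / 2))
    (Icc (fun _ : Fin 2 => -L) (fun _ => L)) ∧
  Tendsto (fun m => ∫ z in Icc (fun _ : Fin 2 => -L) (fun _ => L),
      AA (GF a c (v m)) (sft (τ m) (Fin.cons 0 z)) ^ (p / 2)) atTop
    (𝓝 (∫ z in Icc (fun _ : Fin 2 => -L) (fun _ => L),
      AA (GF a c v₀) (Fin.cons 0 z) ^ (p / 2)))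

/-- [Mom] the total charge of a function in `L^p` vanishes -/
def S_Mom : Prop := ∀ (n : ℕ) (a c : Fin n → ℂ) (p : ℝ), 0 < p → p < 1 / 2 →
  np p (fun z => ∑ k, c k * K (z - a k)) < ⊤ → ∑ k, c k = 0

/-- [Jen] -/
def S_Jen : Prop := ∀ (n : ℕ) (a c : Fin n → ℂ) (p : ℝ), 0 < p → p < 1 / 2 →
  (∃ φ ψ χ : ℝ → ℝ, Cert p φ ψ χ) → ∑ k, c k = 0 → ∃ C R : ℝ, 0 < R ∧ ∀ L : ℝ, R ≤ L →
    IntegrableOn (fun z => AA (GF a c ![0, 0, 1, 0]) (Fin.cons 0 z) ^ (p / 2))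
      (Icc (fun _ : Fin 2 => -L) (fun _ => L)) ∧
    -(C / L) ≤ ∫ z in Icc (fun _ : Fin 2 => -L) (fun _ => L),
      (AA (GF a c ![0, 0, 1, 0]) (Fin.cons 0 z) ^ (p / 2) - 1)

/-- [JenC] the same on the plane `ℂ` -/
def S_JenC : Prop := ∀ (n : ℕ) (a c : Fin n → ℂ) (p : ℝ), 0 < p → p < 1 / 2 →
  (∃ φ ψ χ : ℝ → ℝ, Cert p φ ψ χ) → ∑ k, c k = 0 → ∃ C R : ℝ, 0 < R ∧ ∀ L : ℝ, R ≤ L →
    IntegrableOn (fun z : ℂ => ‖1 + ∑ k, c k * K (z - a k)‖ ^ p)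
      (Icc (-L) L ×ℂ Icc (-L) L) ∧
    -(C / L) ≤ ∫ z in Icc (-L) L ×ℂ Icc (-L) L, (‖1 + ∑ k, c k * K (z - a k)‖ ^ p - 1)

/-- [Final] -/
def S_Final : Prop := ∃ p₁ : ℝ, 0 < p₁ ∧ p₁ < 1 / 2 ∧ ∀ p : ℝ, p₁ ≤ p → p < 1 / 2 →
  ∃ g : ℂ → ℂ, Measurable g ∧ np p g < ⊤ ∧ 0 < dX p g

end Pool.Agent.Work.MP_440970_an.BH
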